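import Pool.Agent.DBX.SRV.Stmts

set_option autoImplicit false

/-! # MP_2c751f_ag, squad DBX, area SRV, module BCG: flat base change -/

namespace Pool.Agent.DBX.SRV

open MvPolynomial IsLocalRing RingTheory.Sequence CategoryTheory

universe u

namespace BCG_

open Limits TensorProduct

section
variable (P A : Type u) [CommRing P] [CommRing A] [Algebra P A]

/-- base change of a short exact sequence along a flat algebra -/
theorem ses [Module.Flat P A] (T : ShortComplex (ModuleCat.{u} P)) (hT : T.ShortExact) :
    ∃ T' : ShortComplex (ModuleCat.{u} A), T'.ShortExact ∧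
      T'.X₁ = ModuleCat.of A (A ⊗[P] T.X₁) ∧ T'.X₂ = ModuleCat.of A (A ⊗[P] T.X₂) ∧
      T'.X₃ = ModuleCat.of A (A ⊗[P] T.X₃) := by
  have hi : Function.Injective T.f.hom := hT.moduleCat_injective_f
  have hs : Function.Surjective T.g.hom := hT.moduleCat_surjective_g
  have he : Function.Exact T.f.hom T.g.hom :=
    (ShortComplex.ShortExact.moduleCat_exact_iff_function_exact T).1 hT.exact
  have hi' : Function.Injective (T.f.hom.baseChange A) :=
    Module.Flat.lTensor_preserves_injective_linearMap (M := A) T.f.hom hi
  have hs' : Function.Surjective (T.g.hom.baseChange A) := LinearMap.lTensor_surjective A hs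
  have he' : Function.Exact (T.f.hom.baseChange A) (T.g.hom.baseChange A) :=
    Module.Flat.lTensor_exact A he
  let T' : ShortComplex (ModuleCat.{u} A) := ShortComplex.mk
    (ModuleCat.ofHom (T.f.hom.baseChange A)) (ModuleCat.ofHom (T.g.hom.baseChange A)) (by
      apply ModuleCat.hom_ext
      apply LinearMap.ext
      intro x
      exact (he' _).2 ⟨x, rfl⟩)
  refine ⟨T', { exact := ?_, mono_f := ?_, epi_g := ?_ }, rfl, rfl, rfl⟩
  · exact (ShortComplex.ShortExact.moduleCat_exact_iff_function_exact T').2 he'
  · exact (ModuleCat.mono_iff_injective _).2 hi'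
  · exact (ModuleCat.epi_iff_surjective _).2 hs'

theorem pd_bc [Module.Flat P A] (n : ℕ) : ∀ (M : ModuleCat.{u} P), HasProjectiveDimensionLE M n →
    HasProjectiveDimensionLE (ModuleCat.of A (A ⊗[P] M)) n := by
  induction n with
  | zero =>
    intro M h
    simp only [HasProjectiveDimensionLE, zero_add] at h ⊢
    rw [← projective_iff_hasProjectiveDimensionLT_one, ← IsProjective.iff_projective] at h ⊢
    have : Module.Projective P M := h
    exact (inferInstance : Module.Projective A (A ⊗[P] M))
  | succ n ih =>
    intro M h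
    obtain ⟨⟨Q, f⟩⟩ := (ModuleCat.enoughProjectives (R := P)).1 M
    let T := ShortComplex.mk (kernel.ι f) f (kernel.condition f)
    have T_exact : T.ShortExact := { exact := ShortComplex.exact_kernel f }
    obtain ⟨T', hT', e1, e2, e3⟩ := ses P A T T_exact
    have hQ : Projective (ModuleCat.of A (A ⊗[P] T.X₂)) := by
      rw [← IsProjective.iff_projective]
      have h1 : Module.Projective P T.X₂ := by
        rw [IsProjective.iff_projective]
        exact inferInstanceAs (Projective Q)
      exact (inferInstance : Module.Projective A (A ⊗[P] T.X₂))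
    have h2 := (T_exact.hasProjectiveDimensionLT_X₃_iff n (inferInstanceAs (Projective Q))).mp h
    have h3 := ih _ h2
    have h4 := (hT'.hasProjectiveDimensionLT_X₃_iff n (e2 ▸ hQ)).mpr (e1 ▸ h3)
    rw [e3] at h4
    exact h4

end

end BCG_

open BCG_ in
theorem bcg_proof : Stmt_BCG.{u} := by
  intro A B _ _ _ _ M N _ _ _ _ _ _ f hf e he
  have h1 := pd_bc A B e (ModuleCat.of A M) he
  have i : ModuleCat.of B (TensorProduct A B (ModuleCat.of A M)) ≅ ModuleCat.of B N :=
    hf.equiv.toModuleIso
  exact hasProjectiveDimensionLT_of_iso i (e + 1)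

end Pool.Agent.DBX.SRV
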