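import Pool.Agent.DBX.SRV.Stmts

/-!
# MP_2c751f_ag, area SRV, module BCH
-/

set_option autoImplicit false

universe u

namespace Pool.Agent.DBX.SRV

open MvPolynomial IsLocalRing

theorem bch_proof : Stmt_BCH.{u} := by
  intro A B _ _ _ _ θ q' _ hflat
  letI : Algebra A (Localization.AtPrime q') :=
    ((algebraMap B (Localization.AtPrime q')).comp θ).toAlgebra
  haveI : Module.Flat A (Localization.AtPrime q') := hflat
  haveI : IsNoetherianRing (Localization.AtPrime q') :=
    IsLocalization.isNoetherianRing q'.primeCompl _ inferInstance
  haveI hlo : (maximalIdeal (Localization.AtPrime q')).LiesOver (q'.comap θ) := by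
    constructor
    have h1 : (maximalIdeal (Localization.AtPrime q')).comap
        (algebraMap B (Localization.AtPrime q')) = q' :=
      Localization.AtPrime.comap_maximalIdeal
    have h2 : Ideal.under A (maximalIdeal (Localization.AtPrime q')) =
        ((maximalIdeal (Localization.AtPrime q')).comap
          (algebraMap B (Localization.AtPrime q'))).comap θ := rfl
    rw [h2, h1]
  have h := Ideal.height_eq_height_add_of_liesOver_of_hasGoingDown (q'.comap θ)
    (maximalIdeal (Localization.AtPrime q'))
  have h2 : (maximalIdeal (Localization.AtPrime q')).height = q'.height := by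
    have h3 := IsLocalization.height_under q'.primeCompl (maximalIdeal (Localization.AtPrime q'))
    rw [← h3]
    congr 1
    exact Localization.AtPrime.comap_maximalIdeal
  rw [← h2, h]
  exact le_self_add

end Pool.Agent.DBX.SRV
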