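import Pool.Agent.DBX.SRV.Stmts

/-! # MP_2c751f_ag, squad DBX, area SRV, module BCL -/

set_option autoImplicit false

namespace Pool.Agent.DBX.SRV

open MvPolynomial IsLocalRing RingTheory.Sequence CategoryTheory

universe u

namespace BCL_

open TensorProduct

/-- the map `A / I → B / I B` -/
noncomputable def qm (A B : Type u) [CommRing A] [CommRing B] [Algebra A B] (I : Ideal A) :
    (A ⧸ I) →ₗ[A] (B ⧸ I.map (algebraMap A B)) :=
  ((Ideal.qoutMapEquivTensorQout B (I := I)).symm.toLinearMap.restrictScalars A).comp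
    (TensorProduct.mk A B (A ⧸ I) 1)

lemma qm_bc (A B : Type u) [CommRing A] [CommRing B] [Algebra A B] (I : Ideal A) :
    IsBaseChange B (qm A B I) :=
  IsBaseChange.of_equiv (Ideal.qoutMapEquivTensorQout B (I := I)).symm (fun _ => rfl)

theorem core (hBCG : Stmt_BCG.{u}) (A B Aq Bq : Type u) [CommRing A] [CommRing B] [CommRing Aq]
    [CommRing Bq] [Algebra A B] [Algebra A Aq] [Algebra A Bq] [Algebra B Bq] [Algebra Aq Bq]
    [IsScalarTower A B Bq] [IsScalarTower A Aq Bq] [Module.Flat Aq Bq] (I : Ideal A)
    (M1 N : Type u) [AddCommGroup M1] [AddCommGroup N] [Module A M1] [Module Aq M1]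
    [IsScalarTower A Aq M1] [Module B N] [Module Bq N] [IsScalarTower B Bq N]
    (f1 : (A ⧸ I) →ₗ[A] M1) (hf1 : IsBaseChange Aq f1)
    (g : (B ⧸ I.map (algebraMap A B)) →ₗ[B] N) (hg : IsBaseChange Bq g) (e : ℕ)
    (h : PDLE Aq M1 e) : PDLE Bq N e := by
  let i1 : Module Aq N := Module.compHom N (algebraMap Aq Bq)
  let i2 : Module A N := Module.compHom N (algebraMap A B)
  have i3 : IsScalarTower Aq Bq N := ⟨fun a b n => by
    rw [Algebra.smul_def, mul_smul]; rfl⟩
  have i4 : IsScalarTower A B N := ⟨fun a b n => by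
    rw [Algebra.smul_def, mul_smul]; rfl⟩
  have i5 : IsScalarTower A Bq N := IsScalarTower.of_algebraMap_smul fun a n => by
    rw [IsScalarTower.algebraMap_apply A B Bq, algebraMap_smul]
    rfl
  have i6 : IsScalarTower A Aq N := IsScalarTower.of_algebraMap_smul fun a n => by
    rw [← algebraMap_smul Bq (algebraMap A Aq a) n, ← IsScalarTower.algebraMap_apply A Aq Bq,
      algebraMap_smul]
  have hc : IsBaseChange Bq ((g.restrictScalars A).comp (qm A B I)) := (qm_bc A B I).comp hg
  have hl := hf1.lift_comp ((g.restrictScalars A).comp (qm A B I))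
  rw [← hl] at hc
  exact hBCG Aq Bq M1 N _ (hf1.of_comp hc) e h

end BCL_

theorem bcl_proof (hBCG : Stmt_BCG.{u}) : Stmt_BCL.{u} := by
  intro A B _ _ θ q' _ hflat I e hPL
  let i0 : Algebra A B := θ.toAlgebra
  have hflat' : Module.Flat A (Localization.AtPrime q') := by
    have h1 : (algebraMap A (Localization.AtPrime q')).Flat := by
      rw [IsScalarTower.algebraMap_eq A B (Localization.AtPrime q')]
      exact hflat
    exact RingHom.flat_algebraMap_iff.mp h1
  let i1 : Algebra (Localization.AtPrime (q'.comap θ)) (Localization.AtPrime q') :=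
    (Localization.localRingHom (q'.comap θ) q' θ rfl).toAlgebra
  have i2 : IsScalarTower A (Localization.AtPrime (q'.comap θ)) (Localization.AtPrime q') :=
    IsScalarTower.of_algebraMap_eq fun x => by
      rw [RingHom.algebraMap_toAlgebra, Localization.localRingHom_to_map,
        IsScalarTower.algebraMap_apply A B (Localization.AtPrime q')]
      rfl
  have i3 : Module.Flat (Localization.AtPrime (q'.comap θ)) (Localization.AtPrime q') :=
    (Module.flat_iff_of_isLocalization (Localization.AtPrime (q'.comap θ))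
      (q'.comap θ).primeCompl (Localization.AtPrime q')).mpr hflat'
  exact BCL_.core hBCG A B (Localization.AtPrime (q'.comap θ)) (Localization.AtPrime q') I
    (LocalizedModule (q'.comap θ).primeCompl (A ⧸ I))
    (LocalizedModule q'.primeCompl (B ⧸ I.map (algebraMap A B)))
    (LocalizedModule.mkLinearMap (q'.comap θ).primeCompl (A ⧸ I))
    (LocalizedModule.isBaseChange _ _)
    (LocalizedModule.mkLinearMap q'.primeCompl (B ⧸ I.map (algebraMap A B)))
    (LocalizedModule.isBaseChange _ _) e hPL

end Pool.Agent.DBX.SRV
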