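import Pool.Agent.DBX.SRV.Stmts

set_option autoImplicit false

/-! # MP_2c751f_ag, squad DBX, area SRV: module BR1 (helper51) -/

namespace Pool.Agent.DBX.SRV

open MvPolynomial IsLocalRing RingTheory.Sequence CategoryTheory

universe u

namespace BR1_

variable {A : Type u} [CommRing A] (I : Ideal A) (P : Ideal (A ⧸ I)) [P.IsPrime]

theorem sub_eq : Algebra.algebraMapSubmonoid (A ⧸ I) (P.comap (Ideal.Quotient.mk I)).primeCompl =
    P.primeCompl := by
  ext x
  constructor
  · rintro ⟨a, ha, rfl⟩
    exact ha
  · intro hx
    obtain ⟨a, rfl⟩ := Ideal.Quotient.mk_surjective x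
    exact ⟨a, hx, rfl⟩

theorem isLoc : IsLocalizedModule (P.comap (Ideal.Quotient.mk I)).primeCompl
    (IsScalarTower.toAlgHom A (A ⧸ I) (Localization.AtPrime P)).toLinearMap := by
  rw [isLocalizedModule_iff_isLocalization, sub_eq]
  infer_instance

end BR1_

theorem br1_proof : Stmt_BR1.{u} := by
  intro A _ I P _ rs hrs hreg
  set q := P.comap (Ideal.Quotient.mk I) with hq
  let f : Localization.AtPrime q →+* Localization.AtPrime P :=
    Localization.localRingHom q P (Ideal.Quotient.mk I) rfl
  have hf : Function.Surjective f :=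
    RingHom.surjective_localRingHom_of_surjective (Ideal.Quotient.mk I)
      Ideal.Quotient.mk_surjective P
  haveI : IsLocalHom f := Localization.isLocalHom_localRingHom q P (Ideal.Quotient.mk I) rfl
  haveI := BR1_.isLoc I P
  let e : LocalizedModule q.primeCompl (A ⧸ I) ≃ₗ[A] Localization.AtPrime P :=
    IsLocalizedModule.iso q.primeCompl
      (IsScalarTower.toAlgHom A (A ⧸ I) (Localization.AtPrime P)).toLinearMap
  have he : ∀ (r : Localization.AtPrime q) (x : LocalizedModule q.primeCompl (A ⧸ I)),
      e (r • x) = f r * e x := by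
    intro r x
    obtain ⟨a, s, rfl⟩ := IsLocalization.exists_mk'_eq q.primeCompl r
    have hsu : IsUnit (algebraMap (A ⧸ I) (Localization.AtPrime P)
        (Ideal.Quotient.mk I (s : A))) :=
      IsLocalization.map_units (Localization.AtPrime P)
        (⟨Ideal.Quotient.mk I (s : A), s.2⟩ : P.primeCompl)
    have h1 : ∀ (c : A) (z : Localization.AtPrime P),
        c • z = algebraMap (A ⧸ I) (Localization.AtPrime P) (Ideal.Quotient.mk I c) * z := by
      intro c z
      rw [Algebra.smul_def]
      rfl
    apply hsu.mul_left_cancel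
    rw [← h1, ← map_smul, ← mul_assoc]
    have h2 : (s : A) • ((IsLocalization.mk' (Localization.AtPrime q) a s) • x) = a • x := by
      rw [← algebraMap_smul (Localization.AtPrime q) (s : A), smul_smul,
        IsLocalization.mk'_spec', algebraMap_smul]
    rw [h2, map_smul, h1]
    congr 1
    change _ = _ * Localization.localRingHom q P (Ideal.Quotient.mk I) rfl
      (IsLocalization.mk' (Localization.AtPrime q) a s)
    rw [Localization.localRingHom_mk']
    exact (IsLocalization.mk'_spec' (Localization.AtPrime P) (Ideal.Quotient.mk I a)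
      (⟨Ideal.Quotient.mk I (s : A), s.2⟩ : P.primeCompl)).symm
  have hlift : ∀ l : List (Localization.AtPrime P), ∃ l' : List (Localization.AtPrime q),
      l'.map f = l := by
    intro l
    induction l with
    | nil => exact ⟨[], rfl⟩
    | cons a l ih =>
      obtain ⟨l', hl'⟩ := ih
      obtain ⟨a', ha'⟩ := hf a
      exact ⟨a' :: l', by rw [List.map_cons, ha', hl']⟩
  obtain ⟨rs', hrs'⟩ := hlift rs
  refine ⟨rs', ?_, ?_, ?_⟩
  · rw [← hrs', List.length_map]
  · intro x hx
    have h1 : f x ∈ rs := by
      rw [← hrs']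
      exact List.mem_map_of_mem hx
    have h2 := hrs _ h1
    rw [mem_maximalIdeal, mem_nonunits_iff] at h2 ⊢
    exact fun h => h2 (h.map f)
  · have h3 : IsRegular (LocalizedModule q.primeCompl (A ⧸ I)) rs' ↔
        IsRegular (Localization.AtPrime P) (rs'.map f) := by
      refine AddEquiv.isRegular_congr (e := e.toAddEquiv) ?_
      rw [List.forall₂_map_right_iff, List.forall₂_same]
      intro r _ x
      exact he r x
    rw [h3, hrs']
    exact hreg

end Pool.Agent.DBX.SRV
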