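import Pool.Agent.DBX.SRV.Stmts

set_option autoImplicit false

/-! # DBX/SRV/DHM: the irrelevant ideal has height equal to the dimension -/

namespace Pool.Agent.DBX.SRV

open MvPolynomial IsLocalRing RingTheory.Sequence CategoryTheory

universe u

theorem dhm_proof (hDM3 : Stmt_DM3.{u}) (hDM4 : Stmt_DM4.{u}) (hMNH : Stmt_MNH.{u})
    (hIRR : Stmt_IRR.{u}) : Stmt_DHM.{u} := by
  intro k _ n I d hI hd P _ hP
  obtain ⟨h1, p0, hp0, h2⟩ := hDM3 k n I d hd
  obtain ⟨-, -, h3, h4⟩ := hIRR k n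
  have hle : ∀ p ∈ I.minimalPrimes, p ≤ P.comap (Ideal.Quotient.mk I) := by
    intro p hp
    rw [hP]
    exact h4 p (hMNH k n I hI p hp) (Ideal.IsPrime.ne_top hp.1.1)
  obtain ⟨h5, h6⟩ := hDM4 k n I P
  have h7 := h6 p0 hp0 (hle p0 hp0)
  have hfin : p0.height ≠ ⊤ := by
    intro h
    rw [h, add_top] at h2
    exact ENat.natCast_ne_top n h2
  have h8 := h5 p0.height (by
    intro p hp _
    have := h1 p hp
    rw [h2] at this
    exact (ENat.add_le_add_iff_left (ENat.natCast_ne_top d)).1 this)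
  rw [hP, h3, h2] at h7 h8
  exact le_antisymm ((ENat.add_le_add_iff_right hfin).1 h8) ((ENat.add_le_add_iff_right hfin).1 h7)

end Pool.Agent.DBX.SRV
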