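import Pool.Agent.DBX.SRV.Stmts

set_option autoImplicit false

/-! # MP_2c751f_ag, squad DBX, area SRV, module DM1: height plus dimension in `k[x]` -/

namespace Pool.Agent.DBX.SRV

open MvPolynomial IsLocalRing RingTheory.Sequence

noncomputable section

universe u

theorem dm1_proof (hTR1 : Stmt_TR1.{u}) (hTR2 : Stmt_TR2.{u}) (hDMB : Stmt_DMB.{u}) :
    Stmt_DM1.{u} := by
  intro k _ n q _
  obtain ⟨a, b, e, htr⟩ := hTR1 k n q
  let E : MvPolynomial (Fin a ⊕ Fin b) k ≃ₐ[k] Pol k n := renameEquiv k e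
  let q0 : Ideal (MvPolynomial (Fin a ⊕ Fin b) k) := q.comap (E.toRingEquiv)
  haveI : q0.IsPrime := Ideal.comap_isPrime _ _
  have hq : q = q0.map (E : MvPolynomial (Fin a ⊕ Fin b) k →+* Pol k n) :=
    (Ideal.map_comap_of_surjective (E : MvPolynomial (Fin a ⊕ Fin b) k →+* Pol k n)
      E.surjective q).symm
  let G := Ideal.quotientEquivAlg q0 q E hq
  have h1 : IsTranscendenceBasis k (fun j : Fin a =>
      Ideal.Quotient.mk q0 (X (Sum.inl j) : MvPolynomial (Fin a ⊕ Fin b) k)) := by
    have h2 := G.symm.isTranscendenceBasis htr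
    have h3 : (G.symm ∘ fun j : Fin a => Ideal.Quotient.mk q (X (e (Sum.inl j)) : Pol k n)) =
        fun j : Fin a =>
          Ideal.Quotient.mk q0 (X (Sum.inl j) : MvPolynomial (Fin a ⊕ Fin b) k) := by
      funext j
      rw [Function.comp_apply, AlgEquiv.symm_apply_eq]
      change _ = Ideal.Quotient.mk q (rename e (X (Sum.inl j)))
      rw [rename_X]
    rw [h3] at h2
    exact h2
  obtain ⟨h3, -⟩ := hTR2 k a b q0 h1
  have h4 : q0.height = q.height := RingEquiv.height_comap E.toRingEquiv q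
  have h5 := hDMB k (Pol k n ⧸ q) a _ htr
  rw [h5, ← h4, h3]
  have h6 : a + b = n := by
    have := Fintype.card_congr e
    simpa using this
  rw [← h6]
  push_cast
  exact add_comm _ _

end

end Pool.Agent.DBX.SRV
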