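import Pool.Agent.DBX.SRV.Stmts

set_option autoImplicit false

/-! # MP_2c751f_ag, squad DBX, area SRV, module DM2: heights of primes in `k[x]` -/

namespace Pool.Agent.DBX.SRV

open MvPolynomial IsLocalRing RingTheory.Sequence

noncomputable section

universe u

namespace DM2_

theorem arith (a b c : ℕ∞) (x y : WithBot ℕ∞) (n : ℕ)
    (h1 : (c : WithBot ℕ∞) + x = (n : WithBot ℕ∞)) (h2 : (b : WithBot ℕ∞) + y = (n : WithBot ℕ∞))
    (h3 : (a : WithBot ℕ∞) + x = y) : a + b = c := by
  induction x using WithBot.recBotCoe with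
  | bot =>
    rw [WithBot.add_bot] at h1
    exact absurd h1 (by exact WithBot.bot_ne_coe)
  | coe x =>
    subst h3
    have h1' : c + x = (n : ℕ∞) := by exact_mod_cast h1
    have h2' : b + (a + x) = (n : ℕ∞) := by exact_mod_cast h2
    have hx : x ≠ ⊤ := by
      rintro rfl
      rw [add_top] at h1'
      exact absurd h1'.symm (ENat.natCast_ne_top n)
    have hc : c ≠ ⊤ := by
      rintro rfl
      rw [top_add] at h1'
      exact absurd h1'.symm (ENat.natCast_ne_top n)
    have hb : b ≠ ⊤ := by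
      rintro rfl
      rw [top_add] at h2'
      exact absurd h2'.symm (ENat.natCast_ne_top n)
    have ha : a ≠ ⊤ := by
      rintro rfl
      rw [top_add, add_top] at h2'
      exact absurd h2'.symm (ENat.natCast_ne_top n)
    lift x to ℕ using hx
    lift c to ℕ using hc
    lift b to ℕ using hb
    lift a to ℕ using ha
    norm_cast at h1' h2' ⊢
    omega

end DM2_

theorem dm2_proof (hDM1 : Stmt_DM1.{u}) (hNND : Stmt_NND.{u}) : Stmt_DM2.{u} := by
  intro k _ n p q _ _ hpq
  haveI hpr : (q.map (Ideal.Quotient.mk p)).IsPrime :=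
    Ideal.map_isPrime_of_surjective Ideal.Quotient.mk_surjective (by rwa [Ideal.mk_ker])
  have h1 := hDM1 k n p
  have h2 := hDM1 k n q
  have h3 := hNND k (Pol k n ⧸ p) (q.map (Ideal.Quotient.mk p))
  rw [ringKrullDim_eq_of_ringEquiv (DoubleQuot.quotQuotEquivQuotOfLE hpq)] at h3
  exact DM2_.arith _ _ _ _ _ n h2 h1 h3

end

end Pool.Agent.DBX.SRV
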