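import Pool.Agent.DBX.SRV.Stmts

set_option autoImplicit false

namespace Pool.Agent.DBX.SRV

open MvPolynomial IsLocalRing RingTheory.Sequence CategoryTheory

universe u

namespace DM3_

theorem exists_minimal {A : Type u} [CommRing A] (I : Ideal A) (d : ℕ)
    (h : ringKrullDim (A ⧸ I) = (d : WithBot ℕ∞)) :
    ∃ p ∈ I.minimalPrimes, (d : WithBot ℕ∞) ≤ ringKrullDim (A ⧸ p) := by
  rw [ringKrullDim_quotient] at h
  obtain ⟨l, hl⟩ := Order.le_krullDim_iff.1 (le_of_eq h.symm)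
  have hI : I ≤ l.head.1.asIdeal := l.head.2
  have := l.head.1.isPrime
  obtain ⟨p, hp, hpl⟩ := Ideal.exists_minimalPrimes_le hI
  refine ⟨p, hp, ?_⟩
  rw [ringKrullDim_quotient]
  refine Order.le_krullDim_iff.2 ⟨⟨l.length, fun i => ⟨(l i).1, ?_⟩, fun i => ?_⟩, hl⟩
  · have h1 : l.head ≤ l i := LTSeries.head_le l i
    exact le_trans hpl h1
  · exact l.step i

theorem le_of_minimal {A : Type u} [CommRing A] (I : Ideal A) (p : Ideal A)
    (hp : I ≤ p) : ringKrullDim (A ⧸ p) ≤ ringKrullDim (A ⧸ I) :=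
  ringKrullDim_le_of_surjective (Ideal.Quotient.factor hp) (Ideal.Quotient.factor_surjective hp)

end DM3_

open DM3_ in
theorem dm3_proof (hDM1 : Stmt_DM1.{u}) : Stmt_DM3.{u} := by
  intro k _ n I d hd
  have key : ∀ p ∈ I.minimalPrimes, (n : ℕ∞) ≤ d + p.height := by
    intro p hp
    have := hp.1.1
    have h1 := hDM1 k n p
    have h2 := le_of_minimal I p hp.1.2
    rw [hd] at h2
    have h3 : ((n : ℕ∞) : WithBot ℕ∞) ≤ ((d + p.height : ℕ∞) : WithBot ℕ∞) := by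
      have h4 : ((n : ℕ∞) : WithBot ℕ∞) = (n : WithBot ℕ∞) := rfl
      rw [h4, ← h1, add_comm (d : ℕ∞)]
      push_cast
      exact add_le_add le_rfl h2
    exact WithBot.coe_le_coe.1 h3
  refine ⟨key, ?_⟩
  obtain ⟨p, hp, hpd⟩ := exists_minimal I d hd
  refine ⟨p, hp, le_antisymm (key p hp) ?_⟩
  have := hp.1.1
  have h1 := hDM1 k n p
  have h3 : ((d + p.height : ℕ∞) : WithBot ℕ∞) ≤ ((n : ℕ∞) : WithBot ℕ∞) := by
    have h4 : ((n : ℕ∞) : WithBot ℕ∞) = (n : WithBot ℕ∞) := rfl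
    rw [h4, ← h1, add_comm (d : ℕ∞)]
    push_cast
    exact add_le_add le_rfl hpd
  exact WithBot.coe_le_coe.1 h3

end Pool.Agent.DBX.SRV
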