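import Pool.Agent.DBX.SRV.Stmts

set_option autoImplicit false

/-! # MP_2c751f_ag, squad DBX, area SRV, module DM4: heights in `k[x]/I` -/

namespace Pool.Agent.DBX.SRV

open MvPolynomial IsLocalRing RingTheory.Sequence

noncomputable section

universe u v

namespace DM4_

theorem height_series {α : Type u} [Preorder α] (s : LTSeries α) :
    ∀ (i : ℕ) (h : i < s.length + 1), Order.height (s ⟨0, Nat.succ_pos _⟩) + (i : ℕ∞) ≤
      Order.height (s ⟨i, h⟩) := by
  intro i
  induction i with
  | zero => intro h; simp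
  | succ i ih =>
    intro h
    have h1 : i < s.length + 1 := by omega
    have h2 : s ⟨i, h1⟩ < s ⟨i + 1, h⟩ := s.strictMono (by simp)
    have h3 := Order.height_add_one_le h2
    calc Order.height (s ⟨0, Nat.succ_pos _⟩) + ((i + 1 : ℕ) : ℕ∞)
        = Order.height (s ⟨0, Nat.succ_pos _⟩) + (i : ℕ∞) + 1 := by push_cast; rw [add_assoc]
      _ ≤ Order.height (s ⟨i, h1⟩) + 1 := by gcongr; exact ih h1
      _ ≤ _ := h3

theorem strictMono_height {α : Type u} {β : Type v} [Preorder α] [Preorder β] (f : α → β)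
    (hf : StrictMono f) (x : α) (c : ℕ∞) (hc : ∀ y ≤ x, c ≤ Order.height (f y)) (n : ℕ)
    (hn : Order.height x = n) : Order.height x + c ≤ Order.height (f x) := by
  obtain ⟨s, hs, hl⟩ := Order.exists_series_of_height_eq_coe x hn
  have h1 := height_series (s.map f hf) s.length (by
    rw [LTSeries.map_length]; omega)
  have h2 : (s.map f hf) ⟨s.length, by rw [LTSeries.map_length]; omega⟩ = f x := by
    rw [← hs]
    rfl
  have h3 : (s.map f hf) ⟨0, Nat.succ_pos _⟩ = f s.head := rfl
  rw [h2, h3] at h1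
  have h4 : s.head ≤ x := by
    rw [← hs]
    exact s.head_le_last
  rw [hn, add_comm]
  refine le_trans ?_ h1
  rw [hl]
  gcongr
  exact hc _ h4

theorem comap_strictMono {A B : Type u} [CommRing A] [CommRing B] (f : A →+* B)
    (hf : Function.Surjective f) :
    StrictMono (fun P : PrimeSpectrum B => PrimeSpectrum.comap f P) := by
  intro P Q hPQ
  have h1 : P.asIdeal < Q.asIdeal := hPQ
  change P.asIdeal.comap f < Q.asIdeal.comap f
  refine lt_of_le_of_ne (Ideal.comap_mono h1.le) ?_
  intro h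
  exact h1.ne (Ideal.comap_injective_of_surjective f hf h)

theorem height_eq {A : Type u} [CommRing A] (P : Ideal A) [hP : P.IsPrime] :
    P.height = Order.height (⟨P, hP⟩ : PrimeSpectrum A) :=
  PrimeSpectrum.height_eq_orderHeight ⟨P, hP⟩

end DM4_

theorem dm4_proof (hDM2 : Stmt_DM2.{u}) : Stmt_DM4.{u} := by
  intro k _ n I P _
  have hP0 : (P.comap (Ideal.Quotient.mk I)).IsPrime := inferInstance
  constructor
  · intro c hc
    have hfin : P.height ≠ ⊤ := Ideal.height_ne_top (Ideal.IsPrime.ne_top ‹_›)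
    obtain ⟨m, hm⟩ := ENat.ne_top_iff_exists.mp hfin
    rw [DM4_.height_eq P] at hm
    rw [DM4_.height_eq P, DM4_.height_eq (P.comap (Ideal.Quotient.mk I))]
    refine DM4_.strictMono_height (fun P => PrimeSpectrum.comap (Ideal.Quotient.mk I) P)
      (DM4_.comap_strictMono _ Ideal.Quotient.mk_surjective) ⟨P, ‹_›⟩ c ?_ m hm.symm
    intro Q hQ
    have h1 : I ≤ Q.asIdeal.comap (Ideal.Quotient.mk I) := by
      intro x hx
      rw [Ideal.mem_comap, Ideal.Quotient.eq_zero_iff_mem.mpr hx]
      exact Ideal.zero_mem _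
    obtain ⟨p, hp, hpQ⟩ := Ideal.exists_minimalPrimes_le h1
    haveI : p.IsPrime := hp.1.1
    refine le_trans (hc p hp (hpQ.trans (Ideal.comap_mono hQ))) ?_
    rw [DM4_.height_eq p]
    exact Order.height_mono (show (⟨p, _⟩ : PrimeSpectrum (Pol k n)) ≤
      PrimeSpectrum.comap (Ideal.Quotient.mk I) Q from hpQ)
  · intro p hp hpq
    haveI : p.IsPrime := hp.1.1
    have hIp : I ≤ p := hp.1.2
    rw [← hDM2 k n p _ hpq]
    gcongr
    let g : Pol k n ⧸ I →+* Pol k n ⧸ p := Ideal.Quotient.factor hIp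
    have hg : Function.Surjective g := Ideal.Quotient.factor_surjective hIp
    haveI hpr : ((P.comap (Ideal.Quotient.mk I)).map (Ideal.Quotient.mk p)).IsPrime :=
      Ideal.map_isPrime_of_surjective Ideal.Quotient.mk_surjective (by rwa [Ideal.mk_ker])
    have h1 : ((P.comap (Ideal.Quotient.mk I)).map (Ideal.Quotient.mk p)).comap g = P := by
      have h2 : g.comp (Ideal.Quotient.mk I) = Ideal.Quotient.mk p := Ideal.Quotient.factor_comp_mk hIp
      refine Ideal.comap_injective_of_surjective (Ideal.Quotient.mk I)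
        Ideal.Quotient.mk_surjective ?_
      rw [Ideal.comap_comap, h2, Ideal.comap_map_of_surjective _ Ideal.Quotient.mk_surjective]
      rw [← RingHom.ker_eq_comap_bot, Ideal.mk_ker, sup_eq_left]
      exact hpq
    rw [DM4_.height_eq P, DM4_.height_eq ((P.comap (Ideal.Quotient.mk I)).map
      (Ideal.Quotient.mk p))]
    have h3 := Order.height_le_height_apply_of_strictMono
      (fun P : PrimeSpectrum (Pol k n ⧸ p) => PrimeSpectrum.comap g P)
      (DM4_.comap_strictMono g hg) ⟨_, hpr⟩
    refine h3.trans (le_of_eq ?_)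
    have h4 : PrimeSpectrum.comap g ⟨_, hpr⟩ = (⟨P, ‹_›⟩ : PrimeSpectrum (Pol k n ⧸ I)) :=
      PrimeSpectrum.ext h1
    exact congrArg Order.height h4

end

end Pool.Agent.DBX.SRV
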