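import Pool.Agent.DBX.SRV.Stmts

set_option autoImplicit false

namespace Pool.Agent.DBX.SRV

open MvPolynomial

noncomputable section

universe u

namespace DMB_

section integral

variable {A B : Type*} [CommRing A] [CommRing B] [IsDomain B] [Algebra A B]

theorem ringKrullDim_eq_of_integral [Algebra.IsIntegral A B]
    (hinj : Function.Injective (algebraMap A B)) : ringKrullDim A = ringKrullDim B := by
  apply le_antisymm
  · rw [ringKrullDim, Order.krullDim]
    apply iSup_le
    intro l
    obtain ⟨P, hP, hPl⟩ := Ideal.exists_ideal_over_prime_of_isIntegral_of_isDomain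
      (R := A) (S := B) l.head.asIdeal (by
        rw [(RingHom.injective_iff_ker_eq_bot _).mp hinj]; exact bot_le)
    have : P.LiesOver (RelSeries.head l).asIdeal := ⟨hPl.symm⟩
    obtain ⟨L, hL, -, -⟩ := Ideal.exists_ltSeries_of_hasGoingUp (R := A) (S := B) l P
    rw [← hL]
    exact le_iSup (fun L : LTSeries (PrimeSpectrum B) => (L.length : WithBot ℕ∞)) L
  · apply Order.krullDim_le_of_strictMono (fun P => PrimeSpectrum.comap (algebraMap A B) P)
    intro P Q hPQ
    exact Ideal.IsIntegral.comap_lt_comap (R := A) (I := P.asIdeal) (J := Q.asIdeal) hPQ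

end integral

end DMB_

theorem dmb_proof : Stmt_DMB.{u} := by
  intro k _ A _ _ _ _ a x hx
  obtain ⟨t, g, hg, hint⟩ := exists_integral_inj_algHom_of_fg k A
  let _ : Algebra (MvPolynomial (Fin t) k) A := g.toRingHom.toAlgebra
  have : Algebra.IsIntegral (MvPolynomial (Fin t) k) A := ⟨hint⟩
  have : IsScalarTower k (MvPolynomial (Fin t) k) A := IsScalarTower.of_algebraMap_eq
    (fun x => (g.commutes x).symm)
  have h1 : ringKrullDim (MvPolynomial (Fin t) k) = ringKrullDim A :=
    DMB_.ringKrullDim_eq_of_integral hg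
  rw [MvPolynomial.ringKrullDim_of_isNoetherianRing, ringKrullDim_eq_zero_of_field, zero_add,
    Nat.card_eq_fintype_card, Fintype.card_fin] at h1
  have : FaithfulSMul (MvPolynomial (Fin t) k) A :=
    (faithfulSMul_iff_algebraMap_injective _ _).mpr hg
  have h2 := lift_trdeg_add_eq k (MvPolynomial (Fin t) k) A
  have h3 : Algebra.trdeg (MvPolynomial (Fin t) k) A = 0 := by
    rw [trdeg_eq_zero_iff]
    infer_instance
  have h4 := hx.lift_cardinalMk_eq_trdeg
  rw [h3, MvPolynomial.trdeg_of_isDomain] at h2
  simp at h2 h4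
  rw [← h2] at h4
  have h5 : a = t := by exact_mod_cast h4
  rw [← h1, h5]

end

end Pool.Agent.DBX.SRV
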