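import Pool.Agent.DBX.SRV.Stmts

set_option autoImplicit false

/-! # MP_2c751f_ag, squad DBX, area SRV: module DMS -/

namespace Pool.Agent.DBX.SRV

open MvPolynomial IsLocalRing RingTheory.Sequence CategoryTheory Pool.Agent.DBX

universe u

namespace DMS_

/-- Homogeneous ideals stay homogeneous under extension of the coefficients. -/
theorem hom_map {k k' : Type u} [Field k] [Field k'] (f : k →+* k') {n : ℕ}
    (I : Ideal (MvPolynomial (Fin n) k)) (hI : HomIdeal I) :
    HomIdeal (I.map (MvPolynomial.map f : MvPolynomial (Fin n) k →+* MvPolynomial (Fin n) k')) := by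
  intro w hw
  induction hw using Submodule.span_induction with
  | mem x hx =>
    obtain ⟨a, ha, rfl⟩ := hx
    intro d
    have h1 : homogeneousComponent d (MvPolynomial.map f a) =
        MvPolynomial.map f (homogeneousComponent d a) := by
      classical
      ext e
      rw [coeff_homogeneousComponent, coeff_map, coeff_map, coeff_homogeneousComponent]
      split_ifs
      · rfl
      · rw [map_zero]
    change homogeneousComponent d (MvPolynomial.map f a) ∈ _
    rw [h1]
    exact Ideal.mem_map_of_mem _ (hI a ha d)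
  | zero => intro d; rw [map_zero]; exact Ideal.zero_mem _
  | add x y _ _ hx hy => intro d; rw [map_add]; exact Ideal.add_mem _ (hx d) (hy d)
  | smul b x _ hx =>
    intro d
    rw [smul_eq_mul]
    have h1 : b * x = ∑ i ∈ Finset.range (b.totalDegree + 1),
        ∑ j ∈ Finset.range (x.totalDegree + 1),
          homogeneousComponent i b * homogeneousComponent j x := by
      conv_lhs => rw [← sum_homogeneousComponent b, ← sum_homogeneousComponent x,
        Finset.sum_mul_sum]
    rw [h1, map_sum]
    refine Ideal.sum_mem _ (fun i _ => ?_)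
    rw [map_sum]
    refine Ideal.sum_mem _ (fun j _ => ?_)
    have h2 : (homogeneousComponent i b * homogeneousComponent j x).IsHomogeneous (i + j) :=
      (homogeneousComponent_isHomogeneous i b).mul (homogeneousComponent_isHomogeneous j x)
    rw [homogeneousComponent_of_mem h2]
    split_ifs
    · exact Ideal.mul_mem_left _ _ (hx j)
    · exact Ideal.zero_mem _

theorem lgen_hom (k : Type u) [Field k] (n : ℕ) : (lgen k n).IsHomogeneous 1 := by
  unfold lgen
  refine (isHomogeneous_X _ _).sub ?_
  refine IsHomogeneous.sum _ _ _ (fun i _ => ?_)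
  exact isHomogeneous_C_mul_X _ _

end DMS_

theorem dms_proof (hDS1 : Stmt_DS1.{u}) (hDS2 : Stmt_DS2.{u}) (hKSC : Stmt_KSC.{u}) :
    Stmt_DMS.{u} := by
  intro k _ _ n D c hD hDM
  unfold Dat.DM at hDM ⊢
  have h1 := hDS1 k n D.I
  have hhom : HomIdeal (D.I.map (bcP k n)) := DMS_.hom_map _ D.I hD.I_hom
  have h2 := hDS2 (Kx k n) (n + 1) (D.I.map (bcP k n)) hhom (lgen k n) (DMS_.lgen_hom k n)
  obtain ⟨hs, hk⟩ := hKSC k n
  have hs' : Function.Surjective (secP k n : Pol (Kx k n) (n + 1) →+* Pol (Kx k n) n) := hs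
  set J := D.I.map (bcP k n) with hJ
  set F : Pol (Kx k n) (n + 1) →+* (Pol (Kx k n) n ⧸ (J.map
      (secP k n : Pol (Kx k n) (n + 1) →+* Pol (Kx k n) n))) :=
    (Ideal.Quotient.mk _).comp (secP k n : Pol (Kx k n) (n + 1) →+* Pol (Kx k n) n) with hF
  have hFs : Function.Surjective F := Ideal.Quotient.mk_surjective.comp hs'
  have hFk : RingHom.ker F = J ⊔ Ideal.span {lgen k n} := by
    rw [hF, ← RingHom.comap_ker, Ideal.mk_ker, Ideal.comap_map_of_surjective _ hs',
      ← RingHom.ker_eq_comap_bot, hk]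
  have h3 : ringKrullDim (Pol (Kx k n) (n + 1) ⧸ (J ⊔ Ideal.span {lgen k n})) =
      ringKrullDim (Pol (Kx k n) n ⧸ D.sec.I) := by
    rw [← hFk]
    exact ringKrullDim_eq_of_ringEquiv (RingHom.quotientKerEquivOfSurjective hFs)
  rw [h3] at h2
  have h4 : ((n + 1 : ℕ) : WithBot ℕ∞) ≤
      ringKrullDim (Pol (Kx k n) n ⧸ D.sec.I) + 1 + (c : WithBot ℕ∞) := by
    refine le_trans hDM ?_
    gcongr
    exact le_trans h1 h2
  generalize ringKrullDim (Pol (Kx k n) n ⧸ D.sec.I) = e at h4
  induction e using WithBot.recBotCoe with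
  | bot =>
    rw [WithBot.bot_add, WithBot.bot_add] at h4
    exact absurd h4 (by simp)
  | coe e =>
    induction e using ENat.recTopCoe with
    | top =>
      have h5 : (((⊤ : ℕ∞) : WithBot ℕ∞) + (c : WithBot ℕ∞)) = ((⊤ : ℕ∞) : WithBot ℕ∞) := rfl
      rw [h5]
      exact WithBot.coe_le_coe.mpr le_top
    | coe e =>
      norm_cast at h4 ⊢
      omega

end Pool.Agent.DBX.SRV
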