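import Pool.Agent.DBX.SRV.Stmts

set_option autoImplicit false

/-! # MP_2c751f_ag, squad DBX, area SRV: dimension and extension of the field -/

namespace Pool.Agent.DBX.SRV

open MvPolynomial IsLocalRing RingTheory.Sequence CategoryTheory

universe u

namespace DS1_

theorem le_of_ff (R T : Type*) [CommRing R] [CommRing T] [Algebra R T]
    [Module.FaithfullyFlat R T] : ringKrullDim R ≤ ringKrullDim T := by
  refine iSup_le fun l => ?_
  obtain ⟨Q, hQ⟩ := PrimeSpectrum.comap_surjective_of_faithfullyFlat (A := R) (B := T) l.last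
  have : Q.asIdeal.LiesOver l.last.asIdeal := ⟨by rw [← hQ]; rfl⟩
  obtain ⟨L, hL, -, -⟩ := Ideal.exists_ltSeries_of_hasGoingDown l Q.asIdeal
  rw [← hL]
  exact le_iSup (fun L : LTSeries (PrimeSpectrum T) => ((L.length : ℕ∞) : WithBot ℕ∞)) L

attribute [local instance] MvPolynomial.algebraMvPolynomial

theorem ff (k K : Type*) [Field k] [Field K] [Algebra k K] (σ : Type*) :
    Module.FaithfullyFlat (MvPolynomial σ k) (MvPolynomial σ K) :=
  Module.FaithfullyFlat.of_linearEquiv (R := MvPolynomial σ k)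
    (M := TensorProduct k (MvPolynomial σ k) K)
    (Algebra.IsPushout.equiv k (MvPolynomial σ k) K (MvPolynomial σ K)).symm.toLinearEquiv

theorem main (k K : Type*) [Field k] [Field K] [Algebra k K] (σ : Type*)
    (I : Ideal (MvPolynomial σ k)) :
    ringKrullDim (MvPolynomial σ k ⧸ I) ≤
      ringKrullDim (MvPolynomial σ K ⧸ I.map (MvPolynomial.map (algebraMap k K))) := by
  have := ff k K σ
  refine (le_of_ff (MvPolynomial σ k ⧸ I)
    (TensorProduct (MvPolynomial σ k) (MvPolynomial σ k ⧸ I) (MvPolynomial σ K))).trans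
    (le_of_eq (ringKrullDim_eq_of_ringEquiv
      (Algebra.TensorProduct.quotIdealMapEquivQuotTensor (MvPolynomial σ K) I).toRingEquiv).symm)

end DS1_

theorem ds1_proof : Stmt_DS1.{u} := fun k _ n I => DS1_.main k (Kx k n) (Fin (n + 1)) I

end Pool.Agent.DBX.SRV
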