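import Pool.Agent.DBX.SRV.Stmts
import Pool.Agent.DBX.Cd

set_option autoImplicit false

/-! # MP_2c751f_ag, squad DBX, area SRV, module EL1: finite generation of `H^j(Z₃)` -/

namespace Pool.Agent.DBX.SRV

open MvPolynomial IsLocalRing RingTheory.Sequence CategoryTheory Pool.Agent.DBX

universe u v

namespace EL1_

section
variable {A : Type*} [CommRing A] {W : Type*} [AddCommGroup W] [Module A W] {p : ℕ}

theorem loc_mono (g : Fin p → A) (N : Submodule A W) {σ τ : Finset (Fin p)} (h : σ ⊆ τ) :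
    loc g N σ ≤ loc g N τ := by
  rintro x ⟨e, he⟩
  refine ⟨e, ?_⟩
  have h1 : (∏ a ∈ τ, g a) = (∏ a ∈ τ \ σ, g a) * ∏ a ∈ σ, g a :=
    (Finset.prod_sdiff h).symm
  rw [h1, mul_pow, mul_smul]
  exact N.smul_mem _ he

theorem cd_mem_loc (g : Fin p → A) (N : Submodule A W) (x : Finset (Fin p) → W)
    (h : ∀ σ, x σ ∈ loc g N σ) (σ : Finset (Fin p)) : cd x σ ∈ loc g N σ := by
  rw [cd_apply]
  refine Submodule.sum_mem _ fun v _ => ?_
  exact Submodule.smul_of_tower_mem _ _ (loc_mono g N (Finset.erase_subset v σ) (h _))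

theorem cd_mem_Cc (g : Fin p → A) (N : Submodule A W) (j : ℕ) (x : Finset (Fin p) → W)
    (h : x ∈ Cc g N j) : cd x ∈ Cc g N (j + 1) :=
  ⟨cd_mem_loc g N x h.1, fun σ hσ => by
    have := cd_card h.2 hσ
    exact this⟩

end

section
variable {A : Type u} [CommRing A] {W₁ W₂ W₃ : Type u} [AddCommGroup W₁]
  [AddCommGroup W₂] [AddCommGroup W₃] [Module A W₁] [Module A W₂] [Module A W₃] {p : ℕ}

theorem cd_comp {W W' : Type u} [AddCommGroup W] [AddCommGroup W'] [Module A W] [Module A W']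
    (f : W →ₗ[A] W') (x : Finset (Fin p) → W) :
    cd (f.compLeft (Finset (Fin p)) x) = f.compLeft (Finset (Fin p)) (cd x) :=
  cd_map f.toAddMonoidHom x

theorem comp_mem_Cc {W W' : Type u} [AddCommGroup W] [AddCommGroup W'] [Module A W]
    [Module A W'] (f : W →ₗ[A] W') (g : Fin p → A) (Z : Submodule A W) (Z' : Submodule A W')
    (h : ∀ σ : Finset (Fin p), σ.Nonempty → ∀ w ∈ loc g Z σ, f w ∈ loc g Z' σ) (j : ℕ)
    (x : Finset (Fin p) → W) (hx : x ∈ Cc g Z j) (h0 : x ∅ = 0) :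
    f.compLeft (Finset (Fin p)) x ∈ Cc g Z' j := by
  refine ⟨fun σ => ?_, fun σ hσ => ?_⟩
  · rcases σ.eq_empty_or_nonempty with rfl | hne
    · show f (x ∅) ∈ _
      rw [h0, map_zero]
      exact Submodule.zero_mem _
    · exact h σ hne _ (hx.1 σ)
  · show f (x σ) = 0
    rw [hx.2 σ hσ, map_zero]

end

end EL1_

open EL1_ in
theorem el1_proof : Stmt_EL1.{u} := by
  classical
  intro A _ _ W₁ W₂ W₃ _ _ _ _ _ _ p g φ ψ Z₁ Z₂ Z₃ hex j hj h2 h1
  obtain ⟨G₂, hG₂, h2⟩ := h2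
  obtain ⟨G₁, hG₁, h1⟩ := h1
  set Φ : (Finset (Fin p) → W₁) →ₗ[A] (Finset (Fin p) → W₂) := φ.compLeft (Finset (Fin p)) with hΦ
  set Ψ : (Finset (Fin p) → W₂) →ₗ[A] (Finset (Fin p) → W₃) := ψ.compLeft (Finset (Fin p)) with hΨ
  have hΦap : ∀ x σ, Φ x σ = φ (x σ) := fun _ _ => rfl
  have hΨap : ∀ x σ, Ψ x σ = ψ (x σ) := fun _ _ => rfl
  have hne : ∀ {i : ℕ}, i ≠ 0 → ∀ {W : Type u} [AddCommGroup W] [Module A W]
      (Z : Submodule A W) (x : Finset (Fin p) → W), x ∈ Cc g Z i → x ∅ = 0 := by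
    intro i hi W _ _ Z x hx
    exact hx.2 ∅ (by rw [Finset.card_empty]; exact hi.symm)
  have hΨΦ : ∀ x : Finset (Fin p) → W₁, (∀ σ, x σ ∈ loc g Z₁ σ) → x ∅ = 0 → Ψ (Φ x) = 0 := by
    intro x hx h0
    funext σ
    rw [hΨap, hΦap]
    rcases σ.eq_empty_or_nonempty with rfl | hσ
    · rw [h0, map_zero, map_zero]; rfl
    · exact (hex σ hσ).comp _ (hx σ)
  -- the submodule `T`
  let T : Submodule A (Finset (Fin p) → W₁) :=
    (Cc g Z₁ (j + 1) ⊓ LinearMap.ker (cdL A (Fin p) W₁)) ⊓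
      Submodule.comap Φ (Submodule.map (cdL A (Fin p) W₂) (Cc g Z₂ j))
  have hTmem : ∀ u, u ∈ T ↔ (u ∈ Cc g Z₁ (j + 1) ∧ cd u = 0) ∧ ∃ y ∈ Cc g Z₂ j, cd y = Φ u := by
    intro u
    exact Iff.rfl
  have hT : ∀ u, ∃ y : Finset (Fin p) → W₂, u ∈ T → (y ∈ Cc g Z₂ j ∧ cd y = Φ u) := by
    intro u
    by_cases h : u ∈ T
    · obtain ⟨-, y, hy, hy'⟩ := (hTmem u).mp h
      exact ⟨y, fun _ => ⟨hy, hy'⟩⟩
    · exact ⟨0, fun h' => absurd h' h⟩
  choose yy hyy using hT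
  have hfg : (T ⊓ Submodule.span A (G₁ : Set (Finset (Fin p) → W₁))).FG := by
    have h3 : IsNoetherian A (Submodule.span A (G₁ : Set (Finset (Fin p) → W₁))) :=
      isNoetherian_span_of_finite A (Finset.finite_toSet G₁)
    exact isNoetherian_submodule.mp h3 _ inf_le_right
  obtain ⟨F, hF⟩ := hfg
  have hFT : ∀ u ∈ F, u ∈ T := by
    intro u hu
    have h3 : u ∈ T ⊓ Submodule.span A (G₁ : Set (Finset (Fin p) → W₁)) := by
      rw [← hF]
      exact Submodule.subset_span hu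
    exact h3.1
  have hcdT : ∀ u ∈ F, Ψ (Φ u) = 0 := by
    intro u hu
    have h3 := ((hTmem u).mp (hFT u hu)).1.1
    exact hΨΦ u h3.1 (hne (by omega) Z₁ u h3)
  refine ⟨F.image (fun u => Ψ (yy u)) ∪ G₂.image Ψ, ?_, ?_⟩
  · intro z hz
    rw [Finset.mem_union, Finset.mem_image, Finset.mem_image] at hz
    rcases hz with ⟨u, hu, rfl⟩ | ⟨z, hz, rfl⟩
    · obtain ⟨h3, h4⟩ := hyy u (hFT u hu)
      refine ⟨comp_mem_Cc ψ g Z₂ Z₃ (fun σ hσ => (hex σ hσ).map₂) j _ h3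
        (hne (by omega) Z₂ _ h3), fun σ => ?_⟩
      have h5 : cd (Ψ (yy u)) = Ψ (cd (yy u)) := cd_comp ψ _
      rw [h5, h4, hcdT u hu]
      rfl
    · obtain ⟨h3, h4⟩ := hG₂ z hz
      refine ⟨comp_mem_Cc ψ g Z₂ Z₃ (fun σ hσ => (hex σ hσ).map₂) j _ h3
        (hne (by omega) Z₂ _ h3), fun σ => ?_⟩
      have h5 : cd (Ψ z) = Ψ (cd z) := cd_comp ψ _
      rw [h5, hΨap, h4 σ, map_zero]
  · intro x hx
    obtain ⟨hx1, hx2⟩ := hx
    have hx0 : x ∅ = 0 := hne (by omega) Z₃ x hx1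
    -- lift `x`
    have hy : ∀ σ : Finset (Fin p), ∃ w, w ∈ loc g Z₂ σ ∧ ψ w = x σ ∧ (σ.card ≠ j → w = 0) := by
      intro σ
      by_cases hσ : σ.card = j
      · have hσne : σ.Nonempty := Finset.card_pos.mp (by omega)
        obtain ⟨w, hw, hw'⟩ := (hex σ hσne).surj (x σ) (hx1.1 σ)
        exact ⟨w, hw, hw', fun h => absurd hσ h⟩
      · exact ⟨0, Submodule.zero_mem _, by rw [map_zero, hx1.2 σ hσ], fun _ => rfl⟩
    choose y hy1 hy2 hy3 using hy
    have hyC : y ∈ Cc g Z₂ j := ⟨hy1, hy3⟩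
    have hΨy : Ψ y = x := funext hy2
    have hcy : cd y ∈ Cc g Z₂ (j + 1) := cd_mem_Cc g Z₂ j y hyC
    have hψcy : ∀ σ, ψ (cd y σ) = 0 := by
      intro σ
      have h5 : cd (Ψ y) = Ψ (cd y) := cd_comp ψ _
      have h6 := congrFun h5 σ
      rw [hΨy, hx2 σ, hΨap] at h6
      exact h6.symm
    have hu : ∀ σ : Finset (Fin p), ∃ w, w ∈ loc g Z₁ σ ∧ φ w = cd y σ ∧
        (σ.card ≠ j + 1 → w = 0) := by
      intro σ
      by_cases hσ : σ.card = j + 1
      · have hσne : σ.Nonempty := Finset.card_pos.mp (by omega)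
        obtain ⟨w, hw, hw'⟩ := (hex σ hσne).ex (cd y σ) (hcy.1 σ) (hψcy σ)
        exact ⟨w, hw, hw', fun h => absurd hσ h⟩
      · exact ⟨0, Submodule.zero_mem _, by rw [map_zero, hcy.2 σ hσ], fun _ => rfl⟩
    choose u hu1 hu2 hu3 using hu
    have huC : u ∈ Cc g Z₁ (j + 1) := ⟨hu1, hu3⟩
    have hΦu : Φ u = cd y := funext hu2
    have hcu : ∀ σ, cd u σ = 0 := by
      intro σ
      rcases σ.eq_empty_or_nonempty with rfl | hσ
      · exact cd_empty _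
      · apply (hex σ hσ).inj _ (cd_mem_loc g Z₁ u hu1 σ)
        have h5 : cd (Φ u) = Φ (cd u) := cd_comp φ _
        rw [hΦu, cd_cd] at h5
        exact (congrFun h5 σ).symm
    have huT : u ∈ T := (hTmem u).mpr ⟨⟨huC, funext hcu⟩, y, hyC, hΦu.symm⟩
    obtain ⟨v, hv0, hv1, hv2, hv3⟩ := h1 u ⟨huC, hcu⟩
    have hv2' : ∀ σ, σ.card ≠ j → v σ = 0 := fun σ hσ => hv2 σ (by omega)
    have hvC : v ∈ Cc g Z₁ j := ⟨hv1, hv2'⟩
    have hΦvC : Φ v ∈ Cc g Z₂ j := comp_mem_Cc φ g Z₁ Z₂ (fun σ hσ => (hex σ hσ).map₁) j v hvC hv0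
    have hcdΦv : cd (Φ v) = Φ (cd v) := cd_comp φ _
    have hcvT : cd v ∈ T :=
      (hTmem _).mpr ⟨⟨cd_mem_Cc g Z₁ j v hvC, cd_cd v⟩, Φ v, hΦvC, hcdΦv⟩
    have hsT : u - cd v ∈ T ⊓ Submodule.span A (G₁ : Set (Finset (Fin p) → W₁)) :=
      ⟨T.sub_mem huT hcvT, hv3⟩
    rw [← hF] at hsT
    have key : ∀ s ∈ Submodule.span A (F : Set (Finset (Fin p) → W₁)), ∃ y' ∈ Cc g Z₂ j,
        cd y' = Φ s ∧ Ψ y' ∈ Submodule.span A ((F.image (fun u => Ψ (yy u)) ∪ G₂.image Ψ :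
          Finset (Finset (Fin p) → W₃)) : Set (Finset (Fin p) → W₃)) := by
      intro s hs
      induction hs using Submodule.span_induction with
      | mem s hs =>
        obtain ⟨h3, h4⟩ := hyy s (hFT s hs)
        refine ⟨yy s, h3, h4, Submodule.subset_span ?_⟩
        exact Finset.mem_coe.mpr (Finset.mem_union_left _ (Finset.mem_image_of_mem _ hs))
      | zero => exact ⟨0, Submodule.zero_mem _, by rw [cd_zero, map_zero],
          by rw [map_zero]; exact Submodule.zero_mem _⟩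
      | add s t _ _ hs ht =>
        obtain ⟨a, ha1, ha2, ha3⟩ := hs
        obtain ⟨b, hb1, hb2, hb3⟩ := ht
        exact ⟨a + b, Submodule.add_mem _ ha1 hb1, by rw [cd_add, map_add, ha2, hb2],
          by rw [map_add]; exact Submodule.add_mem _ ha3 hb3⟩
      | smul c s _ hs =>
        obtain ⟨a, ha1, ha2, ha3⟩ := hs
        exact ⟨c • a, Submodule.smul_mem _ _ ha1, by rw [cd_smul, map_smul, ha2],
          by rw [map_smul]; exact Submodule.smul_mem _ _ ha3⟩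
    obtain ⟨y', hy'C, hy'1, hy'2⟩ := key _ hsT
    have hzC : y - Φ v - y' ∈ Cc g Z₂ j :=
      Submodule.sub_mem _ (Submodule.sub_mem _ hyC hΦvC) hy'C
    have hz : IsZ g Z₂ j (y - Φ v - y') := by
      refine ⟨hzC, fun σ => ?_⟩
      rw [cd_sub, cd_sub, hcdΦv, hy'1, map_sub, hΦu, sub_self]
      rfl
    obtain ⟨w, hw0, hw1, hw2, hw3⟩ := h2 _ hz
    refine ⟨Ψ w, ?_, ?_, ?_, ?_⟩
    · rw [hΨap, hw0, map_zero]
    · intro σ
      rw [hΨap]
      rcases σ.eq_empty_or_nonempty with rfl | hσ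
      · rw [hw0, map_zero]
        exact Submodule.zero_mem _
      · exact (hex σ hσ).map₂ _ (hw1 σ)
    · intro σ hσ
      rw [hΨap, hw2 σ hσ, map_zero]
    · have h3 : Ψ (y - Φ v - y' - cd w) ∈ Submodule.span A
          ((F.image (fun u => Ψ (yy u)) ∪ G₂.image Ψ :
            Finset (Finset (Fin p) → W₃)) : Set (Finset (Fin p) → W₃)) := by
        have h4 := Submodule.mem_map_of_mem (f := Ψ) hw3
        rw [Submodule.map_span] at h4
        refine Submodule.span_mono ?_ h4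
        rintro _ ⟨z, hz, rfl⟩
        exact Finset.mem_coe.mpr (Finset.mem_union_right _ (Finset.mem_image_of_mem _ hz))
      have h5 : cd (Ψ w) = Ψ (cd w) := cd_comp ψ _
      have h6 : Ψ (Φ v) = 0 := hΨΦ v hv1 hv0
      have h7 : x - cd (Ψ w) = Ψ (y - Φ v - y' - cd w) + Ψ y' := by
        rw [map_sub, map_sub, map_sub, h6, h5, hΨy]
        abel
      rw [h7]
      exact Submodule.add_mem _ h3 hy'2

end Pool.Agent.DBX.SRV
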