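import Pool.Agent.DBX.SRV.Stmts
import Pool.Agent.DBX.Cd

set_option autoImplicit false

/-! # MP_2c751f_ag, squad DBX, area SRV, module EL2 -/

namespace Pool.Agent.DBX.SRV

open MvPolynomial IsLocalRing RingTheory.Sequence CategoryTheory

universe u

namespace EL2_

section
variable {A : Type*} [CommRing A] {W W' : Type*} [AddCommGroup W] [AddCommGroup W'] [Module A W]
  [Module A W'] {p : ℕ}

theorem loc_mono (g : Fin p → A) (N : Submodule A W) {σ σ' : Finset (Fin p)} (h : σ' ⊆ σ) :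
    loc g N σ' ≤ loc g N σ := by
  rintro x ⟨e, he⟩
  refine ⟨e, ?_⟩
  rw [← Finset.prod_sdiff h, mul_pow, mul_smul]
  exact N.smul_mem _ he

theorem cd_Cc (g : Fin p → A) (N : Submodule A W) {m : ℕ} {y : Finset (Fin p) → W}
    (hy : y ∈ Cc g N m) : cd y ∈ Cc g N (m + 1) := by
  refine ⟨fun σ => ?_, fun σ hσ => cd_card hy.2 hσ⟩
  rw [cd_apply]
  refine Submodule.sum_mem _ (fun v _ => ?_)
  exact zsmul_mem (loc_mono g N (Finset.erase_subset v σ) (hy.1 _)) _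

theorem cd_comp (f : W →ₗ[A] W') (x : Finset (Fin p) → W) :
    cd (f.compLeft (Finset (Fin p)) x) = f.compLeft (Finset (Fin p)) (cd x) :=
  cd_map f.toAddMonoidHom x

theorem lift_fin {E M : Type*} [AddCommGroup E] [AddCommGroup M] [Module A E] [Module A M]
    (L : E →ₗ[A] M) (P : Submodule A E) (S : Finset M) (h : ∀ s ∈ S, ∃ q ∈ P, L q = s) :
    ∃ S' : Finset E, (∀ q ∈ S', q ∈ P) ∧
      ∀ m ∈ Submodule.span A (S : Set M), ∃ q ∈ Submodule.span A (S' : Set E), L q = m := by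
  classical
  choose! f hf using h
  refine ⟨S.image f, ?_, ?_⟩
  · intro q hq
    obtain ⟨s, hs, rfl⟩ := Finset.mem_image.1 hq
    exact (hf s hs).1
  · intro m hm
    have h1 : Submodule.span A (S : Set M) ≤
        Submodule.map L (Submodule.span A ((S.image f : Finset E) : Set E)) := by
      rw [Submodule.span_le]
      intro s hs
      exact ⟨f s, Submodule.subset_span (Finset.mem_coe.2 (Finset.mem_image_of_mem f hs)),
        (hf s hs).2⟩
    exact h1 hm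

end

section
variable {A : Type*} [CommRing A] {W₁ W₂ W₃ : Type*} [AddCommGroup W₁] [AddCommGroup W₂]
  [AddCommGroup W₃] [Module A W₁] [Module A W₂] [Module A W₃] {p : ℕ} {g : Fin p → A}
  {φ : W₁ →ₗ[A] W₂} {ψ : W₂ →ₗ[A] W₃} {Z₁ : Submodule A W₁} {Z₂ : Submodule A W₂}
  {Z₃ : Submodule A W₃}

theorem Cc_empty {N : Submodule A W₁} {m : ℕ} (hm : 1 ≤ m) {x : Finset (Fin p) → W₁}
    (hx : x ∈ Cc g N m) : x ∅ = 0 := hx.2 ∅ (by rw [Finset.card_empty]; omega)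

theorem map1 (h : ∀ σ : Finset (Fin p), σ.Nonempty → Ex g φ ψ Z₁ Z₂ Z₃ σ) {m : ℕ}
    {x : Finset (Fin p) → W₁} (hx : x ∈ Cc g Z₁ m) (h0 : x ∅ = 0) :
    φ.compLeft (Finset (Fin p)) x ∈ Cc g Z₂ m := by
  refine ⟨fun σ => ?_, fun σ hσ => ?_⟩
  · rcases σ.eq_empty_or_nonempty with rfl | hne
    · change φ (x ∅) ∈ _
      rw [h0, map_zero]
      exact zero_mem _
    · exact (h σ hne).map₁ _ (hx.1 σ)
  · change φ (x σ) = 0
    rw [hx.2 σ hσ, map_zero]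

theorem map2 (h : ∀ σ : Finset (Fin p), σ.Nonempty → Ex g φ ψ Z₁ Z₂ Z₃ σ) {m : ℕ}
    {x : Finset (Fin p) → W₂} (hx : x ∈ Cc g Z₂ m) (h0 : x ∅ = 0) :
    ψ.compLeft (Finset (Fin p)) x ∈ Cc g Z₃ m := by
  refine ⟨fun σ => ?_, fun σ hσ => ?_⟩
  · rcases σ.eq_empty_or_nonempty with rfl | hne
    · change ψ (x ∅) ∈ _
      rw [h0, map_zero]
      exact zero_mem _
    · exact (h σ hne).map₂ _ (hx.1 σ)
  · change ψ (x σ) = 0
    rw [hx.2 σ hσ, map_zero]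

theorem comp0 (h : ∀ σ : Finset (Fin p), σ.Nonempty → Ex g φ ψ Z₁ Z₂ Z₃ σ) {m : ℕ}
    {x : Finset (Fin p) → W₁} (hx : x ∈ Cc g Z₁ m) (h0 : x ∅ = 0) :
    ψ.compLeft (Finset (Fin p)) (φ.compLeft (Finset (Fin p)) x) = 0 := by
  funext σ
  change ψ (φ (x σ)) = 0
  rcases σ.eq_empty_or_nonempty with rfl | hne
  · rw [h0, map_zero, map_zero]
  · exact (h σ hne).comp _ (hx.1 σ)

theorem inj (h : ∀ σ : Finset (Fin p), σ.Nonempty → Ex g φ ψ Z₁ Z₂ Z₃ σ) {m : ℕ}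
    {x : Finset (Fin p) → W₁} (hx : x ∈ Cc g Z₁ m) (h0 : x ∅ = 0)
    (h1 : φ.compLeft (Finset (Fin p)) x = 0) : x = 0 := by
  funext σ
  rcases σ.eq_empty_or_nonempty with rfl | hne
  · exact h0
  · exact (h σ hne).inj _ (hx.1 σ) (congrFun h1 σ)

theorem lift3 (h : ∀ σ : Finset (Fin p), σ.Nonempty → Ex g φ ψ Z₁ Z₂ Z₃ σ) {m : ℕ}
    {x : Finset (Fin p) → W₃} (hx : x ∈ Cc g Z₃ m) (h0 : x ∅ = 0) :
    ∃ y ∈ Cc g Z₂ m, y ∅ = 0 ∧ ψ.compLeft (Finset (Fin p)) y = x := by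
  classical
  have h1 : ∀ σ : Finset (Fin p), ∃ w ∈ loc g Z₂ σ, ψ w = x σ ∧ (x σ = 0 → w = 0) := by
    intro σ
    by_cases hz : x σ = 0
    · exact ⟨0, zero_mem _, by rw [hz, map_zero], fun _ => rfl⟩
    · rcases σ.eq_empty_or_nonempty with rfl | hne
      · exact absurd h0 hz
      · obtain ⟨w, hw, hw'⟩ := (h σ hne).surj _ (hx.1 σ)
        exact ⟨w, hw, hw', fun h => absurd h hz⟩
  choose y hy hy1 hy2 using h1
  exact ⟨y, ⟨hy, fun σ hσ => hy2 σ (hx.2 σ hσ)⟩, hy2 ∅ h0, funext hy1⟩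

theorem lift2 (h : ∀ σ : Finset (Fin p), σ.Nonempty → Ex g φ ψ Z₁ Z₂ Z₃ σ) {m : ℕ}
    {x : Finset (Fin p) → W₂} (hx : x ∈ Cc g Z₂ m) (h0 : x ∅ = 0)
    (hx0 : ψ.compLeft (Finset (Fin p)) x = 0) :
    ∃ y ∈ Cc g Z₁ m, y ∅ = 0 ∧ φ.compLeft (Finset (Fin p)) y = x := by
  classical
  have h1 : ∀ σ : Finset (Fin p), ∃ w ∈ loc g Z₁ σ, φ w = x σ ∧ (x σ = 0 → w = 0) := by
    intro σ
    by_cases hz : x σ = 0
    · exact ⟨0, zero_mem _, by rw [hz, map_zero], fun _ => rfl⟩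
    · rcases σ.eq_empty_or_nonempty with rfl | hne
      · exact absurd h0 hz
      · obtain ⟨w, hw, hw'⟩ := (h σ hne).ex _ (hx.1 σ) (congrFun hx0 σ)
        exact ⟨w, hw, hw', fun h => absurd h hz⟩
  choose y hy hy1 hy2 using h1
  exact ⟨y, ⟨hy, fun σ hσ => hy2 σ (hx.2 σ hσ)⟩, hy2 ∅ h0, funext hy1⟩

/-- cocycles -/
def Zs (g : Fin p → A) (N : Submodule A W₁) (m : ℕ) : Submodule A (Finset (Fin p) → W₁) :=
  Cc g N m ⊓ LinearMap.ker (cdL A (Fin p) W₁)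

theorem mem_Zs {N : Submodule A W₁} {m : ℕ} {x : Finset (Fin p) → W₁} :
    x ∈ Zs g N m ↔ x ∈ Cc g N m ∧ cd x = 0 := Iff.rfl

theorem isZ_iff {N : Submodule A W₁} {m : ℕ} {x : Finset (Fin p) → W₁} :
    IsZ g N m x ↔ x ∈ Zs g N m := by
  rw [mem_Zs]
  exact and_congr_right (fun _ => ⟨fun h => funext h, fun h σ => congrFun h σ⟩)

/-- cochains vanishing at the empty set -/
def C0 (g : Fin p → A) (N : Submodule A W₁) (m : ℕ) : Submodule A (Finset (Fin p) → W₁) :=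
  Cc g N m ⊓ LinearMap.ker (LinearMap.proj ∅)

theorem mem_C0 {N : Submodule A W₁} {m : ℕ} {x : Finset (Fin p) → W₁} :
    x ∈ C0 g N m ↔ x ∈ Cc g N m ∧ x ∅ = 0 := Iff.rfl

/-- The second step. -/
theorem step2 (h : ∀ σ : Finset (Fin p), σ.Nonempty → Ex g φ ψ Z₁ Z₂ Z₃ σ) (m : ℕ)
    (h3 : 1 ≤ m → FGH g Z₃ m) :
    ∃ S : Finset (Finset (Fin p) → W₁), (∀ z ∈ S, z ∈ Zs g Z₁ (m + 1)) ∧
      ∀ x ∈ Zs g Z₁ (m + 1), ∀ w ∈ C0 g Z₂ m, φ.compLeft (Finset (Fin p)) x = cd w →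
        ∃ u ∈ C0 g Z₁ m, x - cd u ∈ Submodule.span A (S : Set (Finset (Fin p) → W₁)) := by
  classical
  rcases Nat.eq_zero_or_pos m with rfl | hm
  · refine ⟨∅, fun z hz => absurd hz (Finset.notMem_empty z), ?_⟩
    intro x hx w hw hxw
    have hw0 : w = 0 := by
      funext σ
      by_cases hσ : σ.card = 0
      · rw [Finset.card_eq_zero.1 hσ]
        exact hw.2
      · exact hw.1.2 σ hσ
    refine ⟨0, zero_mem _, ?_⟩
    rw [hw0, cd_zero] at hxw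
    have := inj h hx.1 (Cc_empty (Nat.le_add_left 1 0) hx.1) hxw
    rw [this, cd_zero, sub_zero]
    exact zero_mem _
  · obtain ⟨G, hG, hG'⟩ := h3 hm
    -- pairs (y, x) with cd y = φ x
    let L : ((Finset (Fin p) → W₂) × (Finset (Fin p) → W₁)) →ₗ[A] (Finset (Fin p) → W₂) :=
      (cdL A (Fin p) W₂).comp (LinearMap.fst A _ _) -
        (φ.compLeft (Finset (Fin p))).comp (LinearMap.snd A _ _)
    let P : Submodule A ((Finset (Fin p) → W₂) × (Finset (Fin p) → W₁)) :=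
      ((C0 g Z₂ m).prod (Zs g Z₁ (m + 1))) ⊓ LinearMap.ker L
    have hP : ∀ q, q ∈ P ↔ (q.1 ∈ C0 g Z₂ m ∧ q.2 ∈ Zs g Z₁ (m + 1)) ∧
        cd q.1 = φ.compLeft (Finset (Fin p)) q.2 := by
      intro q
      exact and_congr Iff.rfl (show cd q.1 - φ.compLeft (Finset (Fin p)) q.2 = 0 ↔ _ from
        sub_eq_zero)
    have hlift : ∀ s ∈ G, ∃ q ∈ P,
        ((ψ.compLeft (Finset (Fin p))).comp (LinearMap.fst A _ _)) q = s := by
      intro s hs
      obtain ⟨hs1, hs2⟩ := hG s hs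
      obtain ⟨y, hy, hy0, hys⟩ := lift3 h hs1 (hs1.2 ∅ (by rw [Finset.card_empty]; omega))
      have h4 : ψ.compLeft (Finset (Fin p)) (cd y) = 0 := by
        rw [← cd_comp, hys]
        exact funext hs2
      obtain ⟨x, hx, hx0, hxy⟩ := lift2 h (cd_Cc g Z₂ hy) (cd_empty y) h4
      refine ⟨(y, x), (hP _).2 ⟨⟨⟨hy, hy0⟩, ⟨hx, ?_⟩⟩, hxy.symm⟩, hys⟩
      change cd x = 0
      refine inj h (cd_Cc g Z₁ hx) (cd_empty x) ?_
      rw [← cd_comp, hxy, cd_cd]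
    obtain ⟨S', hS', hS''⟩ := lift_fin _ P G hlift
    refine ⟨S'.image Prod.snd, ?_, ?_⟩
    · intro z hz
      obtain ⟨q, hq, rfl⟩ := Finset.mem_image.1 hz
      exact ((hP q).1 (hS' q hq)).1.2
    · intro x hx w hw hxw
      have h5 : IsZ g Z₃ m (ψ.compLeft (Finset (Fin p)) w) := by
        refine ⟨map2 h hw.1 hw.2, fun σ => ?_⟩
        rw [cd_comp, ← hxw]
        exact congrFun (comp0 h hx.1 (Cc_empty (Nat.le_add_left 1 m) hx.1)) σ
      obtain ⟨v, hv0, hv1, hv2, hv3⟩ := hG' _ h5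
      obtain ⟨q, hq, hqv⟩ := hS'' _ hv3
      have hqP : q ∈ P := (Submodule.span_le.2 hS') hq
      obtain ⟨⟨hq1, hq2⟩, hq3⟩ := (hP q).1 hqP
      obtain ⟨l, rfl⟩ : ∃ l, m = l + 1 := ⟨m - 1, by omega⟩
      have hvC : v ∈ Cc g Z₃ l := ⟨hv1, fun σ hσ => hv2 σ (by omega)⟩
      obtain ⟨v', hv', hv'0, hv'v⟩ := lift3 h hvC hv0
      have h6 : w - q.1 - cd v' ∈ Cc g Z₂ (l + 1) :=
        sub_mem (sub_mem hw.1 hq1.1) (cd_Cc g Z₂ hv')
      have h7 : (w - q.1 - cd v') ∅ = 0 := by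
        rw [Pi.sub_apply, Pi.sub_apply, (mem_C0.1 hw).2, (mem_C0.1 hq1).2, cd_empty, sub_zero,
          sub_zero]
      have h8 : ψ.compLeft (Finset (Fin p)) (w - q.1 - cd v') = 0 := by
        rw [map_sub, map_sub, ← cd_comp, hv'v]
        have : ψ.compLeft (Finset (Fin p)) q.1 = ψ.compLeft (Finset (Fin p)) w - cd v := hqv
        rw [this, sub_sub_cancel, sub_self]
      obtain ⟨u, hu, hu0, huw⟩ := lift2 h h6 h7 h8
      refine ⟨u, ⟨hu, hu0⟩, ?_⟩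
      have h9 : x - q.2 - cd u = 0 := by
        refine inj h (m := l + 1 + 1) (sub_mem (sub_mem hx.1 hq2.1) (cd_Cc g Z₁ hu)) ?_ ?_
        · rw [Pi.sub_apply, Pi.sub_apply, Cc_empty (Nat.le_add_left 1 _) hx.1,
            Cc_empty (Nat.le_add_left 1 _) hq2.1, cd_empty, sub_zero, sub_zero]
        · rw [map_sub, map_sub, hxw, ← hq3, ← cd_comp, huw, cd_sub, cd_sub, cd_cd, sub_zero,
            sub_self]
      have h10 : x - cd u = q.2 := by
        rw [sub_right_comm, sub_eq_zero] at h9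
        exact h9
      rw [h10]
      have h11 : (Submodule.span A (S' : Set ((Finset (Fin p) → W₂) × (Finset (Fin p) → W₁)))).map
          (LinearMap.snd A _ _) ≤ Submodule.span A
            ((S'.image Prod.snd : Finset (Finset (Fin p) → W₁)) : Set (Finset (Fin p) → W₁)) := by
        rw [Submodule.map_span]
        refine Submodule.span_mono ?_
        rintro _ ⟨q', hq', rfl⟩
        exact Finset.mem_coe.2 (Finset.mem_image_of_mem _ hq')
      exact h11 ⟨q, hq, rfl⟩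

end

end EL2_

open EL2_ in
theorem el2_proof : Stmt_EL2.{u} := by
  classical
  intro A _ _ W₁ W₂ W₃ _ _ _ _ _ _ p g φ ψ Z₁ Z₂ Z₃ h j hj h3 h2
  obtain ⟨m, rfl⟩ : ∃ m, j = m + 1 := ⟨j - 1, by omega⟩
  obtain ⟨S2, hS2, hS2'⟩ := step2 h m (fun hm => by
    have := h3 (by omega)
    simpa using this)
  obtain ⟨G, hG, hG'⟩ := h2
  let L : ((Finset (Fin p) → W₁) × (Finset (Fin p) → W₂)) →ₗ[A] (Finset (Fin p) → W₂) :=
    (φ.compLeft (Finset (Fin p))).comp (LinearMap.fst A _ _) -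
      (cdL A (Fin p) W₂).comp (LinearMap.snd A _ _)
  let P : Submodule A ((Finset (Fin p) → W₁) × (Finset (Fin p) → W₂)) :=
    (Zs g Z₁ (m + 1)).prod (C0 g Z₂ m)
  have hL : ∀ q, L q = φ.compLeft (Finset (Fin p)) q.1 - cd q.2 := fun q => rfl
  let T : Submodule A (Finset (Fin p) → W₂) :=
    (P.map L) ⊓ Submodule.span A (G : Set (Finset (Fin p) → W₂))
  have hT : T.FG := by
    haveI : IsNoetherian A (Submodule.span A (G : Set (Finset (Fin p) → W₂))) :=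
      isNoetherian_span_of_finite A G.finite_toSet
    exact (isNoetherian_submodule.1 this) T inf_le_right
  obtain ⟨S, hS⟩ := hT
  obtain ⟨S1, hS1, hS1'⟩ := lift_fin L P S (fun s hs => by
    have : s ∈ T := hS ▸ Submodule.subset_span hs
    exact this.1)
  refine ⟨S1.image Prod.fst ∪ S2, ?_, ?_⟩
  · intro z hz
    rw [isZ_iff]
    rcases Finset.mem_union.1 hz with hz | hz
    · obtain ⟨q, hq, rfl⟩ := Finset.mem_image.1 hz
      exact (hS1 q hq).1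
    · exact hS2 z hz
  · intro x hx
    rw [isZ_iff] at hx
    have hx0 : x ∅ = 0 := Cc_empty (Nat.le_add_left 1 m) hx.1
    have hφx : IsZ g Z₂ (m + 1) (φ.compLeft (Finset (Fin p)) x) := by
      refine ⟨map1 h hx.1 hx0, fun σ => ?_⟩
      rw [cd_comp, (mem_Zs.1 hx).2, map_zero, Pi.zero_apply]
    obtain ⟨w, hw0, hw1, hw2, hw3⟩ := hG' _ hφx
    have hw : w ∈ C0 g Z₂ m := ⟨⟨hw1, fun σ hσ => hw2 σ (by omega)⟩, hw0⟩
    have ht : L (x, w) ∈ T := ⟨⟨(x, w), ⟨hx, hw⟩, rfl⟩, hw3⟩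
    rw [← hS] at ht
    obtain ⟨q, hq, hqt⟩ := hS1' _ ht
    have hqP : q ∈ P := (Submodule.span_le.2 hS1) hq
    have h1 : φ.compLeft (Finset (Fin p)) (x - q.1) = cd (w - q.2) := by
      rw [hL, hL] at hqt
      rw [map_sub, cd_sub]
      have : φ.compLeft (Finset (Fin p)) q.1 =
        φ.compLeft (Finset (Fin p)) x - cd w + cd q.2 := by
        rw [← hqt, sub_add_cancel]
      rw [this]
      abel
    obtain ⟨u, hu, hu'⟩ := hS2' (x - q.1) (sub_mem hx hqP.1) (w - q.2) (sub_mem hw hqP.2) h1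
    refine ⟨u, hu.2, hu.1.1, fun σ hσ => hu.1.2 σ (by omega), ?_⟩
    have h2 : x - cd u = q.1 + (x - q.1 - cd u) := by abel
    rw [h2, Finset.coe_union, Submodule.span_union]
    refine Submodule.add_mem_sup ?_ hu'
    have h11 : (Submodule.span A (S1 : Set ((Finset (Fin p) → W₁) × (Finset (Fin p) → W₂)))).map
        (LinearMap.fst A _ _) ≤ Submodule.span A
          ((S1.image Prod.fst : Finset (Finset (Fin p) → W₁)) : Set (Finset (Fin p) → W₁)) := by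
      rw [Submodule.map_span]
      refine Submodule.span_mono ?_
      rintro _ ⟨q', hq', rfl⟩
      exact Finset.mem_coe.2 (Finset.mem_image_of_mem _ hq')
    exact h11 ⟨q, hq, rfl⟩

end Pool.Agent.DBX.SRV
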