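import Pool.Agent.DBX.SRV.Stmts

set_option autoImplicit false

/-! # MP_2c751f_ag, squad DBX, area SRV: module ELC -/

namespace Pool.Agent.DBX.SRV

open MvPolynomial IsLocalRing RingTheory.Sequence CategoryTheory

noncomputable section

universe u

namespace ELC_

variable {k : Type u} [Field k] {n : ℕ}

theorem mem_IF {I : Ideal (Pol k n)} {z : Fr k n} : z ∈ IF I ↔ ∃ w ∈ I, inc k n w = z := by
  unfold IF
  rw [Submodule.mem_map]
  rfl

theorem smul_inc (w : Pol k n) (z : Fr k n) : w • z = inc k n w * z := by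
  rw [Algebra.smul_def]

/-- fractions with denominators a power of `G` -/
def fr (G : Pol k n) (_ : G ≠ 0) : Subalgebra k (Fr k n) where
  carrier := {z | ∃ (e : ℕ) (w : Pol k n), inc k n (G ^ e) * z = inc k n w}
  mul_mem' := by
    rintro x y ⟨e, w, h⟩ ⟨e', w', h'⟩
    refine ⟨e + e', w * w', ?_⟩
    rw [pow_add, map_mul, map_mul, ← h, ← h']
    ring
  add_mem' := by
    rintro x y ⟨e, w, h⟩ ⟨e', w', h'⟩
    refine ⟨e + e', G ^ e' * w + G ^ e * w', ?_⟩
    rw [pow_add, map_add, map_mul, map_mul, map_mul, ← h, ← h']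
    ring
  algebraMap_mem' := by
    intro c
    refine ⟨0, C c, ?_⟩
    rw [pow_zero, map_one, one_mul]
    rfl

theorem R_le {D : Dat k n} (hg : ∀ a, D.g a ≠ 0) (σ : Finset (Fin D.p)) :
    D.R σ ∅ ≤ fr (∏ a ∈ σ, D.g a) (Finset.prod_ne_zero_iff.mpr (fun a _ => hg a)) := by
  classical
  refine Algebra.adjoin_le ?_
  rintro z ((⟨w, rfl⟩ | ⟨a, ha, rfl⟩) | ⟨b, hb, -⟩)
  · exact ⟨0, w, by rw [pow_zero, map_one, one_mul]⟩
  · refine ⟨1, ∏ a ∈ σ.erase a, D.g a, ?_⟩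
    rw [pow_one, ← Finset.mul_prod_erase σ D.g ha, map_mul]
    have := inc_ne (hg a)
    field_simp
  · exact absurd hb (Finset.notMem_empty b)

end ELC_

open ELC_ in
theorem elc_proof : Stmt_ELC.{u} := by
  classical
  intro k _ n D hg σ z
  have hG : (∏ a ∈ σ, D.g a) ≠ 0 := Finset.prod_ne_zero_iff.mpr (fun a _ => hg a)
  unfold Dat.E
  rw [if_pos rfl]
  constructor
  · rintro ⟨y, hy, rfl⟩
    change (y : Fr k n) ∈ _
    have hy' : y ∈ genIn (D.R σ ∅) (inc k n '' D.I) := hy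
    unfold genIn at hy'
    clear hy
    induction hy' using Submodule.span_induction with
    | mem x hx =>
      obtain ⟨w, hw, hx1⟩ := hx
      refine ⟨0, ?_⟩
      rw [pow_zero, one_smul, mem_IF]
      exact ⟨w, hw, hx1⟩
    | zero => exact zero_mem _
    | add x y _ _ hx hy => exact add_mem hx hy
    | smul r x _ hx =>
      obtain ⟨e, w, hr⟩ := R_le hg σ r.2
      obtain ⟨e', he'⟩ := hx
      rw [mem_IF] at he'
      obtain ⟨w', hw', hx1⟩ := he'
      refine ⟨e + e', ?_⟩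
      rw [mem_IF]
      refine ⟨w * w', Ideal.mul_mem_left _ _ hw', ?_⟩
      rw [smul_inc] at hx1
      change _ = ((∏ a ∈ σ, D.g a) ^ (e + e')) • ((r : Fr k n) * (x : Fr k n))
      rw [smul_inc, pow_add, map_mul, map_mul, ← hr, hx1]
      ring
  · rintro ⟨e, he⟩
    rw [mem_IF] at he
    obtain ⟨w, hw, hz⟩ := he
    rw [smul_inc] at hz
    have h1 : (inc k n (∏ a ∈ σ, D.g a))⁻¹ ∈ D.R σ ∅ := by
      rw [map_prod, ← Finset.prod_inv_distrib]
      exact Subalgebra.prod_mem _ (fun a ha => Algebra.subset_adjoin (Or.inl (Or.inr ⟨a, ha, rfl⟩)))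
    have h2 : ((inc k n (∏ a ∈ σ, D.g a))⁻¹) ^ e ∈ D.R σ ∅ := Subalgebra.pow_mem _ h1 e
    have h3 : inc k n w ∈ D.R σ ∅ := Algebra.subset_adjoin (Or.inl (Or.inl ⟨w, rfl⟩))
    refine ⟨⟨_, h2⟩ * ⟨_, h3⟩, ?_, ?_⟩
    · refine Ideal.mul_mem_left _ _ (Ideal.subset_span ?_)
      exact ⟨w, hw, rfl⟩
    · change ((inc k n (∏ a ∈ σ, D.g a))⁻¹) ^ e * inc k n w = z
      have h4 := inc_ne hG
      rw [hz, map_pow, ← mul_assoc, ← mul_pow, inv_mul_cancel₀ h4, one_pow, one_mul]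

end

end Pool.Agent.DBX.SRV
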