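import Pool.Agent.DBX.SRV.Stmts

set_option autoImplicit false

/-! # MP_2c751f_ag, squad DBX, area SRV: module EQH -/

namespace Pool.Agent.DBX.SRV

open MvPolynomial IsLocalRing RingTheory.Sequence CategoryTheory

universe u

namespace EQH_

theorem height_comap_surj {A B : Type*} [CommRing A] [CommRing B] (f : A →+* B)
    (hf : Function.Surjective f) (Q : Ideal B) [hQ : Q.IsPrime] :
    Q.height ≤ (Q.comap f).height := by
  have h1 := PrimeSpectrum.height_eq_orderHeight (⟨Q, hQ⟩ : PrimeSpectrum B)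
  have h2 := PrimeSpectrum.height_eq_orderHeight
    (PrimeSpectrum.comap f (⟨Q, hQ⟩ : PrimeSpectrum B))
  have h3 : (PrimeSpectrum.comap f (⟨Q, hQ⟩ : PrimeSpectrum B)).asIdeal = Q.comap f := rfl
  rw [← h3]
  change (⟨Q, hQ⟩ : PrimeSpectrum B).asIdeal.height ≤ _
  rw [h1, h2]
  refine Order.height_le_height_apply_of_strictMono _ ?_ _
  refine Monotone.strictMono_of_injective ?_ (PrimeSpectrum.comap_injective_of_surjective f hf)
  intro x y hxy
  exact Ideal.comap_mono hxy

section
variable {S : Type u} [CommRing S] {I q : Ideal S}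

/-- the map from `S` to the local ring of `S / I` -/
noncomputable def loMap (I : Ideal S) (P : Ideal (S ⧸ I)) [P.IsPrime] :
    S →+* Localization.AtPrime P :=
  (algebraMap (S ⧸ I) (Localization.AtPrime P)).comp (Ideal.Quotient.mk I)

theorem loMap_zero (P : Ideal (S ⧸ I)) [P.IsPrime] {w : S} (hw : w ∈ I) :
    loMap I P w = 0 := by
  unfold loMap
  rw [RingHom.comp_apply, Ideal.Quotient.eq_zero_iff_mem.mpr hw, map_zero]

theorem nil_part (P : Ideal (S ⧸ I)) [P.IsPrime] (a b : Ideal S) (hab : a ⊓ b ≤ I.radical) :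
    a.map (loMap I P) ⊓ b.map (loMap I P) ≤ nilradical (Localization.AtPrime P) := by
  intro z hz
  have h1 : z * z ∈ a.map (loMap I P) * b.map (loMap I P) := Ideal.mul_mem_mul hz.1 hz.2
  rw [← Ideal.map_mul] at h1
  have h2 : (a * b).map (loMap I P) ≤ nilradical (Localization.AtPrime P) := by
    rw [Ideal.map_le_iff_le_comap]
    intro w hw
    obtain ⟨n, hn⟩ := hab (Ideal.mul_le_inf hw)
    rw [Ideal.mem_comap, mem_nilradical]
    exact ⟨n, by rw [← map_pow]; exact loMap_zero P hn⟩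
  obtain ⟨n, hn⟩ := mem_nilradical.mp (h2 h1)
  rw [mem_nilradical]
  exact ⟨2 * n, by rw [pow_mul, pow_two]; exact hn⟩

theorem max_part (P : Ideal (S ⧸ I)) [hP : P.IsPrime] (a b : Ideal S) (hIq : I ≤ q)
    (hPq : P = q.map (Ideal.Quotient.mk I)) (hq : q ∈ (a ⊔ b).minimalPrimes) :
    maximalIdeal (Localization.AtPrime P) ≤
      (a.map (loMap I P) ⊔ b.map (loMap I P)).radical := by
  have hqp : q.IsPrime := hq.1.1
  have hmax : maximalIdeal (Localization.AtPrime P) = q.map (loMap I P) := by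
    have h1 : Ideal.map (algebraMap (S ⧸ I) (Localization.AtPrime P)) P =
      maximalIdeal (Localization.AtPrime P) := Localization.AtPrime.map_eq_maximalIdeal
    rw [← h1]
    subst hPq
    rw [Ideal.map_map]
    rfl
  have hcom : (maximalIdeal (Localization.AtPrime P)).comap (loMap I P) = q := by
    have h1 : (maximalIdeal (Localization.AtPrime P)).comap
        (algebraMap (S ⧸ I) (Localization.AtPrime P)) = P :=
      Localization.AtPrime.under_maximalIdeal
    unfold loMap
    rw [← Ideal.comap_comap, h1, hPq]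
    ext w
    rw [Ideal.mem_comap, Ideal.mem_quotient_iff_mem hIq]
  rw [Ideal.radical_eq_sInf]
  refine le_sInf ?_
  rintro Q' ⟨hle, hQ'⟩
  have h1 : a ⊔ b ≤ Q'.comap (loMap I P) := by
    rw [← Ideal.map_le_iff_le_comap, Ideal.map_sup]
    exact hle
  have h2 : Q'.comap (loMap I P) ≤ q := by
    rw [← hcom]
    exact Ideal.comap_mono (le_maximalIdeal hQ'.ne_top)
  have h3 : (Q'.comap (loMap I P)).IsPrime := Ideal.comap_isPrime _ _
  have h4 : q ≤ Q'.comap (loMap I P) := hq.2 ⟨h3, h1⟩ h2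
  rw [hmax, Ideal.map_le_iff_le_comap]
  exact h4

theorem zd_part (P : Ideal (S ⧸ I)) [hP : P.IsPrime] (a p1 : Ideal S)
    (hPq : P = q.map (Ideal.Quotient.mk I)) (hp1 : p1 ∈ I.minimalPrimes) (hpq : p1 ≤ q)
    (hap : a ≤ p1) :
    ∀ z ∈ a.map (loMap I P), z ∉ nonZeroDivisors (Localization.AtPrime P) := by
  have hp1p : p1.IsPrime := hp1.1.1
  have hIp : I ≤ p1 := hp1.1.2
  have hker : RingHom.ker (Ideal.Quotient.mk I) ≤ p1 := by rw [Ideal.mk_ker]; exact hIp
  have hP1 : (p1.map (Ideal.Quotient.mk I)).IsPrime :=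
    Ideal.map_isPrime_of_surjective Ideal.Quotient.mk_surjective hker
  have hdis : Disjoint (P.primeCompl : Set (S ⧸ I)) (p1.map (Ideal.Quotient.mk I) : Set (S ⧸ I)) := by
    rw [Set.disjoint_left]
    intro z hz hz'
    apply hz
    rw [hPq]
    exact Ideal.map_mono hpq hz'
  have hP1' : ((p1.map (Ideal.Quotient.mk I)).map
      (algebraMap (S ⧸ I) (Localization.AtPrime P))).IsPrime :=
    IsLocalization.isPrime_of_isPrime_disjoint P.primeCompl _ _ hP1 hdis
  obtain ⟨m, hm, hmle⟩ := Ideal.exists_minimalPrimes_le (I := (⊥ : Ideal (Localization.AtPrime P)))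
    (J := (p1.map (Ideal.Quotient.mk I)).map
      (algebraMap (S ⧸ I) (Localization.AtPrime P))) bot_le
  have hmp : m.IsPrime := hm.1.1
  have h1 : m.comap (loMap I P) ≤ p1 := by
    intro w hw
    have h2 : algebraMap (S ⧸ I) (Localization.AtPrime P) (Ideal.Quotient.mk I w) ∈
      (p1.map (Ideal.Quotient.mk I)).map (algebraMap (S ⧸ I) (Localization.AtPrime P)) := hmle hw
    have h3 : Ideal.Quotient.mk I w ∈ Ideal.comap (algebraMap (S ⧸ I) (Localization.AtPrime P))
      ((p1.map (Ideal.Quotient.mk I)).map (algebraMap (S ⧸ I) (Localization.AtPrime P))) := h2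
    have h4 : Ideal.comap (algebraMap (S ⧸ I) (Localization.AtPrime P))
      ((p1.map (Ideal.Quotient.mk I)).map (algebraMap (S ⧸ I) (Localization.AtPrime P))) =
      p1.map (Ideal.Quotient.mk I) :=
      IsLocalization.under_map_of_isPrime_disjoint P.primeCompl _ hP1 hdis
    rw [h4] at h3
    exact (Ideal.mem_quotient_iff_mem hIp).mp h3
  have h2 : I ≤ m.comap (loMap I P) := by
    intro w hw
    rw [Ideal.mem_comap, loMap_zero P hw]
    exact m.zero_mem
  have h3 : p1 ≤ m.comap (loMap I P) := hp1.2 ⟨Ideal.comap_isPrime _ _, h2⟩ h1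
  intro z hz
  have h4 : z ∈ m := by
    have h5 : a.map (loMap I P) ≤ m := by
      rw [Ideal.map_le_iff_le_comap]
      exact hap.trans h3
    exact h5 hz
  have h5 := Ideal.disjoint_nonZeroDivisors_of_mem_minimalPrimes (p := m) hm
  exact fun h6 => (Set.disjoint_left.mp h5) h4 h6

end

/-- the height of `q / p` is one if `P = q / I` has height at most one -/
theorem height_one {S : Type u} [CommRing S] {I p q : Ideal S} [hp : p.IsPrime]
    [hq : q.IsPrime] (hIp : I ≤ p) (hpq : p < q)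
    (hP : (q.map (Ideal.Quotient.mk I)).height ≤ 1) :
    (q.map (Ideal.Quotient.mk p)).height = 1 := by
  have hker : RingHom.ker (Ideal.Quotient.mk p) ≤ q := by rw [Ideal.mk_ker]; exact hpq.le
  have hQ : (q.map (Ideal.Quotient.mk p)).IsPrime :=
    Ideal.map_isPrime_of_surjective Ideal.Quotient.mk_surjective hker
  apply le_antisymm
  · have h1 := height_comap_surj (Ideal.Quotient.factor hIp)
      (Ideal.Quotient.factor_surjective hIp) (q.map (Ideal.Quotient.mk p))
    refine h1.trans ?_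
    have h2 : (q.map (Ideal.Quotient.mk p)).comap (Ideal.Quotient.factor hIp) =
        q.map (Ideal.Quotient.mk I) := by
      ext z
      obtain ⟨w, rfl⟩ := Ideal.Quotient.mk_surjective z
      rw [Ideal.mem_comap, Ideal.Quotient.factor_mk, Ideal.mem_quotient_iff_mem hpq.le,
        Ideal.mem_quotient_iff_mem (hIp.trans hpq.le)]
    rw [h2]
    exact hP
  · rw [Order.one_le_iff_pos, pos_iff_ne_zero]
    intro h0
    rw [Ideal.height_eq_zero_iff_eq_bot] at h0
    apply hpq.not_ge
    intro w hw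
    have h1 : Ideal.Quotient.mk p w ∈ q.map (Ideal.Quotient.mk p) := Ideal.mem_map_of_mem _ hw
    rw [h0, Ideal.mem_bot, Ideal.Quotient.eq_zero_iff_mem] at h1
    exact h1

end EQH_

open EQH_

theorem eqh_proof (hHAR : Stmt_HAR.{u}) (hDM2 : Stmt_DM2.{u}) (hMNH : Stmt_MNH.{u})
    (hIRR : Stmt_IRR.{u}) : Stmt_EQH.{u} := by
  intro k _ n I hI hI1 hS p hp p' hp'
  classical
  by_contra hne
  have hfin := Ideal.finite_minimalPrimes_of_isNoetherianRing (Pol k n) I
  obtain ⟨hmax, -, -, hmm⟩ := hIRR k n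
  have hmmp : (mm k n).IsPrime := hmax.isPrime
  have hpm : ∀ p ∈ I.minimalPrimes, p ≤ mm k n := fun p hp =>
    hmm p (hMNH k n I hI p hp) hp.1.1.ne_top
  set A1 : Finset (Ideal (Pol k n)) := hfin.toFinset.filter (fun P => P.height = p.height) with hA1
  set A2 : Finset (Ideal (Pol k n)) := hfin.toFinset.filter (fun P => P.height ≠ p.height) with hA2
  have hm1 : ∀ P, P ∈ A1 ↔ P ∈ I.minimalPrimes ∧ P.height = p.height := by
    intro P; rw [hA1, Finset.mem_filter, Set.Finite.mem_toFinset]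
  have hm2 : ∀ P, P ∈ A2 ↔ P ∈ I.minimalPrimes ∧ P.height ≠ p.height := by
    intro P; rw [hA2, Finset.mem_filter, Set.Finite.mem_toFinset]
  set a : Ideal (Pol k n) := A1.inf id with ha
  set b : Ideal (Pol k n) := A2.inf id with hb
  have hap : a ≤ p := Finset.inf_le (f := id) ((hm1 p).mpr ⟨hp, rfl⟩)
  have hbp' : b ≤ p' := Finset.inf_le (f := id) ((hm2 p').mpr ⟨hp', fun h => hne h.symm⟩)
  have hab : a ⊓ b ≤ I.radical := by
    rw [← Ideal.sInf_minimalPrimes]
    refine le_sInf (fun P hP => ?_)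
    by_cases h : P.height = p.height
    · exact inf_le_left.trans (Finset.inf_le (f := id) ((hm1 P).mpr ⟨hP, h⟩))
    · exact inf_le_right.trans (Finset.inf_le (f := id) ((hm2 P).mpr ⟨hP, h⟩))
  obtain ⟨q, hq, -⟩ := Ideal.exists_minimalPrimes_le (I := a ⊔ b) (J := mm k n)
    (sup_le (hap.trans (hpm p hp)) (hbp'.trans (hpm p' hp')))
  have hqp : q.IsPrime := hq.1.1
  have hqa : a ≤ q := le_sup_left.trans hq.1.2
  have hqb : b ≤ q := le_sup_right.trans hq.1.2
  obtain ⟨p1, hp1, hp1q⟩ := (Ideal.IsPrime.inf_le' (f := id) hqp).mp hqa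
  obtain ⟨p2, hp2, hp2q⟩ := (Ideal.IsPrime.inf_le' (f := id) hqp).mp hqb
  have hp1' := (hm1 p1).mp hp1
  have hp2' := (hm2 p2).mp hp2
  have hp1p : p1.IsPrime := hp1'.1.1.1
  have hp2p : p2.IsPrime := hp2'.1.1.1
  have hIp1 : I ≤ p1 := hp1'.1.1.2
  have hIp2 : I ≤ p2 := hp2'.1.1.2
  simp only [id_eq] at hp1q hp2q
  have hIq : I ≤ q := hIp1.trans hp1q
  have hap1 : a ≤ p1 := Finset.inf_le (f := id) hp1
  have hbp2 : b ≤ p2 := Finset.inf_le (f := id) hp2
  have hker : RingHom.ker (Ideal.Quotient.mk I) ≤ q := by rw [Ideal.mk_ker]; exact hIq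
  have hPp : (q.map (Ideal.Quotient.mk I)).IsPrime :=
    Ideal.map_isPrime_of_surjective Ideal.Quotient.mk_surjective hker
  obtain ⟨rs, hrs, hreg, hlen⟩ := hS (q.map (Ideal.Quotient.mk I))
  have hdim := IsLocalization.AtPrime.ringKrullDim_eq_height (q.map (Ideal.Quotient.mk I))
    (Localization.AtPrime (q.map (Ideal.Quotient.mk I)))
  by_cases h2 : (2 : ℕ∞) ≤ (q.map (Ideal.Quotient.mk I)).height
  · -- depth at least two
    have h3 : rs.length = 2 := by
      rw [hdim] at hlen
      have h4 : min ((2 : ℕ) : WithBot ℕ∞)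
          (((q.map (Ideal.Quotient.mk I)).height : ℕ∞) : WithBot ℕ∞) = ((2 : ℕ) : WithBot ℕ∞) := by
        apply min_eq_left
        exact WithBot.coe_le_coe.mpr h2
      rw [h4] at hlen
      exact_mod_cast hlen
    obtain ⟨x, y, rfl⟩ : ∃ x y, rs = [x, y] := by
      match rs, h3 with
      | [x, y], _ => exact ⟨x, y, rfl⟩
    exact hHAR _ (a.map (loMap I _)) (b.map (loMap I _)) x y (hrs x (by simp)) (hrs y (by simp))
      hreg.toIsWeaklyRegular (nil_part _ a b hab) (max_part _ a b hIq rfl hq)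
      (zd_part _ a p1 rfl hp1'.1 hp1q hap1) (zd_part _ b p2 rfl hp2'.1 hp2q hbp2)
  · -- dimension at most one
    have h3 : (q.map (Ideal.Quotient.mk I)).height ≤ 1 := by
      rw [not_le] at h2
      exact Order.le_of_lt_add_one (by exact_mod_cast h2)
    have h12 : p1 ≠ p2 := by
      rintro rfl
      exact hp2'.2 hp1'.2
    have hp1lt : p1 < q := by
      refine lt_of_le_of_ne hp1q ?_
      rintro rfl
      exact h12 (le_antisymm (hp1'.1.2 ⟨hp2p, hIp2⟩ hp2q) hp2q)
    have hp2lt : p2 < q := by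
      refine lt_of_le_of_ne hp2q ?_
      rintro rfl
      exact h12 (le_antisymm hp1q (hp2'.1.2 ⟨hp1p, hIp1⟩ hp1q))
    have e1 := hDM2 k n p1 q hp1q
    have e2 := hDM2 k n p2 q hp2q
    rw [height_one hIp1 hp1lt h3] at e1
    rw [height_one hIp2 hp2lt h3] at e2
    have h4 : p1.height = p2.height := by
      have h5 : 1 + p1.height = 1 + p2.height := by rw [e1, e2]
      exact WithTop.add_left_cancel (WithTop.one_ne_top) h5
    exact hp2'.2 (by rw [← h4]; exact hp1'.2)

end Pool.Agent.DBX.SRV
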