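import Pool.Agent.DBX.SRV.Stmts

set_option autoImplicit false

/-! # MP_2c751f_ag, squad DBX, area SRV: module EXS (helper51) -/

namespace Pool.Agent.DBX.SRV

open MvPolynomial IsLocalRing RingTheory.Sequence CategoryTheory

universe u

theorem exs_proof (hSBP : Stmt_SBP.{u}) : Stmt_EXS.{u} := by
  classical
  intro k _ n p g hg W _ _ _ _ Z hZ
  obtain ⟨m, w, hw⟩ := Submodule.fg_iff_exists_fin_generating_family.mp hZ
  let ψ : (Fin m → Fr k n) →ₗ[Fr k n] W := Fintype.linearCombination (Fr k n) w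
  have hψ : ∀ x : Fin m → Fr k n, ψ x = ∑ i, x i • w i := fun x => rfl
  have hsm : ∀ (c : Pol k n) (y : W), (algebraMap (Pol k n) (Fr k n) c) • y = c • y :=
    fun c y => algebraMap_smul (Fr k n) c y
  have hψs : ∀ (c : Pol k n) (x : Fin m → Fr k n), ψ (c • x) = c • ψ x := by
    intro c x
    exact (ψ.restrictScalars (Pol k n)).map_smul c x
  have hcov : ∀ y, y ∈ Z ↔ ∃ x ∈ SB k n (Fin m), ψ x = y := by
    intro y
    rw [← hw]
    constructor
    · intro hy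
      obtain ⟨c, hc⟩ := (Submodule.mem_span_range_iff_exists_fun (Pol k n)).mp hy
      refine ⟨fun i => algebraMap (Pol k n) (Fr k n) (c i), ?_, ?_⟩
      · intro i
        exact ⟨c i, Submodule.mem_top, rfl⟩
      · rw [hψ, ← hc]
        exact Finset.sum_congr rfl (fun i _ => hsm _ _)
    · rintro ⟨x, hx, rfl⟩
      rw [hψ]
      refine Submodule.sum_mem _ (fun i _ => ?_)
      obtain ⟨c, -, hc⟩ := hx i
      have hc' : algebraMap (Pol k n) (Fr k n) c = x i := hc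
      rw [← hc', hsm]
      exact Submodule.smul_mem _ _ (Submodule.subset_span ⟨i, rfl⟩)
  let Z₁ : Submodule (Pol k n) (Fin m → Fr k n) :=
    SB k n (Fin m) ⊓ LinearMap.ker (ψ.restrictScalars (Pol k n))
  have hZ₁ : ∀ x, x ∈ Z₁ ↔ x ∈ SB k n (Fin m) ∧ ψ x = 0 := by
    intro x
    rfl
  have hfg : Z₁.FG := by
    haveI := (hSBP k n (Fin m)).2
    haveI : IsNoetherian (Pol k n) (SB k n (Fin m)) := inferInstance
    have h1 : (Z₁.comap (SB k n (Fin m)).subtype).FG := IsNoetherian.noetherian _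
    have h2 := h1.map (SB k n (Fin m)).subtype
    have h3 : (Z₁.comap (SB k n (Fin m)).subtype).map (SB k n (Fin m)).subtype = Z₁ := by
      rw [Submodule.map_comap_subtype]
      exact inf_eq_right.mpr inf_le_left
    rwa [h3] at h2
  have hG : ∀ (σ : Finset (Fin p)) (e : ℕ),
      algebraMap (Pol k n) (Fr k n) ((∏ a ∈ σ, g a) ^ e) ≠ 0 := by
    intro σ e
    exact inc_ne (pow_ne_zero e (Finset.prod_ne_zero_iff.mpr (fun a _ => hg a)))
  refine ⟨Fin m, inferInstance, ψ, Z₁, hfg, hcov, hZ₁, fun σ => ?_⟩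
  constructor
  · intro x _ hx
    exact hx
  · rintro x ⟨e, he⟩
    have h1 := ((hZ₁ _).mp he).2
    rw [hψs, ← hsm, smul_eq_zero] at h1
    exact h1.resolve_left (hG σ e)
  · rintro x ⟨e, he⟩
    exact ⟨e, ((hZ₁ _).mp he).1⟩
  · rintro x ⟨e, he⟩
    refine ⟨e, ?_⟩
    have h1 : ψ (((∏ a ∈ σ, g a) ^ e) • x) ∈ Z := (hcov _).mpr ⟨_, he, rfl⟩
    rw [hψs] at h1
    exact h1
  · rintro y ⟨e, he⟩
    obtain ⟨x, hx, hxy⟩ := (hcov _).mp he
    refine ⟨(algebraMap (Pol k n) (Fr k n) ((∏ a ∈ σ, g a) ^ e))⁻¹ • x, ⟨e, ?_⟩, ?_⟩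
    · rw [← algebraMap_smul (Fr k n) ((∏ a ∈ σ, g a) ^ e), smul_smul,
        mul_inv_cancel₀ (hG σ e), one_smul]
      exact hx
    · change ψ _ = y
      rw [map_smul, hxy, ← hsm, smul_smul, inv_mul_cancel₀ (hG σ e), one_smul]
  · rintro x ⟨e, he⟩ hx
    refine ⟨x, ⟨e, (hZ₁ _).mpr ⟨he, ?_⟩⟩, rfl⟩
    have hx' : ψ x = 0 := hx
    rw [hψs, hx', smul_zero]

end Pool.Agent.DBX.SRV
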