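import Pool.Agent.DBX.SRV.Stmts

set_option autoImplicit false

namespace Pool.Agent.DBX.SRV

open MvPolynomial

noncomputable section

universe u

theorem ext_proof : Stmt_EXT.{u} := by
  intro k _ n W W' _ _ _ _ _ _ _ _ Z s
  have h1 : IsLocalizedModule (nonZeroDivisors (Pol k n)) (LinearMap.id : W →ₗ[Pol k n] W) :=
    isLocalizedModule_id _ W (Fr k n)
  have h2 : IsLocalizedModule (nonZeroDivisors (Pol k n)) (LinearMap.id : W' →ₗ[Pol k n] W') :=
    isLocalizedModule_id _ W' (Fr k n)
  let f := Z.toLocalized' (Fr k n) (nonZeroDivisors (Pol k n))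
    (LinearMap.id : W →ₗ[Pol k n] W)
  have h3 : IsLocalizedModule (nonZeroDivisors (Pol k n)) f := inferInstance
  let g := IsLocalizedModule.lift (nonZeroDivisors (Pol k n)) f s
    (IsLocalizedModule.map_units (LinearMap.id : W' →ₗ[Pol k n] W'))
  let g' := g.extendScalarsOfIsLocalization (nonZeroDivisors (Pol k n)) (Fr k n)
  obtain ⟨s', hs'⟩ := LinearMap.exists_extend g'
  refine ⟨s', fun z => ?_⟩
  have h4 : s' ((f z : W)) = g' (f z) := by
    rw [← hs']; rfl
  have h5 : g' (f z) = g (f z) := rfl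
  have h6 : g (f z) = s z := IsLocalizedModule.lift_apply _ _ _ _ _
  have h7 : (f z : W) = z := rfl
  rw [← h6, ← h5, ← h4, h7]

end

end Pool.Agent.DBX.SRV
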