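import Pool.Agent.DBX.SRV.Stmts

set_option autoImplicit false

namespace Pool.Agent.DBX.SRV

open MvPolynomial IsLocalRing RingTheory.Sequence CategoryTheory

noncomputable section

universe u

namespace FCT_

/-- The ideal of all `a` such that `a` times the identity of `Z` factors through `π`. -/
def J {A : Type u} [CommRing A] {Z : Type u} [AddCommGroup Z] [Module A Z] {b : ℕ}
    (π : (Fin b → A) →ₗ[A] Z) : Ideal A where
  carrier := {a | ∃ τ : Z →ₗ[A] (Fin b → A), ∀ z, π (τ z) = a • z}
  zero_mem' := ⟨0, fun z => by simp⟩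
  add_mem' := by
    rintro x y ⟨τ, hτ⟩ ⟨τ', hτ'⟩
    exact ⟨τ + τ', fun z => by rw [LinearMap.add_apply, map_add, hτ, hτ', add_smul]⟩
  smul_mem' := by
    rintro c x ⟨τ, hτ⟩
    exact ⟨c • τ, fun z => by
      rw [LinearMap.smul_apply, map_smul, hτ, smul_eq_mul, mul_smul]⟩

theorem not_le {A : Type u} [CommRing A] [IsNoetherianRing A] {Z : Type u} [AddCommGroup Z]
    [Module A Z] [Module.Finite A Z] {b : ℕ} (π : (Fin b → A) →ₗ[A] Z)
    (hπ : Function.Surjective π) (q : Ideal A) [q.IsPrime] (h : PL A Z q 0) : ¬ J π ≤ q := by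
  have hproj : Module.Projective (Localization.AtPrime q) (LocalizedModule q.primeCompl Z) := by
    unfold PL PDLE at h
    simp only [HasProjectiveDimensionLE, zero_add, ← projective_iff_hasProjectiveDimensionLT_one,
      ← IsProjective.iff_projective] at h
    exact h
  have hsurj : Function.Surjective (LocalizedModule.map q.primeCompl π) :=
    LocalizedModule.map_surjective _ _ hπ
  obtain ⟨σ, hσ⟩ := Module.projective_lifting_property (LocalizedModule.map q.primeCompl π)
    (LinearMap.id : LocalizedModule q.primeCompl Z →ₗ[Localization.AtPrime q] _) hsurj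
  have : Module.FinitePresentation A Z := Module.finitePresentation_of_finite A Z
  obtain ⟨τ, s, hτ⟩ := Module.FinitePresentation.exists_lift_of_isLocalizedModule q.primeCompl
    (LocalizedModule.mkLinearMap q.primeCompl (Fin b → A))
    ((σ.restrictScalars A) ∘ₗ (LocalizedModule.mkLinearMap q.primeCompl Z))
  have h1 : (LocalizedModule.mkLinearMap q.primeCompl Z) ∘ₗ (π ∘ₗ τ) =
      (LocalizedModule.mkLinearMap q.primeCompl Z) ∘ₗ ((s : A) • LinearMap.id) := by
    ext z
    have h2 := LinearMap.congr_fun hτ z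
    have h3 : (LocalizedModule.map q.primeCompl π)
        (LocalizedModule.mkLinearMap q.primeCompl (Fin b → A) (τ z)) =
        LocalizedModule.mkLinearMap q.primeCompl Z (π (τ z)) := by
      simp [LocalizedModule.mkLinearMap_apply, LocalizedModule.map_mk]
    have h4 := LinearMap.congr_fun hσ (LocalizedModule.mkLinearMap q.primeCompl Z z)
    simp only [LinearMap.comp_apply, LinearMap.id_apply, LinearMap.smul_apply] at h4 h2 ⊢
    have h5 : (s • (σ.restrictScalars A) ((LocalizedModule.mkLinearMap q.primeCompl Z) z)) =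
      (s : A) • σ ((LocalizedModule.mkLinearMap q.primeCompl Z) z) := rfl
    rw [← h3, h2, h5, LinearMap.map_smul_of_tower, h4, map_smul]
  obtain ⟨t, ht⟩ := Module.Finite.exists_smul_of_comp_eq_of_isLocalizedModule q.primeCompl
    (LocalizedModule.mkLinearMap q.primeCompl Z) _ _ h1
  intro hle
  have hmem : (t : A) * (s : A) ∈ J π := by
    refine ⟨(t : A) • τ, fun z => ?_⟩
    have h2 := LinearMap.congr_fun ht z
    rw [LinearMap.smul_apply, map_smul, mul_smul]
    exact h2
  rcases (‹q.IsPrime›).mem_or_mem (hle hmem) with h2 | h2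
  · exact t.2 h2
  · exact s.2 h2

end FCT_

theorem fct_proof : Stmt_FCT.{u} := by
  intro A _ _ Z _ _ _ s hs b π hπ
  have h1 : s ∈ (FCT_.J π).radical := by
    rw [Ideal.radical_eq_sInf, Submodule.mem_sInf]
    rintro q ⟨hq1, hq2⟩
    by_contra hsq
    exact FCT_.not_le π hπ q (hs q hsq) hq1
  obtain ⟨N, τ, hτ⟩ := h1
  exact ⟨N, τ, hτ⟩

end

end Pool.Agent.DBX.SRV
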