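import Pool.Agent.DBX.SRV.Stmts
import Pool.Agent.DBX.Lib.Cech

set_option autoImplicit false

/-! # MP_2c751f_ag, squad DBX, area SRV: module FGF, finite generation for free modules -/

namespace Pool.Agent.DBX.SRV

open MvPolynomial IsLocalRing RingTheory.Sequence CategoryTheory

noncomputable section

universe u

namespace FGF_

variable {k : Type u} [Field k] {n p : ℕ}

theorem loc_bot {g : Fin p → Pol k n} (hg : ∀ a, g a ≠ 0) {ι : Type} {σ : Finset (Fin p)}
    {x : ι → Fr k n} (hx : x ∈ loc g (⊥ : Submodule (Pol k n) (ι → Fr k n)) σ) : x = 0 := by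
  obtain ⟨e, he⟩ := hx
  rw [Submodule.mem_bot] at he
  funext i
  have h1 := congrFun he i
  rw [Pi.smul_apply, Pi.zero_apply, Algebra.smul_def, mul_eq_zero] at h1
  rcases h1 with h1 | h1
  · exfalso
    have h2 : ((∏ a ∈ σ, g a) ^ e : Pol k n) ≠ 0 :=
      pow_ne_zero _ (Finset.prod_ne_zero_iff.mpr (fun a _ => hg a))
    exact inc_ne h2 h1
  · exact h1

theorem le_loc (g : Fin p → Pol k n) {ι : Type} (N : Submodule (Pol k n) (ι → Fr k n))
    (σ : Finset (Fin p)) {x : ι → Fr k n} (hx : x ∈ N) : x ∈ loc g N σ :=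
  ⟨0, by rwa [pow_zero, one_smul]⟩

theorem single_mem {ι : Type} [DecidableEq ι] (i : ι) :
    (Pi.single i 1 : ι → Fr k n) ∈ SB k n ι := by
  intro j
  by_cases h : j = i
  · subst h
    rw [Pi.single_eq_same]
    exact ⟨1, trivial, by simp⟩
  · rw [Pi.single_eq_of_ne h]
    exact Submodule.zero_mem _

end FGF_

open FGF_

theorem fgf_proof (hHVB : Stmt_HVB.{u}) : Stmt_FGF.{u} := by
  classical
  intro k _ n p g hg ι _ j hj hjn
  have h := hHVB k n p g hg j hjn ι
  have key : ∀ x, IsZ g (SB k n ι) j x → ∃ y : Finset (Fin p) → (ι → Fr k n),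
      (∀ σ, y σ ∈ loc g (SB k n ι) σ) ∧ (∀ σ, σ.card + 1 ≠ j → y σ = 0) ∧ x = cd y := by
    rintro x ⟨hx1, hx2⟩
    obtain ⟨y, y1, y2, y3⟩ := h x hx1 (fun σ => by rw [hx2 σ]; exact zero_mem _)
    refine ⟨y, y1, y2, ?_⟩
    funext σ
    have := loc_bot hg.ne (y3 σ)
    exact sub_eq_zero.mp this
  rcases Nat.lt_or_ge j 2 with hj2 | hj2
  · have hj1 : j = 1 := by omega
    subst hj1
    refine ⟨Finset.univ.image (fun i : ι => cd (atE (V := Fin p) (Pi.single i 1 : ι → Fr k n))),
      ?_, ?_⟩
    · intro z hz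
      rw [Finset.mem_image] at hz
      obtain ⟨i, _, rfl⟩ := hz
      refine ⟨⟨fun σ => ?_, fun σ hσ => ?_⟩, fun σ => ?_⟩
      · rw [cd_atE]
        unfold at1
        split_ifs
        · exact le_loc _ _ _ (single_mem i)
        · exact zero_mem _
      · rw [cd_atE]
        exact if_neg hσ
      · rw [cd_cd]; rfl
    · intro x hx
      obtain ⟨y, y1, y2, rfl⟩ := key x hx
      refine ⟨0, rfl, fun σ => zero_mem _, fun σ _ => rfl, ?_⟩
      rw [cd_zero, sub_zero]
      have h1 : y = atE (y ∅) := by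
        funext σ
        unfold atE
        split_ifs with h0
        · rw [h0]
        · refine y2 σ ?_
          have := Finset.card_pos.mpr (Finset.nonempty_iff_ne_empty.mpr h0)
          omega
      have h2 : ∀ i, ∃ w : Pol k n, y ∅ i = algebraMap (Pol k n) (Fr k n) w := by
        intro i
        obtain ⟨e, he⟩ := y1 ∅
        rw [Finset.prod_empty, one_pow, one_smul] at he
        obtain ⟨w, _, hw⟩ := he i
        exact ⟨w, hw.symm⟩
      choose w hw using h2
      have h3 : cd y = ∑ i, w i • cd (atE (V := Fin p) (Pi.single i 1 : ι → Fr k n)) := by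
        rw [h1, cd_atE]
        simp only [cd_atE]
        funext σ
        rw [Finset.sum_apply]
        simp only [Pi.smul_apply]
        unfold at1
        split_ifs
        · funext i
          rw [Finset.sum_apply, Finset.sum_eq_single i]
          · rw [Pi.smul_apply, Pi.single_eq_same, Algebra.smul_def, mul_one, ← hw i]
          · intro b _ hb
            rw [Pi.smul_apply, Pi.single_eq_of_ne (Ne.symm hb), smul_zero]
          · intro h'; exact absurd (Finset.mem_univ i) h'
        · simp
      rw [h3]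
      refine Submodule.sum_mem _ (fun i _ => Submodule.smul_mem _ _ (Submodule.subset_span ?_))
      rw [Finset.mem_coe, Finset.mem_image]
      exact ⟨i, Finset.mem_univ i, rfl⟩
  · refine ⟨∅, by simp, fun x hx => ?_⟩
    obtain ⟨y, y1, y2, rfl⟩ := key x hx
    refine ⟨y, y2 ∅ ?_, y1, y2, ?_⟩
    · rw [Finset.card_empty]; omega
    · rw [sub_self]; exact zero_mem _

end

end Pool.Agent.DBX.SRV
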