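import Pool.Agent.DBX.SRV.Stmts

set_option autoImplicit false

namespace Pool.Agent.DBX.SRV

open MvPolynomial IsLocalRing RingTheory.Sequence CategoryTheory

universe u

theorem fgv_proof (hLPC : Stmt_LPC.{u}) (hLPF : Stmt_LPF.{u}) (hEXS : Stmt_EXS.{u})
    (hSBP : Stmt_SBP.{u}) (hSYZ : Stmt_SYZ.{u}) (hEL1 : Stmt_EL1.{u}) (hFGF : Stmt_FGF.{u}) :
    Stmt_FGV.{u} := by
  intro k _ n p g hg e
  induction e with
  | zero =>
    intro j h1 hj W _ _ _ _ Z hZ h
    exact hLPF k n p g hg j h1 (by omega) W Z (hLPC k n p g hg.ne W Z hZ h)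
  | succ e ih =>
    intro j h1 hj W _ _ _ _ Z hZ h
    obtain ⟨ι, hι, ψ, Z₁, hZ₁, hc, hk, hEx⟩ := hEXS k n p g hg.ne W Z hZ
    have hle : Z₁ ≤ SB k n ι := fun x hx => ((hk x).1 hx).1
    have hmap : ∀ x : SB k n ι, (ψ.restrictScalars (Pol k n)).domRestrict (SB k n ι) x ∈ Z := by
      intro x
      exact (hc _).2 ⟨x, x.2, rfl⟩
    let f : SB k n ι →ₗ[Pol k n] Z :=
      ((ψ.restrictScalars (Pol k n)).domRestrict (SB k n ι)).codRestrict Z hmap
    have hf : ∀ x : SB k n ι, ((f x : Z) : W) = ψ x := fun x => rfl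
    have hproj : Module.Projective (Pol k n) (SB k n ι) := by
      have := (hSBP k n ι).1
      infer_instance
    have hsyz := hSYZ (Pol k n) Z₁ (SB k n ι) Z (Submodule.inclusion hle) f
      (Submodule.inclusion_injective hle)
      (by
        intro z
        obtain ⟨x, hx, hxz⟩ := (hc z).1 z.2
        exact ⟨⟨x, hx⟩, Subtype.ext hxz⟩)
      (by
        ext x
        rw [LinearMap.mem_range, LinearMap.mem_ker]
        constructor
        · rintro ⟨y, rfl⟩
          apply Subtype.ext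
          rw [hf]
          exact ((hk y).1 y.2).2
        · intro hx
          have h2 : ψ x = 0 := by
            rw [← hf, hx]; rfl
          exact ⟨⟨x, (hk x).2 ⟨x.2, h2⟩⟩, Subtype.ext rfl⟩)
    have hPL : ∀ a, ∀ (q : Ideal (Pol k n)) [q.IsPrime], g a ∉ q → PL (Pol k n) Z₁ q e :=
      fun a q _ hq => (hsyz q e).1 (h a q hq)
    exact hEL1 (Pol k n) (ι → Fr k n) (ι → Fr k n) W p g LinearMap.id
      (ψ.restrictScalars (Pol k n)) Z₁ (SB k n ι) Z (fun σ _ => hEx σ) j h1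
      (hFGF k n p g hg ι j h1 (by omega)) (ih (j + 1) (by omega) (by omega) (ι → Fr k n) Z₁ hZ₁ hPL)

end Pool.Agent.DBX.SRV
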