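import Pool.Agent.DBX.SRV.Stmts
import Pool.Agent.DBX.GEN.Stmts

/-!
# MP_2c751f_ag, area SRV, module FLS
-/

set_option autoImplicit false

universe u

namespace Pool.Agent.DBX.SRV

open MvPolynomial

theorem fls_proof (h : Pool.Agent.DBX.GEN.Stmt_FLT.{u}) : Stmt_FLS.{u} := by
  intro k _ n q' _ hb
  obtain ⟨b, hb⟩ := hb
  exact h k n q' b hb

end Pool.Agent.DBX.SRV
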