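import Pool.Agent.DBX.SRV.Stmts
import Pool.Agent.DBX.SRV.BCG

set_option autoImplicit false

namespace Pool.Agent.DBX.SRV

open MvPolynomial IsLocalRing RingTheory.Sequence CategoryTheory

universe u

theorem gdl_proof (_hPLI : Stmt_PLI.{u}) : Stmt_GDL.{u} := by
  intro A B _ _ _ M _ r h N _ _
  let _ : Module A N := Module.compHom N (algebraMap A B)
  have hst : IsScalarTower A B N := IsScalarTower.of_algebraMap_smul (fun _ _ => rfl)
  have hflat : Module.Flat A B := IsLocalization.flat B M
  have hl : IsLocalizedModule M (LinearMap.id : N →ₗ[A] N) := isLocalizedModule_id M N B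
  have hb : IsBaseChange B (LinearMap.id : N →ₗ[A] N) :=
    (isLocalizedModule_iff_isBaseChange M B _).mp hl
  exact bcg_proof A B N N LinearMap.id hb r (h N)

end Pool.Agent.DBX.SRV
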