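import Pool.Agent.DBX.SRV.Stmts

set_option autoImplicit false

/-! # DBX/SRV/GDP: the global dimension of a polynomial ring over a field -/

namespace Pool.Agent.DBX.SRV

open MvPolynomial IsLocalRing RingTheory.Sequence CategoryTheory

universe u

namespace GDP_

attribute [local instance] RingHomInvPair.of_ringEquiv in
theorem transport (R R' : Type u) [CommRing R] [CommRing R'] (e : R ≃+* R') (r : ℕ)
    (h : GD R r) : GD R' r := by
  intro N _ _
  let _ : Module R N := Module.compHom N e.toRingHom
  let M : ModuleCat.{u} R := ModuleCat.of R N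
  let e' : M ≃ₛₗ[RingHomClass.toRingHom e] (ModuleCat.of R' N) :=
    { toFun := fun x => x
      map_add' := fun _ _ => rfl
      map_smul' := fun _ _ => rfl
      invFun := fun x => x
      left_inv := fun _ => rfl
      right_inv := fun _ => rfl }
  have : HasProjectiveDimensionLE M r := h N
  exact ModuleCat.hasProjectiveDimensionLE_of_semiLinearEquiv e e' r

theorem field_case (K : Type u) [Field K] : GD K 0 := by
  intro M _ _
  show HasProjectiveDimensionLE (ModuleCat.of K M) 0
  simp only [HasProjectiveDimensionLE, zero_add]
  rw [← projective_iff_hasProjectiveDimensionLT_one, ← IsProjective.iff_projective]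
  exact Module.Projective.of_basis (Module.Basis.ofVectorSpace K M)

end GDP_

theorem gdp_proof (hGDX : Stmt_GDX.{u}) : Stmt_GDP.{u} := by
  intro K _ r
  induction r with
  | zero =>
    exact GDP_.transport K (MvPolynomial (Fin 0) K) (MvPolynomial.isEmptyRingEquiv K (Fin 0)).symm 0
      (GDP_.field_case K)
  | succ r ih =>
    exact GDP_.transport (Polynomial (MvPolynomial (Fin r) K)) (MvPolynomial (Fin (r + 1)) K)
      (MvPolynomial.finSuccEquiv K r).symm.toRingEquiv (r + 1) (hGDX _ r ih)

end Pool.Agent.DBX.SRV
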