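import Pool.Agent.DBX.SRV.Stmts

set_option autoImplicit false

/-! # MP_2c751f_ag, squad DBX, area SRV: module GDX (Hilbert's syzygy theorem, one variable) -/

namespace Pool.Agent.DBX.SRV

open CategoryTheory Limits TensorProduct Polynomial

universe u

namespace GDX_

section
variable (P A : Type u) [CommRing P] [CommRing A] [Algebra P A]

/-- base change of a short exact sequence along a flat algebra -/
theorem ses [Module.Flat P A] (T : ShortComplex (ModuleCat.{u} P)) (hT : T.ShortExact) :
    ∃ T' : ShortComplex (ModuleCat.{u} A), T'.ShortExact ∧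
      T'.X₁ = ModuleCat.of A (A ⊗[P] T.X₁) ∧ T'.X₂ = ModuleCat.of A (A ⊗[P] T.X₂) ∧
      T'.X₃ = ModuleCat.of A (A ⊗[P] T.X₃) := by
  have hi : Function.Injective T.f.hom := hT.moduleCat_injective_f
  have hs : Function.Surjective T.g.hom := hT.moduleCat_surjective_g
  have he : Function.Exact T.f.hom T.g.hom :=
    (ShortComplex.ShortExact.moduleCat_exact_iff_function_exact T).1 hT.exact
  have hi' : Function.Injective (T.f.hom.baseChange A) :=
    Module.Flat.lTensor_preserves_injective_linearMap (M := A) T.f.hom hi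
  have hs' : Function.Surjective (T.g.hom.baseChange A) := LinearMap.lTensor_surjective A hs
  have he' : Function.Exact (T.f.hom.baseChange A) (T.g.hom.baseChange A) :=
    Module.Flat.lTensor_exact A he
  let T' : ShortComplex (ModuleCat.{u} A) := ShortComplex.mk
    (ModuleCat.ofHom (T.f.hom.baseChange A)) (ModuleCat.ofHom (T.g.hom.baseChange A)) (by
      apply ModuleCat.hom_ext
      apply LinearMap.ext
      intro x
      exact (he' _).2 ⟨x, rfl⟩)
  refine ⟨T', { exact := ?_, mono_f := ?_, epi_g := ?_ }, rfl, rfl, rfl⟩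
  · exact (ShortComplex.ShortExact.moduleCat_exact_iff_function_exact T').2 he'
  · exact (ModuleCat.mono_iff_injective _).2 hi'
  · exact (ModuleCat.epi_iff_surjective _).2 hs'

theorem pd_bc [Module.Flat P A] (n : ℕ) : ∀ (M : ModuleCat.{u} P), HasProjectiveDimensionLE M n →
    HasProjectiveDimensionLE (ModuleCat.of A (A ⊗[P] M)) n := by
  induction n with
  | zero =>
    intro M h
    simp only [HasProjectiveDimensionLE, zero_add] at h ⊢
    rw [← projective_iff_hasProjectiveDimensionLT_one, ← IsProjective.iff_projective] at h ⊢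
    have : Module.Projective P M := h
    exact (inferInstance : Module.Projective A (A ⊗[P] M))
  | succ n ih =>
    intro M h
    obtain ⟨⟨Q, f⟩⟩ := (ModuleCat.enoughProjectives (R := P)).1 M
    let T := ShortComplex.mk (kernel.ι f) f (kernel.condition f)
    have T_exact : T.ShortExact := { exact := ShortComplex.exact_kernel f }
    obtain ⟨T', hT', e1, e2, e3⟩ := ses P A T T_exact
    have hQ : Projective (ModuleCat.of A (A ⊗[P] T.X₂)) := by
      rw [← IsProjective.iff_projective]
      have h1 : Module.Projective P T.X₂ := by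
        rw [IsProjective.iff_projective]
        exact inferInstanceAs (Projective Q)
      exact (inferInstance : Module.Projective A (A ⊗[P] T.X₂))
    have h2 := (T_exact.hasProjectiveDimensionLT_X₃_iff n (inferInstanceAs (Projective Q))).mp h
    have h3 := ih _ h2
    have h4 := (hT'.hasProjectiveDimensionLT_X₃_iff n (e2 ▸ hQ)).mpr (e1 ▸ h3)
    rw [e3] at h4
    exact h4

variable (M : Type u) [AddCommGroup M] [Module P M] [Module A M] [IsScalarTower P A M]

/-- the action map -/
noncomputable def act : A ⊗[P] M →ₗ[A] M := (LinearMap.id : M →ₗ[P] M).liftBaseChange A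

theorem act_tmul (a : A) (m : M) : act P A M (a ⊗ₜ m) = a • m :=
  LinearMap.liftBaseChange_tmul _ _ _ _

end

section
variable (A : Type u) [CommRing A] (M : Type u) [AddCommGroup M] [Module A M] [Module A[X] M]
  [IsScalarTower A A[X] M]

/-- multiplication by `X` on `M` -/
noncomputable def mX : M →ₗ[A] M := (LinearMap.lsmul A[X] M X).restrictScalars A

theorem mX_apply (m : M) : mX A M m = (X : A[X]) • m := rfl

/-- `b ⊗ m ↦ X b ⊗ m - b ⊗ X m` -/
noncomputable def ph : A[X] ⊗[A] M →ₗ[A[X]] A[X] ⊗[A] M :=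
  LinearMap.lsmul A[X] (A[X] ⊗[A] M) X - (mX A M).baseChange A[X]

theorem ph_tmul (b : A[X]) (m : M) :
    ph A M (b ⊗ₜ m) = (X * b) ⊗ₜ m - b ⊗ₜ ((X : A[X]) • m) := rfl

/-- the action map -/
noncomputable def pi' : A[X] ⊗[A] M →ₗ[A[X]] M := act A A[X] M

theorem pi_tmul (b : A[X]) (m : M) : pi' A M (b ⊗ₜ m) = b • m := act_tmul A A[X] M b m

theorem pi_ph (t : A[X] ⊗[A] M) : pi' A M (ph A M t) = 0 := by
  induction t using TensorProduct.induction_on with
  | zero => rw [map_zero, map_zero]
  | tmul b m => rw [ph_tmul, map_sub, pi_tmul, pi_tmul, smul_smul, mul_comm, sub_self]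
  | add x y hx hy => rw [map_add, map_add, hx, hy, add_zero]

theorem mem_range (t : A[X] ⊗[A] M) :
    t - (1 : A[X]) ⊗ₜ[A] (pi' A M t) ∈ LinearMap.range (ph A M) := by
  induction t using TensorProduct.induction_on with
  | zero =>
    rw [map_zero, TensorProduct.tmul_zero, sub_zero]
    exact Submodule.zero_mem _
  | tmul b m =>
    rw [pi_tmul]
    induction b using Polynomial.induction_on' generalizing m with
    | add p q hp hq =>
      have e : (p + q) ⊗ₜ[A] m - (1 : A[X]) ⊗ₜ[A] ((p + q) • m) =
        (p ⊗ₜ[A] m - (1 : A[X]) ⊗ₜ[A] (p • m)) + (q ⊗ₜ[A] m - (1 : A[X]) ⊗ₜ[A] (q • m)) := by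
        rw [TensorProduct.add_tmul, add_smul, TensorProduct.tmul_add]
        abel
      rw [e]
      exact Submodule.add_mem _ (hp m) (hq m)
    | monomial n a =>
      induction n generalizing m with
      | zero =>
        have e1 : (monomial 0 a : A[X]) = a • (1 : A[X]) := by
          rw [smul_eq_C_mul, mul_one]; rfl
        rw [e1, TensorProduct.smul_tmul, smul_assoc, one_smul, sub_self]
        exact Submodule.zero_mem _
      | succ n ih =>
        have e1 : (monomial (n + 1) a : A[X]) = X * monomial n a := by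
          rw [X_mul_monomial]
        have e2 : (monomial (n + 1) a : A[X]) ⊗ₜ[A] m -
            (1 : A[X]) ⊗ₜ[A] ((monomial (n + 1) a : A[X]) • m) =
            ph A M ((monomial n a : A[X]) ⊗ₜ[A] m) +
            ((monomial n a : A[X]) ⊗ₜ[A] ((X : A[X]) • m) -
              (1 : A[X]) ⊗ₜ[A] ((monomial n a : A[X]) • ((X : A[X]) • m))) := by
          rw [ph_tmul, e1, smul_smul, mul_comm (monomial n a) X]
          abel
        rw [e2]
        exact Submodule.add_mem _ ⟨_, rfl⟩ (ih _)
  | add x y hx hy =>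
    have e : (x + y) - (1 : A[X]) ⊗ₜ[A] (pi' A M (x + y)) =
      (x - (1 : A[X]) ⊗ₜ[A] (pi' A M x)) + (y - (1 : A[X]) ⊗ₜ[A] (pi' A M y)) := by
      rw [map_add, TensorProduct.tmul_add]
      abel
    rw [e]
    exact Submodule.add_mem _ hx hy

/-- the coefficient of `X^n` -/
noncomputable def cf (n : ℕ) : A[X] ⊗[A] M →ₗ[A] M :=
  TensorProduct.lift ((LinearMap.lsmul A M).comp (lcoeff A n))

theorem cf_tmul (n : ℕ) (b : A[X]) (m : M) : cf A M n (b ⊗ₜ m) = b.coeff n • m := rfl

theorem cf_ph (n : ℕ) (t : A[X] ⊗[A] M) :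
    cf A M (n + 1) (ph A M t) = cf A M n t - (X : A[X]) • cf A M (n + 1) t := by
  induction t using TensorProduct.induction_on with
  | zero => simp
  | tmul b m =>
    rw [ph_tmul, map_sub, cf_tmul, cf_tmul, cf_tmul, cf_tmul, coeff_X_mul, smul_comm]
  | add x y hx hy =>
    rw [map_add, map_add, hx, hy, map_add, map_add, smul_add]
    abel

theorem cf_sum (t : A[X] ⊗[A] M) : ∃ N : ℕ, ∀ k, N ≤ k → cf A M k t = 0 ∧
    t = ∑ n ∈ Finset.range k, ((X : A[X]) ^ n) ⊗ₜ[A] cf A M n t := by
  induction t using TensorProduct.induction_on with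
  | zero => exact ⟨0, fun k _ => ⟨map_zero _, by simp⟩⟩
  | tmul b m =>
    refine ⟨b.natDegree + 1, fun k hk => ⟨?_, ?_⟩⟩
    · rw [cf_tmul, coeff_eq_zero_of_natDegree_lt (by omega), zero_smul]
    · have h1 : b = ∑ n ∈ Finset.range k, b.coeff n • (X : A[X]) ^ n := by
        conv_lhs => rw [b.as_sum_range' k (by omega)]
        refine Finset.sum_congr rfl (fun n _ => ?_)
        rw [smul_eq_C_mul, C_mul_X_pow_eq_monomial]
      conv_lhs => rw [h1]
      rw [TensorProduct.sum_tmul]
      refine Finset.sum_congr rfl (fun n _ => ?_)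
      rw [TensorProduct.smul_tmul]
      rfl
  | add x y hx hy =>
    obtain ⟨N, hN⟩ := hx
    obtain ⟨N', hN'⟩ := hy
    refine ⟨max N N', fun k hk => ?_⟩
    obtain ⟨h1, h2⟩ := hN k (le_trans (le_max_left _ _) hk)
    obtain ⟨h3, h4⟩ := hN' k (le_trans (le_max_right _ _) hk)
    refine ⟨by rw [map_add, h1, h3, add_zero], ?_⟩
    conv_lhs => rw [h2, h4]
    rw [← Finset.sum_add_distrib]
    refine Finset.sum_congr rfl (fun n _ => ?_)
    rw [map_add, TensorProduct.tmul_add]

theorem ph_inj : Function.Injective (ph A M) := by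
  rw [injective_iff_map_eq_zero]
  intro t ht
  obtain ⟨N, hN⟩ := cf_sum A M t
  have h1 : ∀ n, cf A M n t = (X : A[X]) • cf A M (n + 1) t := by
    intro n
    have := cf_ph A M n t
    rw [ht, map_zero] at this
    exact (sub_eq_zero.1 this.symm)
  have h2 : ∀ d n : ℕ, N ≤ n + d → cf A M n t = 0 := by
    intro d
    induction d with
    | zero => intro n hn; exact (hN n hn).1
    | succ d ih =>
      intro n hn
      rw [h1 n, ih (n + 1) (by omega), smul_zero]
  rw [(hN N le_rfl).2]
  refine Finset.sum_eq_zero (fun n _ => ?_)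
  rw [h2 N n (by omega), TensorProduct.tmul_zero]

theorem exact : Function.Exact (ph A M) (pi' A M) := by
  intro t
  constructor
  · intro h
    have h1 := mem_range A M t
    rw [h, TensorProduct.tmul_zero, sub_zero] at h1
    exact h1
  · rintro ⟨s, rfl⟩
    exact pi_ph A M s

theorem surj : Function.Surjective (pi' A M) := fun m =>
  ⟨(1 : A[X]) ⊗ₜ m, by rw [pi_tmul, one_smul]⟩

end

end GDX_

open GDX_ in
theorem gdx_proof : Stmt_GDX.{u} := by
  intro A _ r h M _ _
  let : Module A M := Module.compHom M (algebraMap A A[X])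
  have : IsScalarTower A A[X] M := ⟨fun a b c => by rw [Algebra.smul_def, mul_smul]; rfl⟩
  have h1 := pd_bc A A[X] r (ModuleCat.of A M) (h _)
  let T : ShortComplex (ModuleCat.{u} A[X]) := ShortComplex.mk
    (X₁ := ModuleCat.of A[X] (A[X] ⊗[A] M)) (X₂ := ModuleCat.of A[X] (A[X] ⊗[A] M))
    (X₃ := ModuleCat.of A[X] M)
    (ModuleCat.ofHom (ph A M)) (ModuleCat.ofHom (pi' A M)) (by
      apply ModuleCat.hom_ext
      apply LinearMap.ext
      intro x
      exact pi_ph A M x)
  have hT : T.ShortExact :=
    { exact := (ShortComplex.ShortExact.moduleCat_exact_iff_function_exact T).2 (exact A M)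
      mono_f := (ModuleCat.mono_iff_injective _).2 (ph_inj A M)
      epi_g := (ModuleCat.epi_iff_surjective _).2 (surj A M) }
  have h2 : HasProjectiveDimensionLT (ModuleCat.of A[X] (A[X] ⊗[A] M)) (r + 1) := h1
  have h3 : HasProjectiveDimensionLT (ModuleCat.of A[X] (A[X] ⊗[A] M)) (r + 1 + 1) :=
    hasProjectiveDimensionLT_of_ge _ (r + 1) (r + 1 + 1) (by omega)
  exact hT.hasProjectiveDimensionLT_X₃ (r + 1) h2 h3

end Pool.Agent.DBX.SRV
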