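import Pool.Agent.DBX.SRV.Stmts

set_option autoImplicit false

namespace Pool.Agent.DBX.SRV

open MvPolynomial IsLocalRing RingTheory.Sequence CategoryTheory

noncomputable section

universe u

namespace GLQ_

theorem mono (A : Type u) [CommRing A] (r s : ℕ) (h : r ≤ s) (hA : GD A r) : GD A s := by
  intro M _ _
  have h1 : HasProjectiveDimensionLT (ModuleCat.of A M) (r + 1) := hA M
  exact hasProjectiveDimensionLT_of_ge (ModuleCat.of A M) (r + 1) (s + 1) (by omega)

theorem transport (hGDL : Stmt_GDL.{u}) (A B : Type u) [CommRing A] [CommRing B] (e : A ≃+* B)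
    (r : ℕ) (hA : GD A r) : GD B r := by
  letI : Algebra A B := (e : A →+* B).toAlgebra
  have : IsLocalization (⊥ : Submonoid A) B := by
    refine ⟨?_, ?_, ?_⟩
    · rintro ⟨y, hy⟩
      rw [Submonoid.mem_bot] at hy
      subst hy
      rw [map_one]
      exact isUnit_one
    · intro z
      refine ⟨(e.symm z, 1), ?_⟩
      change z * algebraMap A B 1 = e (e.symm z)
      rw [map_one, mul_one, e.apply_symm_apply]
    · intro x y hxy
      refine ⟨1, ?_⟩
      have hxy' : e x = e y := hxy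
      rw [e.injective hxy']
  exact hGDL A B ⊥ r hA

end GLQ_

theorem glq_proof (hTRB : Stmt_TRB.{u}) (hGDP : Stmt_GDP.{u}) (hGDL : Stmt_GDL.{u}) :
    Stmt_GLQ.{u} := by
  intro k _ n q _ h hh
  obtain ⟨h0, K, _, Q, _, hq, ⟨e⟩⟩ := hTRB k n q
  have h1 : GD (Localization.AtPrime Q) h0 :=
    hGDL _ _ Q.primeCompl h0 (hGDP K h0)
  have h2 := GLQ_.transport hGDL _ _ e.symm h0 h1
  rw [hq] at hh
  exact GLQ_.mono _ h0 h (by exact_mod_cast hh) h2

end

end Pool.Agent.DBX.SRV
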