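import Pool.Agent.DBX.SRV.Stmts

set_option autoImplicit false

namespace Pool.Agent.DBX.SRV

open MvPolynomial IsLocalRing RingTheory.Sequence

universe u

namespace HAR_

theorem div_pow {A : Type u} [CommRing A] {x y : A} (hx : ∀ c : A, x * c = 0 → c = 0)
    (hy : ∀ c d : A, y * c = x * d → ∃ e, c = x * e) (n : ℕ) :
    ∀ c d : A, y * c = x ^ n * d → ∃ e, c = x ^ n * e := by
  induction n with
  | zero => intro c d _; exact ⟨c, by simp⟩
  | succ n ih =>
    intro c d h
    obtain ⟨c', hc'⟩ := hy c (x ^ n * d) (by rw [h]; ring)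
    have h2 : x * (y * c' - x ^ n * d) = 0 := by
      have : y * (x * c') = x ^ (n + 1) * d := by rw [← hc', h]
      linear_combination this
    have h3 := hx _ h2
    obtain ⟨e, he⟩ := ih c' d (by linear_combination h3)
    exact ⟨e, by rw [hc', he]; ring⟩

theorem div_pow2 {A : Type u} [CommRing A] {x y : A} (n : ℕ)
    (hy : ∀ c d : A, y * c = x ^ n * d → ∃ e, c = x ^ n * e) (m : ℕ) :
    ∀ c d : A, y ^ m * c = x ^ n * d → ∃ e, c = x ^ n * e := by
  induction m with
  | zero => intro c d h; exact ⟨d, by simpa using h⟩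
  | succ m ih =>
    intro c d h
    obtain ⟨e, he⟩ := hy (y ^ m * c) d (by rw [← h]; ring)
    exact ih c e he

theorem pow_reg {A : Type u} [CommRing A] {x : A} (hx : ∀ c : A, x * c = 0 → c = 0) (n : ℕ) :
    ∀ c : A, x ^ n * c = 0 → c = 0 := by
  induction n with
  | zero => intro c h; simpa using h
  | succ n ih =>
    intro c h
    exact ih c (hx _ (by rw [← h]; ring))

end HAR_

theorem har_proof : Stmt_HAR.{u} := by
  intro A _ _ _ a b x y _hx _hy hreg hab hrad ha hb
  have hx0 : ∀ c : A, x * c = 0 → c = 0 := by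
    have h1 : IsSMulRegular A x := (isWeaklyRegular_cons_iff A x [y]).1 hreg |>.1
    intro c hc
    exact h1.right_eq_zero_of_smul (by simpa using hc)
  have hy0 : ∀ c d : A, y * c = x * d → ∃ e, c = x * e := by
    have h1 := (isWeaklyRegular_cons_iff A x [y]).1 hreg |>.2
    have h2 := ((isWeaklyRegular_cons_iff _ y []).1 h1).1
    intro c d h
    have h3 : y • (Submodule.Quotient.mk c : QuotSMulTop x A) = 0 := by
      rw [← Submodule.Quotient.mk_smul, Submodule.Quotient.mk_eq_zero]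
      rw [Submodule.mem_smul_pointwise_iff_exists]
      exact ⟨d, Submodule.mem_top, by simp [h]⟩
    have h4 := h2.right_eq_zero_of_smul h3
    rw [Submodule.Quotient.mk_eq_zero, Submodule.mem_smul_pointwise_iff_exists] at h4
    obtain ⟨e, _, he⟩ := h4
    exact ⟨e, by simpa using he.symm⟩
  obtain ⟨M, hM⟩ := IsNoetherianRing.isNilpotent_nilradical A
  have hab2 : (a ^ (M + 1)) * (b ^ (M + 1)) = ⊥ := by
    rw [← mul_pow, eq_bot_iff]
    calc (a * b) ^ (M + 1) ≤ (nilradical A) ^ (M + 1) :=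
          Ideal.pow_right_mono (Ideal.mul_le_inf.trans hab) _
      _ ≤ ⊥ := by rw [pow_succ, hM]; simp
  have hmul : ∀ z ∈ a ^ (M + 1), ∀ w ∈ b ^ (M + 1), z * w = 0 := by
    intro z hz w hw
    have := Ideal.mul_mem_mul hz hw
    rw [hab2] at this
    simpa using this
  have hrad2 : (a ⊔ b).radical ≤ (a ^ (M + 1) ⊔ b ^ (M + 1)).radical := by
    rw [Ideal.radical_sup (a ^ (M + 1)), Ideal.radical_pow a (Nat.succ_ne_zero M),
      Ideal.radical_pow b (Nat.succ_ne_zero M), ← Ideal.radical_sup]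
  obtain ⟨N, hN⟩ := hrad2 (hrad _hx)
  obtain ⟨N', hN'⟩ := hrad2 (hrad _hy)
  obtain ⟨a1, ha1, a2, ha2, hxe⟩ := Submodule.mem_sup.1 hN
  obtain ⟨b1, hb1, b2, hb2, hye⟩ := Submodule.mem_sup.1 hN'
  have e1 : y ^ N' * a1 = x ^ N * b1 := by
    rw [← hxe, ← hye]
    have q1 := hmul a1 ha1 b2 hb2
    have q2 := hmul b1 hb1 a2 ha2
    linear_combination q1 - q2
  obtain ⟨u, hu⟩ := HAR_.div_pow2 N (HAR_.div_pow hx0 hy0 N) N' a1 b1 e1
  have hxN : ∀ c : A, x ^ N * c = 0 → c = 0 := HAR_.pow_reg hx0 N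
  have h2 : a2 = x ^ N * (1 - u) := by linear_combination hxe - hu
  have h3 : u * (1 - u) = 0 := by
    have := hmul a1 ha1 a2 ha2
    apply hxN; apply hxN
    rw [hu, h2] at this
    linear_combination this
  have hle : ∀ (I : Ideal A), I ^ (M + 1) ≤ I := fun I => Ideal.pow_le_self (Nat.succ_ne_zero M)
  have hnz : x ^ N ∈ nonZeroDivisors A := by
    rw [mem_nonZeroDivisors_iff_right]
    intro c hc
    exact hxN c (by rw [mul_comm]; exact hc)
  rcases IsLocalRing.isUnit_or_isUnit_of_add_one (a := u) (b := 1 - u) (by ring) with h | h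
  · have h4 : 1 - u = 0 := by
      have := h.mul_right_eq_zero.1 h3
      exact this
    refine ha (x ^ N) ?_ hnz
    have : x ^ N = a1 := by rw [← hxe, h2, h4]; ring
    rw [this]; exact hle a ha1
  · have h4 : u = 0 := by
      rw [mul_comm] at h3
      exact h.mul_right_eq_zero.1 h3
    refine hb (x ^ N) ?_ hnz
    have : x ^ N = a2 := by rw [h2, h4]; ring
    rw [this]; exact hle b ha2

end Pool.Agent.DBX.SRV
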