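import Pool.Agent.DBX.SRV.Stmts

set_option autoImplicit false

namespace Pool.Agent.DBX.SRV

open MvPolynomial IsLocalRing RingTheory.Sequence CategoryTheory

universe u

namespace HMJ_

theorem aeval_hom {k : Type u} [Field k] {n : ℕ} (c : k) (d : ℕ) (h : Pol k n)
    (hh : h.IsHomogeneous d) :
    MvPolynomial.aeval (fun i => (C c * X i : Pol k n)) h = c ^ d • h := by
  rw [aeval_def, eval₂_eq']
  conv_rhs => rw [h.as_sum, Finset.smul_sum]
  refine Finset.sum_congr rfl (fun α hα => ?_)
  have h1 : ∑ i, α i = d := by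
    have h2 := hh (mem_support_iff.1 hα)
    rw [← h2]
    simp [Finsupp.weight_apply, Finsupp.sum_fintype]
  have h3 : ∏ i, (C c * X i : Pol k n) ^ α i = C (c ^ d) * ∏ i, (X i : Pol k n) ^ α i := by
    simp only [mul_pow]
    rw [Finset.prod_mul_distrib, Finset.prod_pow_eq_pow_sum, h1, C_pow]
  rw [h3, monomial_eq, Finsupp.prod_fintype _ _ (fun i => pow_zero _), smul_eq_C_mul]
  rw [algebraMap_eq]
  ring

end HMJ_

open HMJ_ in
theorem hmj_proof : Stmt_HMJ.{u} := by
  intro k _ _ n J hJ w hw d
  set N := w.totalDegree + 1 with hN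
  rcases Nat.lt_or_ge d N with hd | hd
  · let v : Fin N → k := fun i => ((i : ℕ) : k) + 1
    have hvne : ∀ i, v i ≠ 0 := fun i => Nat.cast_add_one_ne_zero _
    have hinj : Function.Injective v := by
      intro i j hij
      have h1 : ((i : ℕ) : k) = ((j : ℕ) : k) := add_right_cancel hij
      exact Fin.ext (Nat.cast_injective h1)
    set M := Matrix.vandermonde v with hM
    have hdet : IsUnit M.det := isUnit_iff_ne_zero.2 (Matrix.det_vandermonde_ne_zero_iff.2 hinj)
    have hinv : M⁻¹ * M = 1 := Matrix.nonsing_inv_mul M hdet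
    have hsum : w = ∑ j : Fin N, homogeneousComponent (j : ℕ) w := by
      rw [Finset.sum_fin_eq_sum_range]
      conv_lhs => rw [← sum_homogeneousComponent w]
      refine Finset.sum_congr rfl (fun i hi => ?_)
      rw [dif_pos (Finset.mem_range.1 hi)]
    have hphi : ∀ c : k, MvPolynomial.aeval (fun i => (C c * X i : Pol k n)) w =
        ∑ j : Fin N, c ^ (j : ℕ) • homogeneousComponent (j : ℕ) w := by
      intro c
      conv_lhs => rw [hsum, map_sum]
      exact Finset.sum_congr rfl (fun j _ =>
        aeval_hom c j _ (homogeneousComponent_isHomogeneous _ _))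
    have key : homogeneousComponent d w = ∑ i : Fin N, M⁻¹ ⟨d, hd⟩ i •
        MvPolynomial.aeval (fun l => (C (v i) * X l : Pol k n)) w := by
      have h1 : homogeneousComponent d w =
          ∑ j : Fin N, (1 : Matrix (Fin N) (Fin N) k) ⟨d, hd⟩ j •
            homogeneousComponent (j : ℕ) w := by
        rw [Finset.sum_eq_single (⟨d, hd⟩ : Fin N)]
        · rw [Matrix.one_apply_eq, one_smul]
        · intro j _ hj
          rw [Matrix.one_apply_ne hj.symm, zero_smul]
        · intro h
          exact absurd (Finset.mem_univ _) h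
      rw [h1, ← hinv]
      simp only [Matrix.mul_apply, Finset.sum_smul, hphi, Finset.smul_sum, smul_smul]
      rw [Finset.sum_comm]
      refine Finset.sum_congr rfl (fun i _ => Finset.sum_congr rfl (fun j _ => ?_))
      rw [hM, Matrix.vandermonde_apply]
    rw [key]
    refine J.sum_mem (fun i _ => ?_)
    rw [smul_eq_C_mul]
    exact J.mul_mem_left _ (hJ (v i) (hvne i) w hw)
  · rw [homogeneousComponent_eq_zero d w (by omega)]
    exact J.zero_mem

end Pool.Agent.DBX.SRV
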