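import Pool.Agent.DBX.SRV.Stmts

set_option autoImplicit false

namespace Pool.Agent.DBX.SRV

open MvPolynomial IsLocalRing RingTheory.Sequence CategoryTheory

universe u

namespace HVB_

theorem cd_apply {V : Type*} [LinearOrder V] {ι : Type*} {M : Type*} [AddCommGroup M]
    (x : Finset V → ι → M) (σ : Finset V) (i : ι) : cd x σ i = cd (fun s => x s i) σ := by
  unfold cd
  rw [Finset.sum_apply]
  rfl

variable {k : Type u} [Field k] {n p : ℕ} (g : Fin p → Pol k n) (ι : Type)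

theorem loc_apply {x : ι → Fr k n} {σ : Finset (Fin p)} (h : x ∈ loc g (SB k n ι) σ) (i : ι) :
    x i ∈ loc g (IF (⊤ : Ideal (Pol k n))) σ := by
  obtain ⟨e, he⟩ := h
  exact ⟨e, he i⟩

theorem loc_of_apply [Fintype ι] {x : ι → Fr k n} {σ : Finset (Fin p)}
    (h : ∀ i, x i ∈ loc g (IF (⊤ : Ideal (Pol k n))) σ) : x ∈ loc g (SB k n ι) σ := by
  choose e he using h
  refine ⟨∑ i, e i, fun i => ?_⟩
  have h1 : (∏ a ∈ σ, g a) ^ (∑ i, e i) =
      (∏ a ∈ σ, g a) ^ ((∑ i, e i) - e i) * (∏ a ∈ σ, g a) ^ e i := by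
    rw [← pow_add]
    congr 1
    have := Finset.single_le_sum (fun j _ => Nat.zero_le (e j)) (Finset.mem_univ i)
    omega
  rw [Pi.smul_apply, h1, mul_smul]
  exact Submodule.smul_mem _ _ (he i)

theorem bot_apply {x : ι → Fr k n} {σ : Finset (Fin p)}
    (h : x ∈ loc g (⊥ : Submodule (Pol k n) (ι → Fr k n)) σ) (i : ι) :
    x i ∈ loc g (⊥ : Submodule (Pol k n) (Fr k n)) σ := by
  obtain ⟨e, he⟩ := h
  refine ⟨e, ?_⟩
  rw [Submodule.mem_bot] at he ⊢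
  exact congrFun he i

theorem bot_of_apply [Fintype ι] {x : ι → Fr k n} {σ : Finset (Fin p)}
    (h : ∀ i, x i ∈ loc g (⊥ : Submodule (Pol k n) (Fr k n)) σ) :
    x ∈ loc g (⊥ : Submodule (Pol k n) (ι → Fr k n)) σ := by
  choose e he using h
  refine ⟨∑ i, e i, ?_⟩
  rw [Submodule.mem_bot]
  funext i
  have h1 : (∏ a ∈ σ, g a) ^ (∑ i, e i) =
      (∏ a ∈ σ, g a) ^ ((∑ i, e i) - e i) * (∏ a ∈ σ, g a) ^ e i := by
    rw [← pow_add]
    congr 1
    have := Finset.single_le_sum (fun j _ => Nat.zero_le (e j)) (Finset.mem_univ i)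
    omega
  rw [Pi.smul_apply, h1, mul_smul, (Submodule.mem_bot _).1 (he i), smul_zero]
  rfl

end HVB_

theorem hvb_proof (hHVS : Stmt_HVS.{u}) : Stmt_HVB.{u} := by
  intro k _ n p g hg j hj ι _ x hx hcd
  have key : ∀ i : ι, ∃ y : Finset (Fin p) → Fr k n,
      (∀ σ, y σ ∈ loc g (IF (⊤ : Ideal (Pol k n))) σ) ∧ (∀ σ, σ.card + 1 ≠ j → y σ = 0) ∧
      ∀ σ, x σ i - cd y σ ∈ loc g (⊥ : Submodule (Pol k n) (Fr k n)) σ := by
    intro i
    refine hHVS k n p g hg j hj (fun σ => x σ i) ⟨fun σ => ?_, fun σ hσ => ?_⟩ (fun σ => ?_)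
    · exact HVB_.loc_apply g ι (hx.1 σ) i
    · show x σ i = 0
      rw [hx.2 σ hσ]
      rfl
    · rw [← HVB_.cd_apply]
      exact HVB_.bot_apply g ι (hcd σ) i
  choose y h1 h2 h3 using key
  refine ⟨fun σ i => y i σ, fun σ => ?_, fun σ hσ => ?_, fun σ => ?_⟩
  · exact HVB_.loc_of_apply g ι (fun i => h1 i σ)
  · funext i
    exact h2 i σ hσ
  · apply HVB_.bot_of_apply g ι
    intro i
    rw [Pi.sub_apply, HVB_.cd_apply]
    exact h3 i σ

end Pool.Agent.DBX.SRV
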