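import Pool.Agent.DBX.SRV.Stmts
import Pool.Agent.DBX.CMD.Stmts

/-! # MP_2c751f_ag, squad DBX, area SRV: HVS -/

set_option autoImplicit false

namespace Pool.Agent.DBX.SRV

open MvPolynomial IsLocalRing RingTheory.Sequence CategoryTheory

universe u

namespace HVS_

variable {k : Type u} [Field k] {n p : ℕ}

/-- the ideal of the variables with index below `i` -/
noncomputable def J (k : Type u) [Field k] (n : ℕ) (i : ℕ) : Ideal (Pol k n) :=
  Ideal.span (X '' {l : Fin n | (l : ℕ) < i})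

/-- the variable with index `i` -/
noncomputable def av (k : Type u) [Field k] (n : ℕ) (i : ℕ) : Pol k n :=
  if h : i < n then X ⟨i, h⟩ else 0

theorem J_zero : J k n 0 = ⊥ := by
  unfold J
  have h : {l : Fin n | (l : ℕ) < 0} = ∅ := by
    ext l
    simp
  rw [h, Set.image_empty, Ideal.span_empty]

theorem J_mono (i : ℕ) : J k n i ≤ J k n (i + 1) := by
  refine Ideal.span_mono (Set.image_mono ?_)
  intro l hl
  exact lt_trans hl (Nat.lt_succ_self i)

theorem av_mem (i : ℕ) (hi : i < n) : av k n i ∈ J k n (i + 1) := by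
  unfold av
  rw [dif_pos hi]
  exact Ideal.subset_span ⟨⟨i, hi⟩, Nat.lt_succ_self i, rfl⟩

theorem J_reg (i : ℕ) (hi : i < n) (w : Pol k n) (h : av k n i * w ∈ J k n i) :
    w ∈ J k n i := by
  unfold av at h
  rw [dif_pos hi] at h
  unfold J at h ⊢
  rw [MvPolynomial.mem_ideal_span_X_image] at h ⊢
  intro m hm
  have hm' : m + Finsupp.single ⟨i, hi⟩ 1 ∈ (X ⟨i, hi⟩ * w : Pol k n).support := by
    rw [MvPolynomial.mem_support_iff, mul_comm, MvPolynomial.coeff_mul_X]
    exact MvPolynomial.mem_support_iff.1 hm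
  obtain ⟨l, hl, hne⟩ := h _ hm'
  refine ⟨l, hl, ?_⟩
  have hli : (⟨i, hi⟩ : Fin n) ≠ l := by
    intro hc
    have h1 : (l : ℕ) < i := hl
    rw [← hc] at h1
    exact lt_irrefl _ h1
  rw [Finsupp.add_apply, Finsupp.single_eq_of_ne hli.symm, add_zero] at hne
  exact hne

theorem J_succ (i : ℕ) (hi : i < n) (w : Pol k n) (h : w ∈ J k n (i + 1)) :
    ∃ v, w - av k n i * v ∈ J k n i := by
  unfold J at h
  have hset : {l : Fin n | (l : ℕ) < i + 1} = insert ⟨i, hi⟩ {l : Fin n | (l : ℕ) < i} := by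
    ext l
    constructor
    · intro hl
      rcases Nat.lt_succ_iff_lt_or_eq.1 hl with h1 | h1
      · exact Set.mem_insert_of_mem _ h1
      · exact Set.mem_insert_iff.2 (Or.inl (Fin.ext h1))
    · intro hl
      rcases Set.mem_insert_iff.1 hl with h1 | h1
      · show (l : ℕ) < i + 1
        rw [h1]
        exact Nat.lt_succ_self i
      · exact lt_trans h1 (Nat.lt_succ_self i)
  rw [hset, Set.image_insert_eq, Ideal.mem_span_insert] at h
  obtain ⟨a, z, hz, hw⟩ := h
  refine ⟨a, ?_⟩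
  have h2 : w - av k n i * a = z := by
    unfold av
    rw [dif_pos hi, hw]
    ring
  rw [h2]
  exact hz

theorem span_rad (g : Fin p → Pol k n) (hg : Lin g) (i : ℕ) (hi : i < n) :
    av k n i ∈ (Ideal.span (Set.range g)).radical := by
  refine Ideal.le_radical ?_
  unfold av
  rw [dif_pos hi]
  have h1 := hg.span ⟨i, hi⟩
  have h2 : Submodule.span k (Set.range g) ≤
      (Ideal.span (Set.range g)).restrictScalars k := by
    rw [Submodule.span_le]
    exact Ideal.subset_span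
  exact h2 h1

theorem prod_ne (g : Fin p → Pol k n) (hg : Lin g) (σ : Finset (Fin p)) :
    (∏ a ∈ σ, g a) ≠ 0 := Finset.prod_ne_zero_iff.2 (fun a _ => hg.ne a)

theorem mem_top_iff (g : Fin p → Pol k n) (σ : Finset (Fin p)) (z : Fr k n) :
    z ∈ CMD.LJ g (⊤ : Ideal (Pol k n)) σ ↔ z ∈ loc g (IF (⊤ : Ideal (Pol k n))) σ := by
  constructor
  · rintro ⟨N, w, hw, h⟩
    refine ⟨N, ?_⟩
    refine ⟨w, hw, ?_⟩
    rw [Algebra.smul_def]
    exact h.symm
  · rintro ⟨N, w, hw, h⟩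
    refine ⟨N, w, hw, ?_⟩
    rw [Algebra.smul_def] at h
    exact h.symm

theorem mem_bot_left (g : Fin p → Pol k n) (hg : Lin g) (σ : Finset (Fin p)) (z : Fr k n)
    (h : z ∈ CMD.LJ g (⊥ : Ideal (Pol k n)) σ) : z = 0 := by
  obtain ⟨N, w, hw, h⟩ := h
  have hw0 : w = 0 := hw
  rw [hw0, map_zero] at h
  rcases mul_eq_zero.1 h with h1 | h1
  · exact absurd h1 (inc_ne (pow_ne_zero N (prod_ne g hg σ)))
  · exact h1

theorem mem_bot_right (g : Fin p → Pol k n) (hg : Lin g) (σ : Finset (Fin p)) (z : Fr k n)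
    (h : z ∈ loc g (⊥ : Submodule (Pol k n) (Fr k n)) σ) : z = 0 := by
  obtain ⟨N, h⟩ := h
  have h0 : (∏ a ∈ σ, g a) ^ N • z = 0 := h
  rw [Algebra.smul_def] at h0
  rcases mul_eq_zero.1 h0 with h1 | h1
  · exact absurd h1 (inc_ne (pow_ne_zero N (prod_ne g hg σ)))
  · exact h1

end HVS_

open HVS_ in
theorem hvs_proof (hRSQ : Pool.Agent.DBX.CMD.Stmt_RSQ.{u, u}) : Stmt_HVS.{u} := by
  intro k _ n p g hg j hj x hx hcd
  obtain ⟨s, hs, y, hy1, hy2, hy3⟩ := hRSQ (Pol k n) (Fr k n) p g hg.ne ⊥ n (J k n) (av k n)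
    (fun i hi => span_rad g hg i hi) (fun i _ => J_mono i) (fun i hi => av_mem i hi)
    (fun i hi w h => J_reg i hi w h)
    (fun i hi w h => by
      obtain ⟨v, hv⟩ := J_succ i hi w h
      refine ⟨1, Submonoid.one_mem _, v, ?_⟩
      rw [one_mul]
      exact hv) j hj x (fun σ => (mem_top_iff g σ _).2 (hx.1 σ)) hx.2
    (fun σ => by
      have h0 : cd x σ = 0 := mem_bot_right g hg σ _ (hcd σ)
      rw [h0]
      exact Submodule.zero_mem _)
  have hs1 : s = 1 := (Submonoid.mem_bot).1 hs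
  refine ⟨y, fun σ => (mem_top_iff g σ _).1 (hy1 σ), hy2, fun σ => ?_⟩
  have h3 := hy3 σ
  rw [J_zero] at h3
  have h4 := mem_bot_left g hg σ _ h3
  rw [hs1, map_one, one_mul] at h4
  rw [h4]
  exact Submodule.zero_mem _

end Pool.Agent.DBX.SRV
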