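import Pool.Agent.DBX.SRV.Stmts

set_option autoImplicit false

namespace Pool.Agent.DBX.SRV

open MvPolynomial IsLocalRing RingTheory.Sequence CategoryTheory

universe u

namespace INP_

variable (k : Type u) [Field k] (n : ℕ)

theorem th_castSucc (i : Fin n) : th k n (X i.castSucc) = X i := by
  simp only [th, bcP, secP, RingHom.comp_apply, RingHom.coe_coe, map_X, aeval_X,
    Fin.snoc_castSucc]

theorem th_last : th k n (X (Fin.last n)) = ∑ i, C (vv k n i) * X i := by
  simp only [th, bcP, secP, RingHom.comp_apply, RingHom.coe_coe, map_X, aeval_X,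
    Fin.snoc_last]

theorem th_C (c : k) : th k n (C c) = C (algebraMap k (Kx k n) c) := by
  simp only [th, bcP, secP, RingHom.comp_apply, RingHom.coe_coe, map_C, aeval_C,
    MvPolynomial.algebraMap_eq]

theorem th_eval₂ (w : Pol k (n + 1)) : th k n w =
    eval₂ ((C : Kx k n →+* Pol (Kx k n) n).comp (algebraMap k (Kx k n)))
      (fun i => th k n (X i)) w := by
  have h : th k n = eval₂Hom ((C : Kx k n →+* Pol (Kx k n) n).comp (algebraMap k (Kx k n)))
      (fun i => th k n (X i)) := by
    apply MvPolynomial.ringHom_ext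
    · intro c
      rw [th_C, coe_eval₂Hom, eval₂_C]
      rfl
    · intro i
      rw [coe_eval₂Hom, eval₂_X]
  exact DFunLike.congr_fun h w

theorem th_X_hom (i : Fin (n + 1)) : (th k n (X i)).IsHomogeneous 1 := by
  refine Fin.lastCases ?_ (fun j => ?_) i
  · rw [th_last]
    apply IsHomogeneous.sum
    intro j _
    have h := (isHomogeneous_C (Fin n) (vv k n j)).mul (isHomogeneous_X (Kx k n) j)
    rwa [zero_add] at h
  · rw [th_castSucc]
    exact isHomogeneous_X _ _

theorem th_hom {d : ℕ} {w : Pol k (n + 1)} (hw : w.IsHomogeneous d) :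
    (th k n w).IsHomogeneous d := by
  rw [th_eval₂]
  have h := hw.eval₂ ((C : Kx k n →+* Pol (Kx k n) n).comp (algebraMap k (Kx k n)))
    (fun i => th k n (X i)) (fun r => isHomogeneous_C _ _) (fun i => th_X_hom k n i)
  rwa [one_mul] at h

theorem th_comp (d : ℕ) (w : Pol k (n + 1)) :
    th k n (homogeneousComponent d w) = homogeneousComponent d (th k n w) := by
  have h1 : th k n w = ∑ i ∈ Finset.range (w.totalDegree + 1),
      th k n (homogeneousComponent i w) := by
    conv_lhs => rw [← sum_homogeneousComponent w]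
    rw [map_sum]
  rw [h1, map_sum]
  have h2 : ∀ i, homogeneousComponent d (th k n (homogeneousComponent i w)) =
      if d = i then th k n (homogeneousComponent i w) else 0 := by
    intro i
    exact homogeneousComponent_of_mem (th_hom k n (homogeneousComponent_isHomogeneous i w))
  simp only [h2]
  rw [Finset.sum_ite_eq]
  split_ifs with h
  · rfl
  · rw [Finset.mem_range, not_lt] at h
    rw [homogeneousComponent_eq_zero d w (by omega), map_zero]

theorem mem_of_hom1 {m : ℕ} (q : Ideal (Pol k m)) (hX : ∀ i, (X i : Pol k m) ∈ q)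
    (w : Pol k m) (hw : w.IsHomogeneous 1) : w ∈ q := by
  rw [w.as_sum]
  apply Ideal.sum_mem
  intro d hd
  have hd1 : d ≠ 0 := by
    rintro rfl
    have := hw (mem_support_iff.1 hd)
    simp at this
  obtain ⟨i, hi⟩ : ∃ i, d i ≠ 0 := by
    by_contra h
    push_neg at h
    exact hd1 (Finsupp.ext h)
  have h1 : (X i : Pol k m) ∣ monomial d (coeff d w) := by
    rw [X_dvd_monomial]
    exact Or.inr hi
  exact q.mem_of_dvd h1 (hX i)

end INP_

theorem inp_proof (hFLS : Stmt_FLS.{u}) (hBCL : Stmt_BCL.{u}) (hBCH : Stmt_BCH.{u})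
    (hDMS : Stmt_DMS.{u}) : Pool.Agent.DBX.Stmt_INP.{u} := by
  intro k _ _ n D r c hn hG
  refine ⟨?_, hDMS k n D c hG⟩
  intro hPD q' hq' hhom hI hg e he
  obtain ⟨a, ha⟩ := hg
  have hga : D.sec.g a = th k n (D.g a) := rfl
  have hXb : ∃ b : Fin n, (X b : Pol (Kx k n) n) ∉ q' := by
    by_contra hcon
    push_neg at hcon
    apply ha
    rw [hga]
    have h1 : D.g a ∈ q'.comap (th k n) := by
      apply INP_.mem_of_hom1 k _ _ _ (hG.g_hom a)
      intro i
      rw [Ideal.mem_comap]
      refine Fin.lastCases ?_ (fun j => ?_) i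
      · rw [INP_.th_last]
        exact Ideal.sum_mem _ (fun j _ => Ideal.mul_mem_left _ _ (hcon j))
      · rw [INP_.th_castSucc]
        exact hcon j
    exact h1
  have hflat := hFLS k n q' hXb
  have hmap : D.I.map (th k n) = D.sec.I := by
    show D.I.map ((secP k n : Pol (Kx k n) (n + 1) →+* Pol (Kx k n) n).comp (bcP k n)) = _
    rw [← Ideal.map_map]
    rfl
  have hht : (q'.comap (th k n)).height ≤ (e : ℕ∞) :=
    (hBCH _ _ (th k n) q' hflat).trans he
  have hpl : PL (Pol k (n + 1)) (Pol k (n + 1) ⧸ D.I) (q'.comap (th k n)) (max (e - r) c) := by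
    refine hPD (q'.comap (th k n)) ?_ ?_ ⟨a, ?_⟩ e hht
    · intro w hw d
      rw [Ideal.mem_comap, INP_.th_comp]
      exact hhom _ hw d
    · rw [← Ideal.map_le_iff_le_comap, hmap]
      exact hI
    · exact ha
  have hfin := hBCL _ _ (th k n) q' hflat D.I (max (e - r) c) hpl
  rw [hmap] at hfin
  exact hfin

end Pool.Agent.DBX.SRV
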