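import Pool.Agent.DBX.SRV.Stmts

set_option autoImplicit false

namespace Pool.Agent.DBX.SRV

open MvPolynomial IsLocalRing RingTheory.Sequence CategoryTheory

universe u

namespace INV_

open TensorProduct in
/-- transport of the projective dimension along a ring isomorphism -/
theorem transport (hBCG : Stmt_BCG.{u}) {R R' : Type u} [CommRing R] [CommRing R'] (e : R ≃+* R')
    {M N : Type u} [AddCommGroup M] [Module R M] [AddCommGroup N] [Module R' N] (f : M → N)
    (hadd : ∀ x y, f (x + y) = f x + f y) (hf : ∀ (r : R) m, f (r • m) = e r • f m)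
    (hb : Function.Bijective f) (k : ℕ) (h : PDLE R M k) : PDLE R' N k := by
  let _ : Algebra R R' := e.toRingHom.toAlgebra
  let _ : Module R N := Module.compHom N e.toRingHom
  have halg : ∀ r : R, algebraMap R R' r = e r := fun r => rfl
  have hsm : ∀ (r : R) (n : N), r • n = e r • n := fun r n => rfl
  have htow : IsScalarTower R R' N := by
    constructor
    intro r s n
    rw [Algebra.smul_def, halg, mul_smul, hsm]
  have hflat : Module.Flat R R' := by
    refine Module.Flat.of_linearEquiv (LinearEquiv.ofBijective (Algebra.linearMap R R')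
      e.bijective).symm
  let F : M →ₗ[R] N :=
    { toFun := f
      map_add' := hadd
      map_smul' := fun r m => hf r m }
  refine hBCG R R' M N F ?_ k h
  unfold IsBaseChange IsTensorProduct
  constructor
  · rw [injective_iff_map_eq_zero]
    intro x hx
    have hx1 : ∃ m : M, x = (1 : R') ⊗ₜ[R] m := by
      clear hx
      induction x using TensorProduct.induction_on with
      | zero => exact ⟨0, by rw [TensorProduct.tmul_zero]⟩
      | tmul s m =>
        refine ⟨e.symm s • m, ?_⟩
        rw [TensorProduct.tmul_smul, TensorProduct.smul_tmul', Algebra.smul_def, halg,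
          RingEquiv.apply_symm_apply, mul_one]
      | add x y hx hy =>
        obtain ⟨m, rfl⟩ := hx
        obtain ⟨m', rfl⟩ := hy
        exact ⟨m + m', by rw [TensorProduct.tmul_add]⟩
    obtain ⟨m, rfl⟩ := hx1
    have h1 : F m = 0 := by
      simpa using hx
    have h2 : f 0 = 0 := F.map_zero
    have h3 : m = 0 := hb.1 ((show f m = 0 from h1).trans h2.symm)
    rw [h3, TensorProduct.tmul_zero]
  · intro n
    obtain ⟨m, hm⟩ := hb.2 n
    refine ⟨(1 : R') ⊗ₜ[R] m, ?_⟩
    have hm' : F m = n := hm
    simpa using hm'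

variable {A A' : Type u} [CommRing A] [CommRing A'] (φ : A ≃+* A') (S : Submonoid A)
  (T : Submonoid A') (hST : ∀ s, s ∈ S ↔ φ s ∈ T) {M M' : Type u} [AddCommGroup M] [Module A M]
  [AddCommGroup M'] [Module A' M'] (ψ : M ≃+ M') (hψ : ∀ (a : A) m, ψ (a • m) = φ a • ψ m)

/-- the induced map -/
noncomputable def F (x : LocalizedModule S M) : LocalizedModule T M' :=
  x.liftOn (fun p => LocalizedModule.mk (ψ p.1) ⟨φ p.2, (hST _).mp p.2.2⟩) (by
    rintro ⟨m, s⟩ ⟨m', s'⟩ ⟨w, hw⟩
    rw [LocalizedModule.mk_eq]
    refine ⟨⟨φ w, (hST _).mp w.2⟩, ?_⟩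
    have h1 := congrArg ψ hw
    simp only [Submonoid.smul_def, hψ] at h1 ⊢
    exact h1)

theorem F_mk (m : M) (s : S) : F φ S T hST ψ hψ (LocalizedModule.mk m s) =
    LocalizedModule.mk (ψ m) ⟨φ s, (hST _).mp s.2⟩ := by
  unfold F
  rw [LocalizedModule.liftOn_mk]

theorem F_add (x y : LocalizedModule S M) : F φ S T hST ψ hψ (x + y) =
    F φ S T hST ψ hψ x + F φ S T hST ψ hψ y := by
  induction x using LocalizedModule.induction_on with
  | h m s =>
    induction y using LocalizedModule.induction_on with
    | h m' s' =>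
      rw [LocalizedModule.mk_add_mk, F_mk, F_mk, F_mk, LocalizedModule.mk_add_mk]
      congr 1
      · rw [map_add, Submonoid.smul_def, Submonoid.smul_def, hψ, hψ]
        rfl
      · apply Subtype.ext
        exact map_mul φ _ _

theorem F_bij : Function.Bijective (F φ S T hST ψ hψ) := by
  constructor
  · intro x y hxy
    induction x using LocalizedModule.induction_on with
    | h m s =>
      induction y using LocalizedModule.induction_on with
      | h m' s' =>
        rw [F_mk, F_mk, LocalizedModule.mk_eq] at hxy
        obtain ⟨w, hw⟩ := hxy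
        rw [LocalizedModule.mk_eq]
        have hw' : φ.symm w ∈ S := by
          rw [hST, RingEquiv.apply_symm_apply]
          exact w.2
        refine ⟨⟨φ.symm w, hw'⟩, ?_⟩
        apply ψ.injective
        simp only [Submonoid.smul_def, hψ, RingEquiv.apply_symm_apply] at hw ⊢
        exact hw
  · intro y
    induction y using LocalizedModule.induction_on with
    | h m s =>
      have hs : φ.symm s ∈ S := by
        rw [hST, RingEquiv.apply_symm_apply]
        exact s.2
      refine ⟨LocalizedModule.mk (ψ.symm m) ⟨φ.symm s, hs⟩, ?_⟩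
      rw [F_mk]
      congr 1
      · exact ψ.apply_symm_apply m
      · apply Subtype.ext
        exact φ.apply_symm_apply s

theorem F_smul (e : Localization S ≃+* Localization T)
    (he : ∀ (a : A) (s : S), e (Localization.mk a s) =
      Localization.mk (φ a) ⟨φ s, (hST _).mp s.2⟩)
    (r : Localization S) (x : LocalizedModule S M) : F φ S T hST ψ hψ (r • x) =
    e r • F φ S T hST ψ hψ x := by
  induction x using LocalizedModule.induction_on with
  | h m s =>
    induction r using Localization.induction_on with
    | H y =>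
      rw [LocalizedModule.mk_smul_mk, F_mk, F_mk, he, LocalizedModule.mk_smul_mk, hψ]
      congr 1
      apply Subtype.ext
      exact map_mul φ _ _

end INV_

open INV_ in
theorem inv_proof (hBCG : Stmt_BCG.{u}) : Stmt_INV.{u} := by
  intro A _ φ I q _ e hI h
  have hST : ∀ s, s ∈ q.primeCompl ↔ φ.symm s ∈ (q.comap (φ : A →+* A)).primeCompl := by
    intro s
    rw [Ideal.mem_primeCompl_iff, Ideal.mem_primeCompl_iff, Ideal.mem_comap]
    simp
  have hII : I = I.map (φ.symm : A →+* A) := by
    have h1 : I.map (φ.symm : A →+* A) = I.comap (φ : A →+* A) := Ideal.map_symm φ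
    rw [h1, hI]
  have hψ : ∀ (a : A) (m : A ⧸ I), (Ideal.quotientEquiv I I φ.symm hII).toAddEquiv (a • m) =
      φ.symm a • (Ideal.quotientEquiv I I φ.symm hII).toAddEquiv m := by
    intro a m
    obtain ⟨b, rfl⟩ := Ideal.Quotient.mk_surjective m
    change Ideal.quotientEquiv I I φ.symm hII (Ideal.Quotient.mk I (a * b)) =
      Ideal.Quotient.mk I (φ.symm a) * Ideal.quotientEquiv I I φ.symm hII (Ideal.Quotient.mk I b)
    rw [Ideal.quotientEquiv_mk, Ideal.quotientEquiv_mk, ← map_mul, map_mul]
  have hmap : Submonoid.map φ.symm.toMonoidHom q.primeCompl =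
      (q.comap (φ : A →+* A)).primeCompl := by
    ext s
    rw [Submonoid.mem_map]
    constructor
    · rintro ⟨t, ht, rfl⟩
      exact (hST t).mp ht
    · intro hs
      refine ⟨φ s, ?_, φ.symm_apply_apply s⟩
      rw [hST, RingEquiv.symm_apply_apply]
      exact hs
  refine transport hBCG (IsLocalization.ringEquivOfRingEquiv (Localization.AtPrime q)
    (Localization.AtPrime (q.comap (φ : A →+* A))) φ.symm hmap)
    (F φ.symm q.primeCompl (q.comap (φ : A →+* A)).primeCompl hST
      (Ideal.quotientEquiv I I φ.symm hII).toAddEquiv hψ)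
    (F_add _ _ _ _ _ _) (F_smul _ _ _ _ _ _ _ ?_) (F_bij _ _ _ _ _ _) e h
  intro a s
  rw [Localization.mk_eq_mk', IsLocalization.ringEquivOfRingEquiv_mk', Localization.mk_eq_mk']

end Pool.Agent.DBX.SRV
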