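import Pool.Agent.DBX.SRV.Stmts

set_option autoImplicit false

namespace Pool.Agent.DBX.SRV

open MvPolynomial IsLocalRing RingTheory.Sequence CategoryTheory

universe u

namespace IRR_

variable (k : Type u) [Field k] (n : ℕ)

theorem mem_iff (w : Pol k n) : w ∈ mm k n ↔ coeff 0 w = 0 := by
  have h := mem_pow_idealOfVars_iff' (σ := Fin n) (R := k) 1 w
  rw [pow_one] at h
  have h' : w ∈ mm k n ↔ w ∈ idealOfVars (Fin n) k := Iff.rfl
  rw [h', h]
  constructor
  · intro h1
    exact h1 0 (by simp)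
  · intro h1 x hx
    have : x = 0 := by
      have h2 : Finsupp.degree x = 0 := by omega
      exact (Finsupp.degree_eq_zero_iff x).1 h2
    rw [this, h1]

theorem ker_eq : mm k n = RingHom.ker (constantCoeff (σ := Fin n) (R := k)) := by
  ext w
  rw [mem_iff, RingHom.mem_ker]
  rfl

theorem max : (mm k n).IsMaximal := by
  rw [ker_eq]
  exact RingHom.ker_isMaximal_of_surjective _ (fun c => ⟨C c, by simp⟩)

theorem hom : HomIdeal (mm k n) := by
  intro w hw d
  rw [mem_iff] at hw ⊢
  rw [coeff_homogeneousComponent]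
  split_ifs
  · exact hw
  · rfl

theorem le (J : Ideal (Pol k n)) (hJ : HomIdeal J) (h1 : J ≠ ⊤) : J ≤ mm k n := by
  intro w hw
  rw [mem_iff]
  by_contra hne
  have h := hJ w hw 0
  rw [homogeneousComponent_zero] at h
  apply h1
  rw [Ideal.eq_top_iff_one]
  have h2 := J.mul_mem_left (C (coeff 0 w)⁻¹) h
  rw [← map_mul, inv_mul_cancel₀ hne, map_one] at h2
  exact h2

end IRR_

theorem irr_proof (hMXH : Stmt_MXH.{u}) : Stmt_IRR.{u} := by
  intro k _ n
  exact ⟨IRR_.max k n, IRR_.hom k n, hMXH k n _ (IRR_.max k n), IRR_.le k n⟩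

end Pool.Agent.DBX.SRV
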