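import Pool.Agent.DBX.SRV.Stmts

set_option autoImplicit false

namespace Pool.Agent.DBX.SRV

open MvPolynomial

universe u

namespace KSC_

variable (k : Type u) [Field k] (n : ℕ)

lemma sec_cast (i : Fin n) : secP k n (X i.castSucc) = X i := by
  unfold secP
  rw [aeval_X, Fin.snoc_castSucc]

lemma sec_last : secP k n (X (Fin.last n)) = ∑ i, C (vv k n i) * X i := by
  unfold secP
  rw [aeval_X, Fin.snoc_last]

lemma sec_rename (p : Pol (Kx k n) n) : secP k n (rename Fin.castSucc p) = p := by
  have h : ((secP k n).comp (rename Fin.castSucc)) = AlgHom.id (Kx k n) _ := by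
    apply MvPolynomial.algHom_ext
    intro i
    rw [AlgHom.comp_apply, rename_X, sec_cast]
    rfl
  exact congrArg (fun f => f p) h

lemma mk_eq (w : Pol (Kx k n) (n + 1)) :
    Ideal.Quotient.mk (Ideal.span {lgen k n}) w =
      Ideal.Quotient.mk (Ideal.span {lgen k n}) (rename Fin.castSucc (secP k n w)) := by
  have h : Ideal.Quotient.mkₐ (Kx k n) (Ideal.span {lgen k n}) =
      (Ideal.Quotient.mkₐ (Kx k n) (Ideal.span {lgen k n})).comp
        ((rename Fin.castSucc).comp (secP k n)) := by
    apply MvPolynomial.algHom_ext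
    intro i
    rw [AlgHom.comp_apply, AlgHom.comp_apply]
    refine Fin.lastCases ?_ (fun j => ?_) i
    · rw [sec_last]
      show Ideal.Quotient.mk _ _ = Ideal.Quotient.mk _ _
      rw [Ideal.Quotient.eq]
      have h1 : X (Fin.last n) - rename Fin.castSucc (∑ i, C (vv k n i) * X i) = lgen k n := by
        rw [map_sum]
        unfold lgen
        congr 1
        refine Finset.sum_congr rfl fun i _ => ?_
        rw [map_mul, rename_C, rename_X]
      rw [h1]
      exact Ideal.subset_span rfl
    · rw [sec_cast, rename_X]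
  exact congrArg (fun f => f w) h

lemma sec_lgen : secP k n (lgen k n) = 0 := by
  unfold lgen
  rw [map_sub, sec_last, map_sum, sub_eq_zero]
  refine Finset.sum_congr rfl fun i _ => ?_
  rw [map_mul, sec_cast]
  congr 1
  exact ((secP k n).commutes _).symm

end KSC_

open KSC_ in
theorem ksc_proof : Stmt_KSC.{u} := by
  intro k _ n
  refine ⟨fun p => ⟨_, sec_rename k n p⟩, ?_⟩
  apply le_antisymm
  · intro w hw
    have hw' : secP k n w = 0 := hw
    rw [← Ideal.Quotient.eq_zero_iff_mem, mk_eq, hw', map_zero, map_zero]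
  · rw [Ideal.span_le]
    rintro _ rfl
    exact sec_lgen k n

end Pool.Agent.DBX.SRV
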