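import Pool.Agent.DBX.SRV.Stmts

set_option autoImplicit false

namespace Pool.Agent.DBX.SRV

open MvPolynomial IsLocalRing RingTheory.Sequence CategoryTheory

universe u

theorem lpf_proof (hEL2 : Stmt_EL2.{u}) (hFGF : Stmt_FGF.{u}) (hLPS : Stmt_LPS.{u}) :
    Stmt_LPF.{u} := by
  intro k _ n p g hg j
  induction j with
  | zero => intro h; omega
  | succ j ih =>
    intro _ hj W _ _ _ _ Z hZ
    obtain ⟨κ, hκ, W₃, i1, i2, i3, i4, φ, ψ, Z₃, hLP, hEx⟩ := hLPS k n p g hg W Z hZ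
    exact hEL2 (Pol k n) W (κ → Fr k n) W₃ p g φ ψ Z (SB k n κ) Z₃ hEx (j + 1) (by omega)
      (fun h2 => ih (by omega) (by omega) W₃ Z₃ hLP) (hFGF k n p g hg κ (j + 1) (by omega) hj)

end Pool.Agent.DBX.SRV
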