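import Pool.Agent.DBX.SRV.Stmts

/-!
# MP_2c751f_ag, area SRV: one step for locally projective modules
-/

set_option autoImplicit false

namespace Pool.Agent.DBX.SRV

open MvPolynomial IsLocalRing RingTheory.Sequence CategoryTheory

universe u

namespace LPS_

section

variable {k : Type u} [Field k] {n : ℕ} {W : Type u} [AddCommGroup W] [Module (Pol k n) W]
  [Module (Fr k n) W] [IsScalarTower (Pol k n) (Fr k n) W]

theorem smul_eq (c : Pol k n) (w : W) : c • w = (algebraMap (Pol k n) (Fr k n) c) • w :=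
  (IsScalarTower.algebraMap_smul (Fr k n) c w).symm

theorem ne0 {c : Pol k n} (hc : c ≠ 0) : algebraMap (Pol k n) (Fr k n) c ≠ 0 := by
  intro h
  exact hc ((IsFractionRing.injective (Pol k n) (Fr k n)) (by rw [h, map_zero]))

theorem inv_smul {c : Pol k n} (hc : c ≠ 0) (w : W) :
    (algebraMap (Pol k n) (Fr k n) c)⁻¹ • (c • w) = w := by
  rw [smul_eq c w, smul_smul, inv_mul_cancel₀ (ne0 hc), one_smul]

theorem smulinv {c : Pol k n} (hc : c ≠ 0) (w : W) :
    c • ((algebraMap (Pol k n) (Fr k n) c)⁻¹ • w) = w := by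
  rw [smul_eq c, smul_smul, mul_inv_cancel₀ (ne0 hc), one_smul]

theorem map_smulS {W' : Type u} [AddCommGroup W'] [Module (Pol k n) W']
    [Module (Fr k n) W'] [IsScalarTower (Pol k n) (Fr k n) W'] (f : W →ₗ[Fr k n] W')
    (c : Pol k n) (w : W) : f (c • w) = c • f w := by
  rw [smul_eq, map_smul, ← smul_eq]

/-- an element of a localisation of `Z` lies in the span -/
theorem loc_le_span {p : ℕ} (g : Fin p → Pol k n) (hg : ∀ a, g a ≠ 0)
    (Z : Submodule (Pol k n) W) (σ : Finset (Fin p)) {w : W} (hw : w ∈ loc g Z σ) :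
    w ∈ Submodule.span (Fr k n) (Z : Set W) := by
  obtain ⟨e, he⟩ := hw
  have h0 : (∏ a ∈ σ, g a) ^ e ≠ 0 := pow_ne_zero _ (Finset.prod_ne_zero_iff.2 fun a _ => hg a)
  rw [← inv_smul h0 w]
  exact Submodule.smul_mem _ _ (Submodule.subset_span he)

end

end LPS_

open LPS_ in
theorem lps_proof : Stmt_LPS.{u} := by
  intro k _ n p g hg W _ _ _ _ Z hZ
  obtain ⟨N, ι, _, π, s, h1, h2, h3⟩ := hZ
  have hgne := hg.ne
  -- the span of `Z`
  let V : Submodule (Fr k n) W := Submodule.span (Fr k n) (Z : Set W)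
  have hV : ∀ a, ∀ w ∈ V, π (s a w) = g a ^ N • w := by
    intro a w hw
    induction hw using Submodule.span_induction with
    | mem w hw => exact h3 a w hw
    | zero => rw [map_zero, map_zero, smul_zero]
    | add x y _ _ hx hy => rw [map_add, map_add, smul_add, hx, hy]
    | smul c x _ hx => rw [map_smul, map_smul, hx, smul_eq, smul_eq (g a ^ N), smul_comm]
  let φF : W →ₗ[Fr k n] (Fin p × ι → Fr k n) :=
    LinearMap.pi (fun ai => (LinearMap.proj ai.2).comp (s ai.1))
  have hφF : ∀ w a i, φF w (a, i) = s a w i := fun w a i => rfl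
  have hφZ : ∀ z ∈ Z, φF z ∈ SB k n (Fin p × ι) := by
    rintro z hz ⟨a, i⟩
    exact h2 a z hz i
  let U : Submodule (Fr k n) (Fin p × ι → Fr k n) := V.map φF
  let ψF : (Fin p × ι → Fr k n) →ₗ[Fr k n] ((Fin p × ι → Fr k n) ⧸ U) := U.mkQ
  -- the components
  let q : Fin p → (Fin p × ι → Fr k n) →ₗ[Fr k n] (ι → Fr k n) :=
    fun a => LinearMap.funLeft (Fr k n) (Fr k n) (fun i => (a, i))
  have hq : ∀ a x, x ∈ SB k n (Fin p × ι) → q a x ∈ SB k n ι := fun a x hx i => hx (a, i)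
  have hqφ : ∀ a w, q a (φF w) = s a w := fun a w => rfl
  let T : Fin p → (Fin p × ι → Fr k n) →ₗ[Fr k n] (Fin p × ι → Fr k n) :=
    fun a => (algebraMap (Pol k n) (Fr k n) (g a ^ N)) • LinearMap.id - φF.comp (π.comp (q a))
  have hT : ∀ a x, T a x = g a ^ N • x - φF (π (q a x)) := by
    intro a x
    show (algebraMap (Pol k n) (Fr k n) (g a ^ N)) • x - φF (π (q a x)) = _
    rw [← smul_eq]
  have hTU : ∀ a, U ≤ LinearMap.ker (T a) := by
    rintro a x ⟨w, hw, rfl⟩
    rw [LinearMap.mem_ker, hT, hqφ, hV a w hw, map_smulS, sub_self]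
  let s3 : Fin p → ((Fin p × ι → Fr k n) ⧸ U) →ₗ[Fr k n] (Fin p × ι → Fr k n) :=
    fun a => U.liftQ (T a) (hTU a)
  have hs3 : ∀ a x, s3 a (ψF x) = T a x := fun a x => U.liftQ_apply (T a) x
  refine ⟨Fin p × ι, inferInstance, (Fin p × ι → Fr k n) ⧸ U, inferInstance, inferInstance,
    inferInstance, inferInstance, φF.restrictScalars (Pol k n), ψF.restrictScalars (Pol k n),
    (SB k n (Fin p × ι)).map (ψF.restrictScalars (Pol k n)), ?_, ?_⟩
  · refine ⟨N, Fin p × ι, inferInstance, ψF, s3, ?_, ?_, ?_⟩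
    · intro w
      rfl
    · rintro a z ⟨x, hx, rfl⟩
      show s3 a (ψF x) ∈ _
      rw [hs3, hT]
      refine Submodule.sub_mem _ (Submodule.smul_mem _ _ hx) (hφZ _ ?_)
      exact (h1 _).2 ⟨q a x, hq a x hx, rfl⟩
    · rintro a z ⟨x, hx, rfl⟩
      show ψF (s3 a (ψF x)) = g a ^ N • ψF x
      rw [hs3, hT, map_sub, map_smulS]
      have : ψF (φF (π (q a x))) = 0 := by
        show U.mkQ _ = 0
        rw [Submodule.mkQ_apply, Submodule.Quotient.mk_eq_zero]
        exact ⟨_, Submodule.subset_span ((h1 _).2 ⟨q a x, hq a x hx, rfl⟩), rfl⟩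
      rw [this, sub_zero]
  · intro σ hσ
    obtain ⟨a, ha⟩ := hσ
    have hpr : ∀ e : ℕ, (∏ a ∈ σ, g a) ^ e ≠ 0 :=
      fun e => pow_ne_zero _ (Finset.prod_ne_zero_iff.2 fun a _ => hgne a)
    constructor
    · intro w hw hw0
      have hwV := loc_le_span g hgne Z σ hw
      have h4 := hV a w hwV
      have h5 : s a w = 0 := by
        rw [← hqφ a w]
        have : φF w = 0 := hw0
        rw [this, map_zero]
      rw [h5, map_zero] at h4
      have h6 := inv_smul (pow_ne_zero N (hgne a)) w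
      rw [← h4, smul_zero] at h6
      exact h6.symm
    · intro w hw
      show U.mkQ (φF w) = 0
      rw [Submodule.mkQ_apply, Submodule.Quotient.mk_eq_zero]
      exact ⟨w, loc_le_span g hgne Z σ hw, rfl⟩
    · rintro w ⟨e, he⟩
      refine ⟨e, ?_⟩
      rw [← map_smul]
      exact hφZ _ he
    · rintro w ⟨e, he⟩
      refine ⟨e, ?_⟩
      rw [← map_smul]
      exact ⟨_, he, rfl⟩
    · rintro w ⟨e, x, hx, hxw⟩
      refine ⟨(algebraMap (Pol k n) (Fr k n) ((∏ a ∈ σ, g a) ^ e))⁻¹ • x, ⟨e, ?_⟩, ?_⟩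
      · rw [smulinv (hpr e)]
        exact hx
      · show ψF _ = w
        rw [map_smul]
        have : ψF x = (∏ a ∈ σ, g a) ^ e • w := hxw
        rw [this, inv_smul (hpr e)]
    · rintro w ⟨e, he⟩ hw0
      have hwU : w ∈ U := by
        have : U.mkQ w = 0 := hw0
        rwa [Submodule.mkQ_apply, Submodule.Quotient.mk_eq_zero] at this
      obtain ⟨u, hu, rfl⟩ := hwU
      refine ⟨u, ⟨e + N, ?_⟩, rfl⟩
      have h4 : (∏ a ∈ σ, g a) ^ e • (g a ^ N • u) ∈ Z := by
        rw [← hV a u hu, ← hqφ a u, ← map_smulS, ← map_smulS]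
        exact (h1 _).2 ⟨_, hq a _ he, rfl⟩
      have h5 : (∏ a ∈ σ, g a) ^ (e + N) • u =
          (∏ a ∈ σ.erase a, g a) ^ N • ((∏ a ∈ σ, g a) ^ e • (g a ^ N • u)) := by
        rw [smul_smul, smul_smul]
        congr 1
        have h6 : (∏ b ∈ σ, g b) = g a * ∏ b ∈ σ.erase a, g b :=
          (Finset.mul_prod_erase σ g ha).symm
        rw [pow_add]
        conv_lhs => rw [h6]
        conv_rhs => rw [h6]
        ring
      rw [h5]
      exact Z.smul_mem _ h4

end Pool.Agent.DBX.SRV
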