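import Pool.Agent.DBX.SRV.Stmts

set_option autoImplicit false

namespace Pool.Agent.DBX.SRV

open MvPolynomial

noncomputable section

universe u

theorem mnh_proof (hCOR : Stmt_COR.{u}) : Stmt_MNH.{u} := by
  intro k _ n I hI p hp
  have hpp : p.IsPrime := hp.1.1
  obtain ⟨q, hq, hqh, hqp, hqw⟩ := hCOR k n p
  have hIq : I ≤ q := by
    intro w hw
    rw [← MvPolynomial.sum_homogeneousComponent w]
    refine q.sum_mem fun d _ => ?_
    exact hqw _ d (MvPolynomial.homogeneousComponent_isHomogeneous d w) (hp.1.2 (hI w hw d))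
  have h : p = q := le_antisymm (hp.2 ⟨hq, hIq⟩ hqp) hqp
  rw [h]
  exact hqh

end

end Pool.Agent.DBX.SRV
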