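import Pool.Agent.DBX.SRV.Stmts

set_option autoImplicit false

/-! # MP_2c751f_ag, squad DBX, area SRV: module MXH, heights of maximal ideals of `K[x]` -/

namespace Pool.Agent.DBX.SRV

open MvPolynomial IsLocalRing RingTheory.Sequence CategoryTheory

noncomputable section

universe u

namespace MXH_

/-- Maximal ideals of polynomial rings in `n` variables over a field have height at least `n`. -/
theorem le_height (K : Type u) [Field K] (n : ℕ) :
    ∀ M : Ideal (MvPolynomial (Fin n) K), M.IsMaximal → (n : ℕ∞) ≤ M.height := by
  induction n with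
  | zero => intro M _; simp
  | succ n ih =>
    intro M hM
    let e : MvPolynomial (Fin (n + 1)) K ≃+* Polynomial (MvPolynomial (Fin n) K) :=
      (MvPolynomial.finSuccEquiv K n).toRingEquiv
    have h1 : (M.map e).height = M.height := RingEquiv.height_map e M
    have hM' : (M.map e).IsMaximal := Ideal.map_isMaximal_of_equiv e
    have hp : ((M.map e).comap (Polynomial.C)).IsMaximal :=
      Polynomial.isMaximal_comap_C_of_isJacobsonRing _
    have hlo : (M.map e).LiesOver ((M.map e).comap (Polynomial.C)) := ⟨rfl⟩
    have h2 := Polynomial.height_eq_height_add_one ((M.map e).comap (Polynomial.C)) (M.map e)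
    rw [← h1, h2]
    push_cast
    gcongr
    exact ih _ hp

end MXH_

open MXH_

theorem mxh_proof : Stmt_MXH.{u} := by
  intro K _ n Q hQ
  refine le_antisymm ?_ (le_height K n Q hQ)
  have h1 := Ideal.height_le_ringKrullDim_of_ne_top hQ.ne_top
  rw [MvPolynomial.ringKrullDim_of_isNoetherianRing] at h1
  simp only [ringKrullDim_eq_zero_of_field, Nat.card_eq_fintype_card, Fintype.card_fin,
    zero_add] at h1
  exact_mod_cast h1

end

end Pool.Agent.DBX.SRV
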