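import Pool.Agent.DBX.SRV.Stmts
import Pool.Agent.LibDb3ab1.Dim

set_option autoImplicit false

/-! # MP_2c751f_ag, squad DBX, area SRV: module NND, dimension formula for affine domains -/

namespace Pool.Agent.DBX.SRV

open MvPolynomial IsLocalRing RingTheory.Sequence

noncomputable section

universe u

namespace NND_

/-- heights in integral extensions with going down -/
theorem height_eq {A B : Type u} [CommRing A] [CommRing B] [Algebra A B]
    [IsNoetherianRing A] [IsNoetherianRing B]
    [Algebra.HasGoingDown A B] [Algebra.IsIntegral A B] (P : Ideal A) [P.IsPrime] (Q : Ideal B)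
    [Q.IsPrime] [Q.LiesOver P] : Q.height = P.height := by
  rw [Ideal.height_eq_height_add_of_liesOver_of_hasGoingDown P Q]
  have hPQ : P.map (algebraMap A B) ≤ Q := by
    rw [Ideal.map_le_iff_le_comap, Q.over_def P]
  have hprime : (Q.map (Ideal.Quotient.mk (P.map (algebraMap A B)))).IsPrime := by
    refine Ideal.map_isPrime_of_surjective Ideal.Quotient.mk_surjective ?_
    rwa [Ideal.mk_ker]
  have h0 : (Q.map (Ideal.Quotient.mk (P.map (algebraMap A B)))).height = 0 := by
    rw [Ideal.height_eq_zero_iff]
    refine ⟨⟨hprime, bot_le⟩, ?_⟩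
    rintro q ⟨hq, -⟩ hle
    have hqp : (q.comap (Ideal.Quotient.mk (P.map (algebraMap A B)))).IsPrime :=
      Ideal.comap_isPrime _ _
    have h1 : q.comap (Ideal.Quotient.mk (P.map (algebraMap A B))) ≤ Q := by
      refine (Ideal.comap_mono hle).trans ?_
      rw [Ideal.comap_map_of_surjective _ Ideal.Quotient.mk_surjective, sup_le_iff]
      refine ⟨le_rfl, ?_⟩
      rw [← RingHom.ker_eq_comap_bot, Ideal.mk_ker]
      exact hPQ
    have h2 : P.map (algebraMap A B) ≤ q.comap (Ideal.Quotient.mk (P.map (algebraMap A B))) := by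
      intro x hx
      rw [Ideal.mem_comap, Ideal.Quotient.eq_zero_iff_mem.mpr hx]
      exact q.zero_mem
    have h3 : q.comap (Ideal.Quotient.mk (P.map (algebraMap A B))) = Q := by
      by_contra hne
      have h4 := Ideal.IsIntegral.comap_lt_comap (R := A) (lt_of_le_of_ne h1 hne)
      have h5 : P ≤ (q.comap (Ideal.Quotient.mk (P.map (algebraMap A B)))).comap
          (algebraMap A B) := by
        rw [← Ideal.map_le_iff_le_comap]; exact h2
      have h6 : Q.comap (algebraMap A B) = P := (Q.over_def P).symm
      rw [h6] at h4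
      exact absurd h5 (not_le_of_gt h4)
    rw [← h3, Ideal.map_comap_of_surjective _ Ideal.Quotient.mk_surjective]
  rw [h0, add_zero]

end NND_

open NND_

theorem nnd_proof (hDM1 : Stmt_DM1.{u}) : Stmt_NND.{u} := by
  intro k _ B _ _ _ _ Q _
  obtain ⟨s, g, hinj, hfin⟩ := exists_finite_inj_algHom_of_fg k B
  let _ : Algebra (MvPolynomial (Fin s) k) B := g.toRingHom.toAlgebra
  have hfin' : Module.Finite (MvPolynomial (Fin s) k) B := hfin
  have hinj' : Function.Injective (algebraMap (MvPolynomial (Fin s) k) B) := hinj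
  have hint : Algebra.IsIntegral (MvPolynomial (Fin s) k) B := inferInstance
  have hf : FaithfulSMul (MvPolynomial (Fin s) k) B :=
    (faithfulSMul_iff_algebraMap_injective _ _).mpr hinj'
  have hB : IsNoetherianRing B := Algebra.FiniteType.isNoetherianRing k B
  have hgd : Algebra.HasGoingDown (MvPolynomial (Fin s) k) B := inferInstance
  have h1 := height_eq (Q.under (MvPolynomial (Fin s) k)) Q
  have h2 : ringKrullDim (MvPolynomial (Fin s) k ⧸ Q.under (MvPolynomial (Fin s) k)) =
      ringKrullDim (B ⧸ Q) := by
    refine LibDb3ab1.ringKrullDim_eq_of_integral ?_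
    exact FaithfulSMul.algebraMap_injective _ _
  have h3 : ringKrullDim (MvPolynomial (Fin s) k) = ringKrullDim B :=
    LibDb3ab1.ringKrullDim_eq_of_integral hinj'
  have h4 := hDM1 k s (Q.under (MvPolynomial (Fin s) k))
  rw [h1, ← h2, ← h3, h4, MvPolynomial.ringKrullDim_of_isNoetherianRing]
  simp

end

end Pool.Agent.DBX.SRV
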