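import Pool.Agent.DBX.SRV.Stmts

set_option autoImplicit false

/-! # MP_2c751f_ag, squad DBX, area SRV: module OPN, openness of the locus `pd M_q ≤ e` -/

namespace Pool.Agent.DBX.SRV

open MvPolynomial IsLocalRing RingTheory.Sequence CategoryTheory

noncomputable section

universe u

namespace OPN_

theorem pl_zero_iff (A : Type u) [CommRing A] (M : Type u) [AddCommGroup M] [Module A M]
    (q : Ideal A) [q.IsPrime] :
    PL A M q 0 ↔ Module.Projective (Localization.AtPrime q) (LocalizedModule q.primeCompl M) := by
  unfold PL PDLE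
  unfold HasProjectiveDimensionLE
  rw [zero_add, ← projective_iff_hasProjectiveDimensionLT_one, ← IsProjective.iff_projective]

end OPN_

open OPN_

theorem opn_proof (_hPLI : Stmt_PLI.{u}) (hSYZ : Stmt_SYZ.{u}) : Stmt_OPN.{u} := by
  intro A _ _ M _ _ _ e
  induction e generalizing M with
  | zero =>
    intro q _ hq
    have hfp : Module.FinitePresentation A M :=
      Module.finitePresentation_of_finite A M
    rw [pl_zero_iff] at hq
    have h1 : (⟨q, inferInstance⟩ : PrimeSpectrum A) ∈ Module.freeLocus A M := by
      rw [Module.mem_freeLocus]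
      exact Module.free_of_flat_of_isLocalRing
    obtain ⟨_, ⟨s, rfl⟩, hs, hsub⟩ := PrimeSpectrum.isTopologicalBasis_basic_opens.exists_subset_of_mem_open
      h1 Module.isOpen_freeLocus
    refine ⟨s, hs, fun q' _ hs' => ?_⟩
    rw [pl_zero_iff]
    have h2 : (⟨q', inferInstance⟩ : PrimeSpectrum A) ∈ Module.freeLocus A M := hsub hs'
    rw [Module.mem_freeLocus] at h2
    exact Module.Projective.of_free
  | succ e ih =>
    intro q _ hq
    obtain ⟨b, f, hf⟩ := Module.Finite.exists_fin' A M
    have hfin : Module.Finite A (LinearMap.ker f) := inferInstance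
    have h1 := fun (q' : Ideal A) [q'.IsPrime] => hSYZ A (LinearMap.ker f) (Fin b → A) M
      (LinearMap.ker f).subtype f (Submodule.injective_subtype _) hf
      (Submodule.range_subtype _) q' e
    obtain ⟨s, hs, hs2⟩ := ih (LinearMap.ker f) q ((h1 q).1 hq)
    exact ⟨s, hs, fun q' _ hs' => (h1 q').2 (hs2 q' hs')⟩

end

end Pool.Agent.DBX.SRV
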