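import Pool.Agent.DBX.SRV.Stmts

set_option autoImplicit false

/-! # MP_2c751f_ag, squad DBX, area SRV: from depth to projective dimension -/

namespace Pool.Agent.DBX.SRV

open MvPolynomial IsLocalRing RingTheory.Sequence CategoryTheory

universe u

theorem pdd_proof : Stmt_PDD.{u} := by
  intro A _ _ _ M _ _ _ _ rs h hGD hmem hreg
  have h1 := ModuleCat.projectiveDimension_quotient_eq_add_length_of_isWeaklyRegular
    (ModuleCat.of A M) rs hreg hmem
  have h2 : projectiveDimension (ModuleCat.of A (M ⧸ Ideal.ofList rs • (⊤ : Submodule A M)))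
      ≤ (h : WithBot ℕ∞) := by
    rw [projectiveDimension_le_iff]
    exact hGD _
  have h3 : projectiveDimension (ModuleCat.of A M) + (rs.length : WithBot ℕ∞) ≤ (h : WithBot ℕ∞) :=
    h1 ▸ h2
  have h4 : projectiveDimension (ModuleCat.of A M) ≠ ⊥ := by
    intro hb
    rw [projectiveDimension_eq_bot_iff, ModuleCat.isZero_iff_subsingleton] at hb
    exact not_subsingleton M hb
  obtain ⟨d, hd⟩ := WithBot.ne_bot_iff_exists.mp h4
  rw [← hd] at h3
  have h5 : d ≠ ⊤ := by
    rintro rfl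
    have := h3
    rw [show ((⊤ : ℕ∞) : WithBot ℕ∞) + (rs.length : WithBot ℕ∞)
      = (((⊤ : ℕ∞) + (rs.length : ℕ∞) : ℕ∞) : WithBot ℕ∞) from rfl, top_add] at this
    have h6 : (⊤ : ℕ∞) ≤ (h : ℕ∞) := WithBot.coe_le_coe.mp this
    exact absurd (lt_of_le_of_lt h6 (ENat.natCast_lt_top h)) (lt_irrefl _)
  obtain ⟨m, rfl⟩ := ENat.ne_top_iff_exists.mp h5
  have h7 : m + rs.length ≤ h := by
    have h8 : (((m + rs.length : ℕ) : ℕ∞) : WithBot ℕ∞) ≤ ((h : ℕ∞) : WithBot ℕ∞) := by
      rw [Nat.cast_add]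
      exact h3
    exact_mod_cast h8
  refine ⟨by omega, ?_⟩
  have h9 : projectiveDimension (ModuleCat.of A M) ≤ ((h - rs.length : ℕ) : WithBot ℕ∞) := by
    rw [← hd]
    have h10 : m ≤ h - rs.length := by omega
    have h11 : (m : ℕ∞) ≤ ((h - rs.length : ℕ) : ℕ∞) := Nat.cast_le.mpr h10
    exact WithBot.coe_le_coe.mpr h11
  rw [projectiveDimension_le_iff] at h9
  exact h9

end Pool.Agent.DBX.SRV
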