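import Pool.Agent.DBX.SRV.Stmts

set_option autoImplicit false

/-! # MP_2c751f_ag, squad DBX, area SRV, module PDQ: projective dimension from (S_r) -/

namespace Pool.Agent.DBX.SRV

open MvPolynomial IsLocalRing RingTheory.Sequence CategoryTheory

universe u

theorem pdq_proof (hBR1 : Stmt_BR1.{u}) (hPDD : Stmt_PDD.{u}) (hGLQ : Stmt_GLQ.{u})
    (hPLI : Stmt_PLI.{u}) : Stmt_PDQ.{u} := by
  intro k _ n I r c hS hht q hq hIq e he
  obtain ⟨P, hP, hPq⟩ : ∃ P : Ideal (Pol k n ⧸ I), P.IsPrime ∧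
      P.comap (Ideal.Quotient.mk I) = q := by
    refine ⟨q.map (Ideal.Quotient.mk I), ?_, ?_⟩
    · exact Ideal.map_isPrime_of_surjective Ideal.Quotient.mk_surjective
        (by rw [Ideal.mk_ker]; exact hIq)
    · rw [Ideal.comap_map_of_surjective _ Ideal.Quotient.mk_surjective]
      refine sup_eq_left.2 ?_
      intro x hx
      exact hIq (Ideal.Quotient.eq_zero_iff_mem.1 hx)
  subst hPq
  obtain ⟨rs, hrs1, hrs2, hrs3⟩ := hS P
  obtain ⟨rs', hl, hrs1', hrs2'⟩ := hBR1 (Pol k n) I P rs hrs1 hrs2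
  have hcod := hht P
  obtain ⟨h, hh⟩ : ∃ h : ℕ, (P.comap (Ideal.Quotient.mk I)).height = (h : ℕ∞) := by
    have : (P.comap (Ideal.Quotient.mk I)).height ≠ ⊤ := fun ht => by
      rw [ht] at he
      exact absurd he (by simp)
    exact ⟨_, (ENat.natCast_toNat this).symm⟩
  obtain ⟨hp, hhp⟩ : ∃ hp : ℕ, P.height = (hp : ℕ∞) := by
    have : P.height ≠ ⊤ := fun ht => by
      rw [ht, hh] at hcod
      exact absurd hcod (by simp)
    exact ⟨_, (ENat.natCast_toNat this).symm⟩
  rw [hh, hhp] at hcod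
  have h1 : h = hp + c := by exact_mod_cast hcod
  have h2 : h ≤ e := by
    rw [hh] at he
    exact_mod_cast he
  have h3 : rs.length = min r hp := by
    rw [IsLocalization.AtPrime.ringKrullDim_eq_height P, hhp] at hrs3
    rcases le_total r hp with h0 | h0
    · rw [min_eq_left h0]
      rw [min_eq_left (by exact_mod_cast h0)] at hrs3
      exact_mod_cast hrs3
    · rw [min_eq_right h0]
      rw [min_eq_right (by exact_mod_cast h0)] at hrs3
      exact_mod_cast hrs3
  have hGD : GD (Localization.AtPrime (P.comap (Ideal.Quotient.mk I))) h :=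
    hGLQ k n (P.comap (Ideal.Quotient.mk I)) h hh.le
  have hN : IsNoetherianRing (Localization.AtPrime (P.comap (Ideal.Quotient.mk I))) :=
    IsLocalization.isNoetherianRing (P.comap (Ideal.Quotient.mk I)).primeCompl _ inferInstance
  have hF : Module.Finite (Localization.AtPrime (P.comap (Ideal.Quotient.mk I)))
      (LocalizedModule (P.comap (Ideal.Quotient.mk I)).primeCompl (Pol k n ⧸ I)) :=
    Module.Finite.of_isLocalizedModule (P.comap (Ideal.Quotient.mk I)).primeCompl
      (LocalizedModule.mkLinearMap (P.comap (Ideal.Quotient.mk I)).primeCompl (Pol k n ⧸ I))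
  have hNT : Nontrivial
      (LocalizedModule (P.comap (Ideal.Quotient.mk I)).primeCompl (Pol k n ⧸ I)) :=
    hrs2'.nontrivial
  obtain ⟨h4, h5⟩ := hPDD (Localization.AtPrime (P.comap (Ideal.Quotient.mk I)))
    (LocalizedModule (P.comap (Ideal.Quotient.mk I)).primeCompl (Pol k n ⧸ I)) rs' h hGD hrs1'
    hrs2'.toIsWeaklyRegular
  refine hPLI.1 _ _ _ (LinearEquiv.refl _ _) (h - rs'.length) _ ?_ h5
  omega

end Pool.Agent.DBX.SRV
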