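import Pool.Agent.DBX.SRV.Stmts

set_option autoImplicit false

/-! # MP_2c751f_ag, squad DBX, area SRV: invariance of projective dimension -/

namespace Pool.Agent.DBX.SRV

open MvPolynomial IsLocalRing RingTheory.Sequence CategoryTheory

universe u

namespace PLI_

theorem iso (A : Type u) [CommRing A] (M N : Type u) [AddCommGroup M] [Module A M] [AddCommGroup N]
    [Module A N] (f : M ≃ₗ[A] N) (e e' : ℕ) (he : e ≤ e') (h : PDLE A M e) : PDLE A N e' := by
  have h1 : HasProjectiveDimensionLT (ModuleCat.of A M) (e + 1) := h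
  have h2 : HasProjectiveDimensionLT (ModuleCat.of A N) (e + 1) :=
    hasProjectiveDimensionLT_of_iso f.toModuleIso (e + 1)
  exact hasProjectiveDimensionLT_of_ge (ModuleCat.of A N) (e + 1) (e' + 1) (by omega)

end PLI_

theorem pli_proof : Stmt_PLI.{u} := by
  refine ⟨PLI_.iso, ?_⟩
  intro A _ M N _ _ _ _ f q _ e e' he h
  exact PLI_.iso (Localization.AtPrime q) (LocalizedModule q.primeCompl M)
    (LocalizedModule q.primeCompl N)
    (IsLocalizedModule.mapEquiv q.primeCompl (LocalizedModule.mkLinearMap q.primeCompl M)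
      (LocalizedModule.mkLinearMap q.primeCompl N) (Localization.AtPrime q) f) e e' he h

end Pool.Agent.DBX.SRV
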