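import Pool.Agent.DBX.SRV.Stmts

set_option autoImplicit false

namespace Pool.Agent.DBX.SRV

open MvPolynomial IsLocalRing RingTheory.Sequence CategoryTheory

universe u

namespace SBP_

/-- the componentwise inclusion -/
noncomputable def f (k : Type u) [Field k] (n : ℕ) (ι : Type) :
    (ι → Pol k n) →ₗ[Pol k n] (ι → Fr k n) where
  toFun w i := inc k n (w i)
  map_add' w w' := by
    funext i
    exact map_add _ _ _
  map_smul' c w := by
    funext i
    show inc k n (c * w i) = c • inc k n (w i)
    rw [map_mul, Algebra.smul_def]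

theorem f_inj (k : Type u) [Field k] (n : ℕ) (ι : Type) : Function.Injective (f k n ι) := by
  intro w w' h
  funext i
  have := congrFun h i
  exact IsFractionRing.injective (MvPolynomial (Fin n) k) (FractionRing (MvPolynomial (Fin n) k))
    this

theorem f_range (k : Type u) [Field k] (n : ℕ) (ι : Type) :
    LinearMap.range (f k n ι) = SB k n ι := by
  ext w
  constructor
  · rintro ⟨v, rfl⟩ i
    exact ⟨v i, Submodule.mem_top, rfl⟩
  · intro h
    choose v hv using h
    exact ⟨v, funext fun i => (hv i).2⟩

end SBP_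

theorem sbp_proof : Stmt_SBP.{u} := by
  intro k _ n ι _
  have e : (ι → Pol k n) ≃ₗ[Pol k n] SB k n ι :=
    (LinearEquiv.ofInjective (SBP_.f k n ι) (SBP_.f_inj k n ι)).trans
      (LinearEquiv.ofEq _ _ (SBP_.f_range k n ι))
  exact ⟨Module.Free.of_equiv e, Module.Finite.equiv e⟩

end Pool.Agent.DBX.SRV
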