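import Pool.Agent.DBX.SRV.Stmts

set_option autoImplicit false

namespace Pool.Agent.DBX.SRV

open MvPolynomial IsLocalRing RingTheory.Sequence CategoryTheory

noncomputable section

universe u

theorem spd_proof (hSRM : Stmt_SRM.{u}) (hEQH : Stmt_EQH.{u}) (hDM3 : Stmt_DM3.{u})
    (hDM4 : Stmt_DM4.{u}) (hPDQ : Stmt_PDQ.{u}) : Pool.Agent.DBX.Stmt_SPD.{u} := by
  intro k _ _ n I r c d hI hI1 hr hS hd hn
  have hS2 := hSRM _ r 2 hr hS
  have heq := hEQH k n I hI hI1 hS2
  obtain ⟨_, p0, hp0, hp0n⟩ := hDM3 k n I d hd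
  have hc0 : p0.height = (c : ℕ∞) := by
    have hn' : (n : ℕ∞) = (d : ℕ∞) + (c : ℕ∞) := by exact_mod_cast congrArg (Nat.cast : ℕ → ℕ∞) hn
    rw [hn'] at hp0n
    exact (ENat.add_right_injective_of_ne_top (ENat.natCast_ne_top d) hp0n).symm
  have hc : ∀ p ∈ I.minimalPrimes, p.height = (c : ℕ∞) := fun p hp => by
    rw [heq p hp p0 hp0, hc0]
  have hht : ∀ (P : Ideal (Pol k n ⧸ I)) [P.IsPrime],
      (P.comap (Ideal.Quotient.mk I)).height = P.height + (c : ℕ∞) := by
    intro P hP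
    obtain ⟨h1, h2⟩ := hDM4 k n I P
    apply le_antisymm
    · have hle : I ≤ P.comap (Ideal.Quotient.mk I) := by
        intro x hx
        rw [Ideal.mem_comap, Ideal.Quotient.eq_zero_iff_mem.mpr hx]
        exact P.zero_mem
      obtain ⟨p, hp, hpP⟩ := Ideal.exists_minimalPrimes_le hle
      have h3 := h2 p hp hpP
      rwa [hc p hp] at h3
    · exact h1 c (fun p hp _ => (hc p hp).ge)
  refine ⟨?_, ?_⟩
  · intro M δ f q hq _ hIq _ e he
    exact hPDQ k n I r c hS (fun P hP => hht P) q hIq e he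
  · intro P hP
    rw [IsLocalization.AtPrime.ringKrullDim_eq_height P (Localization.AtPrime P), hht P]
    push_cast
    rfl

end

end Pool.Agent.DBX.SRV
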