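import Pool.Agent.DBX.SRV.Stmts

set_option autoImplicit false

/-! # MP_2c751f_ag, squad DBX, area SRV, module SRM -/

namespace Pool.Agent.DBX.SRV

open MvPolynomial IsLocalRing RingTheory.Sequence CategoryTheory

universe u

namespace SRM_

theorem take_regular {R : Type u} [CommRing R] (rs : List R) (s : ℕ)
    (h : RingTheory.Sequence.IsRegular R rs) : RingTheory.Sequence.IsRegular R (rs.take s) := by
  have h1 : IsWeaklyRegular R (rs.take s ++ rs.drop s) := by
    rw [List.take_append_drop]
    exact h.toIsWeaklyRegular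
  have h3 : Ideal.ofList (rs.take s) ≤ Ideal.ofList rs :=
    Ideal.span_mono fun x hx => List.mem_of_mem_take hx
  have h4 : (⊤ : Submodule R R) ≠ Ideal.ofList (rs.take s) • (⊤ : Submodule R R) := by
    intro h2
    refine h.top_ne_smul (le_antisymm ?_ le_top)
    rw [h2]
    have h5 : Ideal.ofList (rs.take s) • (⊤ : Submodule R R) ≤
        Ideal.ofList rs • (⊤ : Submodule R R) := Submodule.smul_mono_left h3
    rwa [← h2] at h5 ⊢
  exact ⟨((isWeaklyRegular_append_iff R _ _).1 h1).1, h4⟩

theorem cast_min (s l : ℕ) : ((min s l : ℕ) : WithBot ℕ∞) = min (s : WithBot ℕ∞) (l) := by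
  rcases le_total s l with h | h
  · rw [min_eq_left h, min_eq_left (by exact_mod_cast h)]
  · rw [min_eq_right h, min_eq_right (by exact_mod_cast h)]

end SRM_

theorem srm_proof : Stmt_SRM.{u} := by
  intro R _ r s hsr h P _
  obtain ⟨rs, h1, h2, h3⟩ := h P
  refine ⟨rs.take s, fun x hx => h1 x (List.mem_of_mem_take hx), SRM_.take_regular rs s h2, ?_⟩
  rw [List.length_take, SRM_.cast_min, h3, ← min_assoc]
  congr 1
  apply min_eq_left
  exact_mod_cast hsr

end Pool.Agent.DBX.SRV
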