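import Pool.Agent.DBX.SRV.Stmts

set_option autoImplicit false

namespace Pool.Agent.DBX.SRV

open MvPolynomial IsLocalRing RingTheory.Sequence CategoryTheory

universe u

namespace TOR_

variable {k : Type u} [Field k] {n : ℕ}

/-- scaling of the variables -/
noncomputable def sc (c : k) : Pol k n →ₐ[k] Pol k n := aeval (fun i => (C c * X i : Pol k n))

lemma sc_X (c : k) (i : Fin n) : sc c (X i : Pol k n) = C c * X i := aeval_X _ _

lemma sc_comp (c c' : k) (h : c * c' = 1) (w : Pol k n) : sc c (sc c' w) = w := by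
  have : (sc c).comp (sc c') = AlgHom.id k (Pol k n) := by
    apply MvPolynomial.algHom_ext
    intro i
    rw [AlgHom.comp_apply, sc_X, map_mul, sc_X, AlgHom.id_apply]
    have h1 : sc c (C c' : Pol k n) = C c' := AlgHom.commutes (sc c) c'
    rw [h1, ← mul_assoc, ← C_mul, mul_comm c' c, h, C_1, one_mul]
  have h2 := congrArg (fun f => f w) this
  exact h2

lemma sc_hom (c : k) (d : ℕ) (w : Pol k n) (hw : w.IsHomogeneous d) : sc c w = C (c ^ d) * w := by
  conv_lhs => rw [w.as_sum]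
  conv_rhs => rw [w.as_sum]
  rw [map_sum, Finset.mul_sum]
  refine Finset.sum_congr rfl fun m hm => ?_
  have hd : m.degree = d := by
    have := hw (mem_support_iff.1 hm)
    rw [← this]
    exact (Finsupp.degree_eq_weight_one (R := ℕ) ▸ rfl)
  unfold sc
  rw [aeval_monomial, algebraMap_eq]
  have h1 : (m.prod fun i e => (C c * X i : Pol k n) ^ e) = C (c ^ d) * m.prod fun i e => X i ^ e := by
    simp only [mul_pow]
    rw [Finsupp.prod_mul]
    congr 1
    rw [← hd, Finsupp.degree, map_pow]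
    simp only [Finsupp.prod]
    rw [Finset.prod_pow_eq_pow_sum]
    rfl
  rw [h1, monomial_eq]
  ring

lemma sc_mem {I : Ideal (Pol k n)} (hI : HomIdeal I) (c : k) {w : Pol k n} (hw : w ∈ I) :
    sc c w ∈ I := by
  rw [← sum_homogeneousComponent w, map_sum]
  refine Ideal.sum_mem _ fun d _ => ?_
  rw [sc_hom c d _ (homogeneousComponent_isHomogeneous d w)]
  exact I.mul_mem_left _ (hI w hw d)

/-- scaling as an equivalence -/
noncomputable def sce (c : k) (hc : c ≠ 0) : Pol k n ≃+* Pol k n where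
  toFun w := sc c w
  invFun w := sc c⁻¹ w
  left_inv w := sc_comp c⁻¹ c (inv_mul_cancel₀ hc) w
  right_inv w := sc_comp c c⁻¹ (mul_inv_cancel₀ hc) w
  map_mul' x y := map_mul (sc c) x y
  map_add' x y := map_add (sc c) x y

lemma sce_apply (c : k) (hc : c ≠ 0) (w : Pol k n) : sce c hc w = sc c w := rfl

lemma sce_symm (c : k) (hc : c ≠ 0) (w : Pol k n) : (sce c hc).symm w = sc c⁻¹ w := rfl

lemma comap_sce {I : Ideal (Pol k n)} (hI : HomIdeal I) (c : k) (hc : c ≠ 0) :
    I.comap ((sce c hc : Pol k n ≃+* Pol k n) : Pol k n →+* Pol k n) = I := by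
  ext w
  rw [Ideal.mem_comap]
  constructor
  · intro h
    have h2 := sc_mem hI c⁻¹ h
    rw [show ((sce c hc : Pol k n ≃+* Pol k n) : Pol k n →+* Pol k n) w = sc c w from rfl,
      sc_comp c⁻¹ c (inv_mul_cancel₀ hc)] at h2
    exact h2
  · intro h
    exact sc_mem hI c h

lemma pl_of_not_le (I q : Ideal (Pol k n)) [q.IsPrime] (e : ℕ) (h : ¬ I ≤ q) :
    PL (Pol k n) (Pol k n ⧸ I) q e := by
  obtain ⟨w, hw, hwq⟩ := Set.not_subset.1 h
  have hsub : Subsingleton (LocalizedModule q.primeCompl (Pol k n ⧸ I)) := by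
    rw [LocalizedModule.subsingleton_iff]
    intro m
    obtain ⟨v, rfl⟩ := Ideal.Quotient.mk_surjective m
    refine ⟨w, hwq, ?_⟩
    have : w • Ideal.Quotient.mk I v = Ideal.Quotient.mk I (w * v) := rfl
    rw [this, Ideal.Quotient.eq_zero_iff_mem]
    exact I.mul_mem_right _ hw
  have hz : Limits.IsZero (ModuleCat.of (Localization.AtPrime q)
      (LocalizedModule q.primeCompl (Pol k n ⧸ I))) := ModuleCat.isZero_of_subsingleton _
  have h0 := hz.hasProjectiveDimensionLT_zero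
  exact hasProjectiveDimensionLT_of_ge _ 0 (e + 1) (Nat.zero_le _)

lemma le_of_hom {J q q' : Ideal (Pol k n)} (hJ : HomIdeal J) (hJq : J ≤ q)
    (h : ∀ (w : Pol k n) (d : ℕ), w.IsHomogeneous d → w ∈ q → w ∈ q') : J ≤ q' := by
  intro w hw
  rw [← sum_homogeneousComponent w]
  refine Ideal.sum_mem _ fun d _ => ?_
  exact h _ d (homogeneousComponent_isHomogeneous d w) (hJq (hJ w hw d))

end TOR_

open TOR_ in
theorem tor_proof (hOPN : Stmt_OPN.{u}) (hINV : Stmt_INV.{u}) (hCOR : Stmt_COR.{u})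
    (hHMJ : Stmt_HMJ.{u}) (_hPLI : Stmt_PLI.{u}) : Stmt_TOR.{u} := by
  intro k _ _ n I hI s d e hs H q hq hsq
  by_contra hn
  set J : Ideal (Pol k n) := sInf {p | ∃ _ : p.IsPrime, ¬ PL (Pol k n) (Pol k n ⧸ I) p e} with hJdef
  have hJle : ∀ (p : Ideal (Pol k n)) [p.IsPrime], ¬ PL (Pol k n) (Pol k n ⧸ I) p e → J ≤ p := by
    intro p hp hpn
    exact sInf_le ⟨hp, hpn⟩
  have hJn : ∀ (p : Ideal (Pol k n)) [p.IsPrime], J ≤ p → ¬ PL (Pol k n) (Pol k n ⧸ I) p e := by
    intro p hp hJp hpl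
    obtain ⟨s', hs', h'⟩ := hOPN (Pol k n) (Pol k n ⧸ I) e p hpl
    apply hs'
    apply hJp
    rw [hJdef, Ideal.mem_sInf]
    rintro p' ⟨hp', hn'⟩
    by_contra hcon
    exact hn' (h' p' hcon)
  have hJhom : HomIdeal J := by
    apply hHMJ k n J
    intro c hc w hw
    show sc c w ∈ J
    rw [hJdef, Ideal.mem_sInf]
    rintro p ⟨hp, hpn⟩
    have hprime : (p.comap ((sce c hc : Pol k n ≃+* Pol k n) : Pol k n →+* Pol k n)).IsPrime :=
      Ideal.IsPrime.comap _
    have hn2 : ¬ PL (Pol k n) (Pol k n ⧸ I)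
        (p.comap ((sce c hc : Pol k n ≃+* Pol k n) : Pol k n →+* Pol k n)) e := by
      intro hpl
      apply hpn
      have hinv : c⁻¹ ≠ 0 := inv_ne_zero hc
      have h3 := hINV (Pol k n) (sce c⁻¹ hinv) I _ e (comap_sce hI c⁻¹ hinv) hpl
      have h4 : (p.comap ((sce c hc : Pol k n ≃+* Pol k n) : Pol k n →+* Pol k n)).comap
          ((sce c⁻¹ hinv : Pol k n ≃+* Pol k n) : Pol k n →+* Pol k n) = p := by
        ext v
        rw [Ideal.mem_comap, Ideal.mem_comap]
        have : ((sce c hc : Pol k n ≃+* Pol k n) : Pol k n →+* Pol k n)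
            (((sce c⁻¹ hinv : Pol k n ≃+* Pol k n) : Pol k n →+* Pol k n) v) = v :=
          sc_comp c c⁻¹ (mul_inv_cancel₀ hc) v
        rw [this]
      have h5 : ∀ (p₁ p₂ : Ideal (Pol k n)) (h₁ : p₁.IsPrime) (h₂ : p₂.IsPrime), p₁ = p₂ →
          @PL (Pol k n) _ (Pol k n ⧸ I) _ _ p₁ h₁ e → @PL (Pol k n) _ (Pol k n ⧸ I) _ _ p₂ h₂ e := by
        rintro p₁ p₂ h₁ h₂ rfl h
        exact h
      exact h5 _ _ _ hp h4 h3
    have h6 := hJle _ hn2 hw
    exact h6
  have hJq : J ≤ q := hJle q hn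
  obtain ⟨q', hq', hq'hom, hq'q, hq'w⟩ := hCOR k n q
  have hJq' : J ≤ q' := le_of_hom hJhom hJq hq'w
  have hIq : I ≤ q := by
    by_contra hcon
    exact hn (pl_of_not_le I q e hcon)
  have hIq' : I ≤ q' := le_of_hom hI hIq hq'w
  exact hJn q' hJq' (H q' hq'hom hIq' fun h => hsq (hq'q h))

end Pool.Agent.DBX.SRV
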