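import Pool.Agent.DBX.SRV.Stmts

set_option autoImplicit false

namespace Pool.Agent.DBX.SRV

open MvPolynomial IsLocalRing RingTheory.Sequence CategoryTheory

universe u

namespace TR1_

theorem alg (k : Type u) [Field k] (n : ℕ) (q : Ideal (Pol k n)) [q.IsPrime] :
    Algebra.IsAlgebraic (Algebra.adjoin k (Set.range fun i : Fin n =>
      Ideal.Quotient.mk q (X i : Pol k n))) (Pol k n ⧸ q) := by
  have htop : Algebra.adjoin k (Set.range fun i : Fin n =>
      Ideal.Quotient.mk q (X i : Pol k n)) = ⊤ := by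
    rw [eq_top_iff]
    rintro x -
    obtain ⟨p, rfl⟩ := Ideal.Quotient.mk_surjective x
    have h1 : p ∈ Algebra.adjoin k (Set.range (X : Fin n → Pol k n)) := by
      rw [MvPolynomial.adjoin_range_X]; trivial
    have h2 : Ideal.Quotient.mkₐ k q p ∈ (Algebra.adjoin k
        (Set.range (X : Fin n → Pol k n))).map (Ideal.Quotient.mkₐ k q) :=
      Subalgebra.mem_map.2 ⟨p, h1, rfl⟩
    rw [AlgHom.map_adjoin, ← Set.range_comp] at h2
    exact h2
  constructor
  intro x
  have hx : x ∈ Algebra.adjoin k (Set.range fun i : Fin n =>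
      Ideal.Quotient.mk q (X i : Pol k n)) := by
    rw [htop]; trivial
  exact isAlgebraic_algebraMap (A := Pol k n ⧸ q) (⟨x, hx⟩ : Algebra.adjoin k (Set.range fun i : Fin n =>
      Ideal.Quotient.mk q (X i : Pol k n)))

end TR1_

theorem tr1_proof : Stmt_TR1.{u} := by
  classical
  intro k _ n q _
  have := TR1_.alg k n q
  obtain ⟨t, hts, ht⟩ := exists_isTranscendenceBasis_subset (R := k)
    (Set.range fun i : Fin n => Ideal.Quotient.mk q (X i : Pol k n))
  choose f hf using fun x : t => hts x.2
  have hinj : Function.Injective f := by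
    intro x y h
    apply Subtype.ext
    have h1 := hf x
    have h2 := hf y
    rw [h] at h1
    exact h1.symm.trans h2
  have hfin : Finite t := Finite.of_injective f hinj
  have hft : Fintype t := Fintype.ofFinite t
  let e1 : Fin (Fintype.card t) ≃ t := (Fintype.equivFin t).symm
  let e2 : t ≃ Set.range f := Equiv.ofInjective f hinj
  let e3 : Fin (Fintype.card ((Set.range f)ᶜ : Set (Fin n))) ≃ ((Set.range f)ᶜ : Set (Fin n)) :=
    (Fintype.equivFin _).symm
  refine ⟨Fintype.card t, Fintype.card ((Set.range f)ᶜ : Set (Fin n)),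
    (Equiv.sumCongr (e1.trans e2) e3).trans (Equiv.Set.sumCompl (Set.range f)), ?_⟩
  have h3 : IsTranscendenceBasis k (((↑) : t → Pol k n ⧸ q) ∘ e1) :=
    (isTranscendenceBasis_equiv e1).2 ht
  have h4 : (fun j : Fin (Fintype.card t) => Ideal.Quotient.mk q (X
      (((Equiv.sumCongr (e1.trans e2) e3).trans (Equiv.Set.sumCompl (Set.range f)))
        (Sum.inl j)) : Pol k n)) = ((↑) : t → Pol k n ⧸ q) ∘ e1 := by
    funext j
    exact hf (e1 j)
  rw [h4]
  exact h3

end Pool.Agent.DBX.SRV
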