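import Pool.Agent.DBX.SRV.Stmts

/-!
# MP_2c751f_ag, area SRV: local rings of polynomial rings at prime ideals
-/

set_option autoImplicit false

namespace Pool.Agent.DBX.SRV

open MvPolynomial IsLocalRing RingTheory.Sequence CategoryTheory

universe u

namespace TR2_

attribute [local instance] MvPolynomial.algebraMvPolynomial

theorem core {S P : Type u} [CommRing S] [CommRing P] [Algebra S P] (M : Submonoid S)
    [IsLocalization M P] (q : Ideal S) [q.IsPrime] (hdisj : Disjoint (M : Set S) (q : Set S)) :
    ∃ (_ : (q.map (algebraMap S P)).IsPrime), (q.map (algebraMap S P)).height = q.height ∧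
      Nonempty (Localization.AtPrime q ≃+* Localization.AtPrime (q.map (algebraMap S P))) := by
  have hQ : (q.map (algebraMap S P)).IsPrime :=
    IsLocalization.isPrime_of_isPrime_disjoint M P q inferInstance hdisj
  have hc : Ideal.under S (q.map (algebraMap S P)) = q :=
    IsLocalization.under_map_of_isPrime_disjoint M P inferInstance hdisj
  refine ⟨hQ, ?_, ?_⟩
  · rw [← IsLocalization.height_under M, hc]
  · have h1 : IsLocalization
        (Ideal.comap (algebraMap S P) (q.map (algebraMap S P))).primeCompl
        (Localization.AtPrime (q.map (algebraMap S P))) :=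
      IsLocalization.isLocalization_isLocalization_atPrime_isLocalization M
        (Localization.AtPrime (q.map (algebraMap S P))) (q.map (algebraMap S P))
    have h2 : (Ideal.comap (algebraMap S P) (q.map (algebraMap S P))).primeCompl =
        q.primeCompl := by
      ext x
      show x ∉ Ideal.under S (q.map (algebraMap S P)) ↔ x ∉ q
      rw [hc]
    rw [h2] at h1
    exact ⟨(IsLocalization.algEquiv q.primeCompl (Localization.AtPrime q)
      (Localization.AtPrime (q.map (algebraMap S P)))).toRingEquiv⟩

theorem fld {K B : Type u} [Field K] [CommRing B] [IsDomain B] {b : ℕ}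
    (π : MvPolynomial (Fin b) K →+* B) (hπ : Function.Surjective π)
    (hX : ∀ i, ∃ p : Polynomial K, p ≠ 0 ∧
      Polynomial.eval₂ (π.comp (C : K →+* MvPolynomial (Fin b) K)) (π (X i)) p = 0) :
    IsField B := by
  let _ : Algebra K B := (π.comp C).toAlgebra
  have hint : Algebra.IsIntegral K B := by
    refine ⟨fun y => ?_⟩
    obtain ⟨y, rfl⟩ := hπ y
    induction y using MvPolynomial.induction_on with
    | C c => exact isIntegral_algebraMap (R := K) (A := B) (x := c)
    | add p p' hp hp' => rw [map_add]; exact hp.add hp'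
    | mul_X p i hp =>
      rw [map_mul]
      refine hp.mul ?_
      apply IsAlgebraic.isIntegral
      exact hX i
  exact isField_of_isIntegral_of_isField' (Field.toIsField K)

section

variable (k : Type u) [Field k] (a b : ℕ)

/-- `k[x, y] = k[x][y]` -/
noncomputable def θ : MvPolynomial (Fin a ⊕ Fin b) k ≃ₐ[k]
    MvPolynomial (Fin b) (MvPolynomial (Fin a) k) :=
  (renameEquiv k (Equiv.sumComm (Fin a) (Fin b))).trans (sumAlgEquiv k (Fin b) (Fin a))

theorem θ_inl (j : Fin a) : θ k a b (X (Sum.inl j)) = C (X j) := by simp [θ]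

theorem θ_inr (j : Fin b) : θ k a b (X (Sum.inr j)) = X j := by simp [θ]

theorem θ_C (c : k) : θ k a b (C c) = C (C c) := by simp [θ]

/-- the inclusion of `k[x]` -/
noncomputable def iA : MvPolynomial (Fin a) k →+* MvPolynomial (Fin a ⊕ Fin b) k :=
  ((θ k a b).symm.toRingEquiv.toRingHom).comp
    (C : MvPolynomial (Fin a) k →+* MvPolynomial (Fin b) (MvPolynomial (Fin a) k))

theorem θ_iA (f : MvPolynomial (Fin a) k) : θ k a b (iA k a b f) = C f :=
  (θ k a b).apply_symm_apply _

theorem iA_C (c : k) : iA k a b (C c) = C c := by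
  apply (θ k a b).injective
  rw [θ_iA, θ_C]

theorem iA_X (j : Fin a) : iA k a b (X j) = X (Sum.inl j) := by
  apply (θ k a b).injective
  rw [θ_iA, θ_inl]

theorem mk_iA (q : Ideal (MvPolynomial (Fin a ⊕ Fin b) k)) (f : MvPolynomial (Fin a) k) :
    Ideal.Quotient.mk q (iA k a b f) =
      aeval (R := k) (fun j : Fin a => Ideal.Quotient.mk q
        (X (Sum.inl j) : MvPolynomial (Fin a ⊕ Fin b) k)) f := by
  induction f using MvPolynomial.induction_on with
  | C c =>
    rw [iA_C, aeval_C]
    rfl
  | add p q hp hq => rw [map_add, map_add, map_add, hp, hq]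
  | mul_X p j hp => rw [map_mul, map_mul, map_mul, hp, iA_X, aeval_X]

/-- the map to `k(x)[y]` -/
noncomputable def ρ : MvPolynomial (Fin a ⊕ Fin b) k →+*
    MvPolynomial (Fin b) (FractionRing (MvPolynomial (Fin a) k)) :=
  (algebraMap (MvPolynomial (Fin b) (MvPolynomial (Fin a) k))
    (MvPolynomial (Fin b) (FractionRing (MvPolynomial (Fin a) k)))).comp
    (θ k a b).toRingEquiv.symm.symm.toRingHom

theorem ρ_apply (x : MvPolynomial (Fin a ⊕ Fin b) k) : ρ k a b x =
    algebraMap (MvPolynomial (Fin b) (MvPolynomial (Fin a) k))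
      (MvPolynomial (Fin b) (FractionRing (MvPolynomial (Fin a) k))) (θ k a b x) := rfl

theorem ρ_iA (f : MvPolynomial (Fin a) k) : ρ k a b (iA k a b f) =
    C (algebraMap (MvPolynomial (Fin a) k) (FractionRing (MvPolynomial (Fin a) k)) f) := by
  rw [ρ_apply, θ_iA, MvPolynomial.algebraMap_def, MvPolynomial.map_C]

theorem ρ_inr (i : Fin b) : ρ k a b (X (Sum.inr i)) = X i := by
  rw [ρ_apply, θ_inr, MvPolynomial.algebraMap_def, MvPolynomial.map_X]

end

end TR2_

attribute [local instance] MvPolynomial.algebraMvPolynomial in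
open TR2_ in
theorem tr2_proof (hMXH : Stmt_MXH.{u}) : Stmt_TR2.{u} := by
  intro k _ a b q _ hb
  let A := MvPolynomial (Fin a) k
  let K := FractionRing (MvPolynomial (Fin a) k)
  let P := MvPolynomial (Fin b) (FractionRing (MvPolynomial (Fin a) k))
  let M0 : Submonoid (MvPolynomial (Fin b) (MvPolynomial (Fin a) k)) :=
    (nonZeroDivisors (MvPolynomial (Fin a) k)).map C
  have hM0 : IsLocalization M0 P :=
    MvPolynomial.isLocalization (nonZeroDivisors (MvPolynomial (Fin a) k)) K
  let _ : Algebra (MvPolynomial (Fin a ⊕ Fin b) k) P := (ρ k a b).toAlgebra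
  have hM : IsLocalization (Submonoid.map (θ k a b).toRingEquiv.symm M0) P :=
    IsLocalization.isLocalization_of_base_ringEquiv M0 P (θ k a b).toRingEquiv.symm
  have hdisj : Disjoint ((Submonoid.map (θ k a b).toRingEquiv.symm M0 :
      Submonoid (MvPolynomial (Fin a ⊕ Fin b) k)) : Set (MvPolynomial (Fin a ⊕ Fin b) k))
      (q : Set (MvPolynomial (Fin a ⊕ Fin b) k)) := by
    rw [Set.disjoint_left]
    rintro x ⟨y, ⟨f, hf, rfl⟩, rfl⟩ hx
    have h1 : iA k a b f ∈ q := hx
    rw [← Ideal.Quotient.eq_zero_iff_mem, mk_iA] at h1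
    have h2 : f = 0 := by
      apply hb.1
      show aeval _ f = aeval _ 0
      rw [h1, map_zero]
    exact nonZeroDivisors.ne_zero hf h2
  obtain ⟨hQ, hht, hiso⟩ := core (P := P) (Submonoid.map (θ k a b).toRingEquiv.symm M0) q hdisj
  have hQmax : (q.map (ρ k a b)).IsMaximal := by
    have hQ' : (q.map (ρ k a b)).IsPrime := hQ
    have hX : ∀ i : Fin b, ∃ p : Polynomial K, p ≠ 0 ∧
        Polynomial.eval₂ ((Ideal.Quotient.mk (q.map (ρ k a b))).comp (C : K →+* P))
          (Ideal.Quotient.mk (q.map (ρ k a b)) (X i)) p = 0 := by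
      intro i
      have halg := hb.isAlgebraic.isAlgebraic
        (Ideal.Quotient.mk q (X (Sum.inr i) : MvPolynomial (Fin a ⊕ Fin b) k))
      obtain ⟨p, hp0, hp⟩ := halg
      let e := hb.1.aevalEquiv
      let g : _ →+* MvPolynomial (Fin a) k := e.symm.toRingEquiv.toRingHom
      have hg : Function.Injective g := e.symm.injective
      let p' : Polynomial (MvPolynomial (Fin a) k) := p.map g
      have hp'0 : p' ≠ 0 := by
        intro h
        apply hp0
        exact Polynomial.map_injective g hg (by
          rw [Polynomial.map_zero]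
          exact h)
      have h1 : ((Ideal.Quotient.mk q).comp (iA k a b)).comp g = algebraMap _ _ := by
        apply RingHom.ext
        intro y
        show Ideal.Quotient.mk q (iA k a b (e.symm y)) = _
        rw [mk_iA]
        have h2 := hb.1.algebraMap_aevalEquiv (e.symm y)
        rw [← h2]
        show algebraMap _ _ (e (e.symm y)) = _
        rw [e.apply_symm_apply]
      have h3 : Polynomial.eval₂ (iA k a b) (X (Sum.inr i)) p' ∈ q := by
        rw [← Ideal.Quotient.eq_zero_iff_mem, Polynomial.hom_eval₂]
        show Polynomial.eval₂ ((Ideal.Quotient.mk q).comp (iA k a b)) _ (p.map g) = 0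
        rw [Polynomial.eval₂_map, h1]
        exact hp
      have h4 := Ideal.mem_map_of_mem (ρ k a b) h3
      rw [Polynomial.hom_eval₂, ρ_inr] at h4
      have h5 : (ρ k a b).comp (iA k a b) = (C : K →+* P).comp
          (algebraMap (MvPolynomial (Fin a) k) K) := RingHom.ext (ρ_iA k a b)
      rw [h5, ← Polynomial.eval₂_map, ← Ideal.Quotient.eq_zero_iff_mem,
        Polynomial.hom_eval₂] at h4
      refine ⟨p'.map (algebraMap (MvPolynomial (Fin a) k) K), ?_, h4⟩
      intro h
      apply hp'0
      exact Polynomial.map_injective (algebraMap (MvPolynomial (Fin a) k) K)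
        (IsFractionRing.injective (MvPolynomial (Fin a) k) K) (by
        rw [Polynomial.map_zero]
        exact h)
    have hdom : IsDomain (P ⧸ q.map (ρ k a b)) := Ideal.Quotient.isDomain _
    refine Ideal.Quotient.maximal_of_isField _ ?_
    exact fld (K := K) (B := P ⧸ q.map (ρ k a b)) (Ideal.Quotient.mk (q.map (ρ k a b)))
      Ideal.Quotient.mk_surjective hX
  refine ⟨?_, K, inferInstance, q.map (ρ k a b), hQmax, hiso⟩
  rw [← hht]
  exact hMXH K b _ hQmax

end Pool.Agent.DBX.SRV
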