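import Pool.Agent.DBX.SRV.Stmts

/-! # MP_2c751f_ag, squad DBX, area SRV: TRB -/

set_option autoImplicit false

namespace Pool.Agent.DBX.SRV

open MvPolynomial IsLocalRing RingTheory.Sequence CategoryTheory

universe u

theorem trb_proof (hTR1 : Stmt_TR1.{u}) (hTR2 : Stmt_TR2.{u}) : Stmt_TRB.{u} := by
  intro k _ n q hq
  obtain ⟨a, b, e, he⟩ := hTR1 k n q
  obtain ⟨φ, hφ⟩ : ∃ φ : MvPolynomial (Fin a ⊕ Fin b) k ≃ₐ[k] MvPolynomial (Fin n) k,
      ∀ i, φ (X i) = X (e i) := ⟨renameEquiv k e, fun i => by simp⟩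
  let q' : Ideal (MvPolynomial (Fin a ⊕ Fin b) k) := q.comap φ.toRingEquiv
  have hq' : q'.IsPrime := Ideal.comap_isPrime _ _
  have hmap : q = q'.map (φ : MvPolynomial (Fin a ⊕ Fin b) k →+* MvPolynomial (Fin n) k) := by
    exact (Ideal.map_comap_of_surjective _ φ.surjective q).symm
  let ψ : (MvPolynomial (Fin a ⊕ Fin b) k ⧸ q') ≃ₐ[k] (MvPolynomial (Fin n) k ⧸ q) :=
    Ideal.quotientEquivAlg q' q φ hmap
  have hb : IsTranscendenceBasis k (fun j : Fin a =>
      Ideal.Quotient.mk q' (X (Sum.inl j) : MvPolynomial (Fin a ⊕ Fin b) k)) := by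
    rw [← AlgEquiv.isTranscendenceBasis_iff ψ]
    have hfun : (fun j : Fin a => ψ (Ideal.Quotient.mk q'
        (X (Sum.inl j) : MvPolynomial (Fin a ⊕ Fin b) k))) =
        fun j : Fin a => Ideal.Quotient.mk q (X (e (Sum.inl j)) : MvPolynomial (Fin n) k) := by
      funext j
      show Ideal.Quotient.mk q (φ (X (Sum.inl j))) = _
      rw [hφ]
    have h2 := he
    rw [← hfun] at h2
    exact h2
  obtain ⟨hh, K, hK, Q, hQ, ⟨ρ⟩⟩ := hTR2 k a b q' hb
  refine ⟨b, K, hK, Q, hQ, ?_, ⟨?_⟩⟩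
  · have h1 : q'.height = q.height := RingEquiv.height_comap φ.toRingEquiv q
    rw [← h1]
    exact hh
  · exact (Localization.localRingEquiv q' q φ.toRingEquiv rfl).symm.trans ρ

end Pool.Agent.DBX.SRV
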