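import Pool.Agent.DBX.SRV.Stmts
import Pool.Agent.DBX.ALG.Stmts

set_option autoImplicit false

/-! # MP_2c751f_ag, squad DBX, area SRV: module VAN -/

namespace Pool.Agent.DBX.SRV

open MvPolynomial IsLocalRing RingTheory.Sequence CategoryTheory

universe u

namespace VAN_

theorem height_le (n : ℕ) (h : ℕ∞) (hn : 1 ≤ n) (hh : h + 1 ≤ (n : ℕ∞)) :
    h ≤ ((n - 1 : ℕ) : ℕ∞) := by
  obtain ⟨m, rfl⟩ : ∃ m, n = m + 1 := ⟨n - 1, by omega⟩
  rw [Nat.add_sub_cancel]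
  have h2 : h + 1 ≤ (m : ℕ∞) + 1 := by
    refine hh.trans (le_of_eq ?_)
    push_cast
    rfl
  exact (ENat.add_le_add_iff_right ENat.one_ne_top).1 h2

theorem az_zero {k : Type u} [Field k] {n : ℕ} (D : Dat k n) (m : ℤ) : D.AZ m 0 := by
  intro x h0 _ hx _
  refine ⟨fun _ => 0, rfl, fun σ => Submodule.zero_mem _, fun σ => ?_⟩
  have hxs : x σ = 0 := by
    by_cases hσ : σ.card = 0
    · rw [Finset.card_eq_zero.1 hσ, h0]
    · exact hx σ hσ
  rw [hxs]
  unfold cd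
  refine Finset.sum_eq_zero fun v _ => ?_
  exact zsmul_zero _

theorem bound (P : ℕ → ℕ → Prop) (N : ℕ)
    (h : ∀ j, 1 ≤ j → j ≤ N → ∃ t0 : ℕ, ∀ t : ℕ, t0 ≤ t → P t j) :
    ∃ t0 : ℕ, ∀ t : ℕ, t0 ≤ t → ∀ j, 1 ≤ j → j ≤ N → P t j := by
  classical
  induction N with
  | zero => exact ⟨0, fun t _ j h1 h2 => absurd h1 (by omega)⟩
  | succ N ih =>
    obtain ⟨t1, ht1⟩ := ih (fun j h1 h2 => h j h1 (by omega))
    obtain ⟨t2, ht2⟩ := h (N + 1) (by omega) le_rfl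
    refine ⟨max t1 t2, fun t ht j h1 h2 => ?_⟩
    by_cases hj : j ≤ N
    · exact ht1 t ((le_max_left _ _).trans ht) j h1 hj
    · have : j = N + 1 := by omega
      subst this
      exact ht2 t ((le_max_right _ _).trans ht)

end VAN_

theorem van_proof (hIRR : Stmt_IRR.{u}) (hTOR : Stmt_TOR.{u}) (hPLI : Stmt_PLI.{u})
    (hSYZ : Stmt_SYZ.{u}) (hFGV : Stmt_FGV.{u}) (hVNG : Stmt_VNG.{u})
    (hHHT : Pool.Agent.DBX.ALG.Stmt_HHT.{u}) : Pool.Agent.DBX.Stmt_VAN.{u} := by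
  intro k _ _ n D r c hD hc hcn hPD
  have hn : 1 ≤ n := by omega
  set e : ℕ := max (n - 1 - r) c with he
  have he1 : 1 ≤ e := hc.trans (le_max_right _ _)
  have hA : ∀ a, ∀ (q : Ideal (Pol k n)) [q.IsPrime], D.g a ∉ q →
      PL (Pol k n) (Pol k n ⧸ D.I) q e := by
    intro a q _ hq
    refine hTOR k n D.I hD.I_hom (D.g a) 1 e (hD.g_hom a) ?_ q hq
    intro q' hq'p hq'h hIq' hs
    have h1 := hHHT k n q' hq'p hq'h (D.g a) (hD.g_hom a) hs
    exact hPD q' hq'h hIq' ⟨a, hs⟩ (n - 1) (VAN_.height_le n q'.height hn h1)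
  have hB : ∀ a, ∀ (q : Ideal (Pol k n)) [q.IsPrime], D.g a ∉ q →
      PL (Pol k n) D.I q (e - 1) := by
    intro a q _ hq
    have h1 := hSYZ (Pol k n) D.I (Pol k n) (Pol k n ⧸ D.I) D.I.subtype D.I.mkQ
      (Submodule.injective_subtype _) (Submodule.mkQ_surjective _)
      (by rw [Submodule.range_subtype, Submodule.ker_mkQ]) q (e - 1)
    rw [Nat.sub_add_cancel he1] at h1
    exact h1.1 (hA a q hq)
  have hinj : Function.Injective (Algebra.linearMap (Pol k n) (Fr k n)) :=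
    IsFractionRing.injective (MvPolynomial (Fin n) k) (FractionRing (MvPolynomial (Fin n) k))
  let E : D.I ≃ₗ[Pol k n] (IF D.I) := Submodule.equivMapOfInjective _ hinj D.I
  have hC : ∀ a, ∀ (q : Ideal (Pol k n)) [q.IsPrime], D.g a ∉ q →
      PL (Pol k n) (IF D.I) q (e - 1) := by
    intro a q _ hq
    exact hPLI.2 (Pol k n) D.I (IF D.I) E q (e - 1) (e - 1) le_rfl (hB a q hq)
  have hFG : (IF D.I).FG := by
    unfold IF
    exact Submodule.FG.map _ (IsNoetherian.noetherian D.I)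
  have hLin : Lin D.g := ⟨hD.g_hom, hD.g_ne, hD.g_span⟩
  have hfg : ∀ j, 1 ≤ j → j + (e - 1) < n → FGH D.g (IF D.I) j := by
    intro j hj1 hj2
    exact hFGV k n D.p D.g hLin (e - 1) j hj1 hj2 (Fr k n) (IF D.I) hFG hC
  obtain ⟨t0, ht0⟩ := VAN_.bound (fun t j => D.AZ (-(t : ℤ)) j) (min r (n - c - 1) + 1)
    (fun j h1 h2 => by
      refine hVNG k n D hD j h1 (hfg j h1 ?_)
      rcases le_total (n - 1 - r) c with h | h
      · rw [he, max_eq_right h]
        have := (le_trans h2 (Nat.add_le_add_right (min_le_right _ _) 1))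
        omega
      · rw [he, max_eq_left h]
        have := (le_trans h2 (Nat.add_le_add_right (min_le_left _ _) 1))
        omega)
  refine ⟨t0, fun t ht g hg => ?_⟩
  by_cases h0 : g = 0
  · subst h0
    exact VAN_.az_zero D _
  · exact ht0 t ht g (by omega) hg

end Pool.Agent.DBX.SRV
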