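import Pool.Agent.DBX.SRV.Stmts
import Pool.Agent.DBX.ALG.Stmts
import Pool.Agent.DBX.Cd

set_option autoImplicit false

/-! # MP_2c751f_ag, squad DBX, area SRV, module VNG: finitely generated cohomology vanishes in
large negative degrees -/

namespace Pool.Agent.DBX.SRV

open MvPolynomial

noncomputable section

universe u

namespace VNG_

variable {k : Type u} [Field k] {n : ℕ}

theorem HF_mul {d : ℕ} {m : ℤ} {w : Pol k n} (hw : w.IsHomogeneous d) {x : Fr k n}
    (hx : x ∈ HF k n m) : inc k n w * x ∈ HF k n (m + d) := by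
  obtain ⟨a, b, i, j, ha, hb, hb0, hm, rfl⟩ := hx
  refine ⟨w * a, b, d + i, j, hw.mul ha, hb, hb0, ?_, ?_⟩
  · intro h
    have := hm (fun h0 => h (by rw [h0, mul_zero]))
    push_cast
    omega
  · rw [map_mul, mul_div_assoc]

/-- sums of homogeneous fractions -/
def HS (k : Type u) [Field k] (n : ℕ) : Submodule k (Fr k n) := ⨆ m, HF k n m

theorem HF_le (m : ℤ) : HF k n m ≤ HS k n := le_iSup (fun m => HF k n m) m

theorem HS_mul_hom {d : ℕ} {w : Pol k n} (hw : w.IsHomogeneous d) {x : Fr k n}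
    (hx : x ∈ HS k n) : inc k n w * x ∈ HS k n := by
  unfold HS at hx
  induction hx using Submodule.iSup_induction' with
  | mem m x hx => exact HF_le _ (HF_mul hw hx)
  | zero => rw [mul_zero]; exact Submodule.zero_mem _
  | add x y _ _ hx hy => rw [mul_add]; exact Submodule.add_mem _ hx hy

theorem inc_sum (w : Pol k n) (x : Fr k n) : inc k n w * x =
    ∑ d ∈ Finset.range (w.totalDegree + 1), inc k n (homogeneousComponent d w) * x := by
  rw [← Finset.sum_mul, ← map_sum, sum_homogeneousComponent]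

theorem HS_mul (w : Pol k n) {x : Fr k n} (hx : x ∈ HS k n) : inc k n w * x ∈ HS k n := by
  rw [inc_sum]
  exact Submodule.sum_mem _ (fun d _ =>
    HS_mul_hom (homogeneousComponent_isHomogeneous d w) hx)

/-- the projections to the homogeneous components -/
theorem exists_proj (hHFI : Pool.Agent.DBX.ALG.Stmt_HFI.{u}) (k : Type u) [Field k] (n : ℕ) :
    ∃ π : ℤ → (Fr k n →ₗ[k] Fr k n), ∀ (m m' : ℤ), ∀ x ∈ HF k n m',
      π m x = if m = m' then x else 0 := by
  classical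
  let S : (DirectSum ℤ (fun m => HF k n m)) →ₗ[k] Fr k n := DirectSum.coeLinearMap (fun m => HF k n m)
  have hS : ∀ f, S f = 0 → f = 0 := by
    intro f hf
    have h1 : ∑ m ∈ f.support, ((f m : HF k n m) : Fr k n) = 0 := by
      rw [← hf]
      exact (DirectSum.coeLinearMap_eq_dfinsuppSum _ _).symm
    have h2 := hHFI k n f.support (fun m => ((f m : HF k n m) : Fr k n)) (fun m => (f m).2) h1
    ext m
    by_cases hm : m ∈ f.support
    · exact h2 m hm
    · rw [DFinsupp.notMem_support_iff.1 hm]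
      rfl
  have hinj : Function.Injective S := by
    intro f g hfg
    have h1 : S (f - g) = 0 := by
      have h2 : S (f - g + g) = S (f - g) + S g := map_add S _ _
      rw [sub_add_cancel, hfg] at h2
      exact (left_eq_add.1 (h2.trans (add_comm _ _)))
    exact sub_eq_zero.1 (hS _ h1)
  let e := LinearEquiv.ofInjective S hinj
  have hex : ∀ m : ℤ, ∃ g : Fr k n →ₗ[k] Fr k n, g.comp (LinearMap.range S).subtype =
      (HF k n m).subtype.comp ((DirectSum.component k ℤ (fun m => HF k n m) m).comp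
        e.symm.toLinearMap) := fun m => LinearMap.exists_extend _
  choose π hπ using hex
  refine ⟨π, ?_⟩
  intro m m' x hx
  have h1 : S (DirectSum.lof k ℤ (fun m => HF k n m) m' ⟨x, hx⟩) = x :=
    DirectSum.coeLinearMap_lof (fun m => HF k n m) m' ⟨x, hx⟩
  have h0 : e (DirectSum.lof k ℤ (fun m => HF k n m) m' ⟨x, hx⟩) =
      (⟨x, ⟨_, h1⟩⟩ : LinearMap.range S) := Subtype.ext h1
  have h2 : e.symm (⟨x, ⟨_, h1⟩⟩ : LinearMap.range S) =
      DirectSum.lof k ℤ (fun m => HF k n m) m' ⟨x, hx⟩ := by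
    rw [← h0, LinearEquiv.symm_apply_apply]
  have h4 : π m x = ((DirectSum.component k ℤ (fun m => HF k n m) m)
      (DirectSum.lof k ℤ (fun m => HF k n m) m' ⟨x, hx⟩) : HF k n m) := by
    have := LinearMap.congr_fun (hπ m) (⟨x, ⟨_, h1⟩⟩ : LinearMap.range S)
    rw [← h2]
    exact this
  rw [h4]
  by_cases h : m = m'
  · subst h
    rw [if_pos rfl, DirectSum.component.lof_self]
  · rw [if_neg h]
    have h3 : (DirectSum.component k ℤ (fun m => HF k n m) m)
        (DirectSum.lof k ℤ (fun m => HF k n m) m' ⟨x, hx⟩) = 0 := by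
      rw [DirectSum.component.of, dif_neg (Ne.symm h)]
    rw [h3]
    rfl

section

variable {π : ℤ → (Fr k n →ₗ[k] Fr k n)}
  (hπ : ∀ (m m' : ℤ), ∀ x ∈ HF k n m', π m x = if m = m' then x else 0)

include hπ

theorem proj_sum (T : Finset ℤ) (y : ℤ → Fr k n) (hy : ∀ m, y m ∈ HF k n m) (m : ℤ) :
    π m (∑ m' ∈ T, y m') = if m ∈ T then y m else 0 := by
  classical
  rw [map_sum, Finset.sum_congr rfl (fun m' _ => hπ m m' _ (hy m')), Finset.sum_ite_eq]

theorem proj_mul_hom {d : ℕ} {w : Pol k n} (hw : w.IsHomogeneous d) {x : Fr k n}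
    (hx : x ∈ HS k n) (m : ℤ) : π m (inc k n w * x) = inc k n w * π (m - d) x := by
  unfold HS at hx
  induction hx using Submodule.iSup_induction' with
  | mem m' x hx =>
    rw [hπ _ _ _ (HF_mul hw hx), hπ _ _ _ hx]
    by_cases h : m = m' + d
    · rw [if_pos h, if_pos (by omega)]
    · rw [if_neg h, if_neg (by omega), mul_zero]
  | zero => rw [mul_zero, map_zero, map_zero, mul_zero]
  | add x y _ _ hx hy => rw [mul_add, map_add, hx, hy, map_add, mul_add]

theorem proj_mul (w : Pol k n) {x : Fr k n} (hx : x ∈ HS k n) {B : ℤ}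
    (h : ∀ m, m ≤ B → π m x = 0) (m : ℤ) (hm : m ≤ B) : π m (inc k n w * x) = 0 := by
  rw [inc_sum, map_sum]
  refine Finset.sum_eq_zero (fun d _ => ?_)
  rw [proj_mul_hom hπ (homogeneousComponent_isHomogeneous d w) hx, h _ (by omega), mul_zero]

end

end VNG_

open VNG_ in
theorem vng_proof (hELC : Stmt_ELC.{u}) (hHFI : Pool.Agent.DBX.ALG.Stmt_HFI.{u})
    (hEGR : Pool.Agent.DBX.ALG.Stmt_EGR.{u}) : Stmt_VNG.{u} := by
  classical
  intro k _ n D hD j hj hF
  obtain ⟨G, hG, hgen⟩ := hF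
  obtain ⟨π, hπ⟩ := exists_proj hHFI k n
  have hloc : ∀ σ z, z ∈ D.E σ ∅ ↔ z ∈ loc D.g (IF D.I) σ := hELC k n D hD.g_ne
  -- components of elements of `E σ ∅`
  have hE : ∀ σ, ∀ z ∈ D.E σ ∅, z ∈ HS k n ∧ (∀ m, π m z ∈ D.Eg m σ ∅) ∧
      ∃ b : ℕ, ∀ m : ℤ, m ≤ -(b : ℤ) → π m z = 0 := by
    intro σ z hz
    obtain ⟨T, y, hy, rfl⟩ := hEGR k n D hD σ ∅ z hz
    have hy' : ∀ m, y m ∈ HF k n m := fun m => (hy m).2
    refine ⟨Submodule.sum_mem _ (fun m _ => HF_le m (hy' m)), fun m => ?_, ?_⟩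
    · rw [proj_sum hπ T y hy']
      split_ifs
      · exact hy m
      · exact Submodule.zero_mem _
    · refine ⟨∑ m ∈ T, m.natAbs + 1, fun m hm => ?_⟩
      rw [proj_sum hπ T y hy', if_neg]
      intro hmT
      have h1 : m.natAbs ≤ ∑ m ∈ T, m.natAbs :=
        Finset.single_le_sum (f := fun m : ℤ => m.natAbs) (fun _ _ => Nat.zero_le _) hmT
      omega
  have hG1 : ∀ z ∈ G, ∀ σ, z σ ∈ D.E σ ∅ := fun z hz σ => (hloc σ _).2 ((hG z hz).1.1 σ)
  -- a bound for the generators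
  have hb : ∃ b : ℕ, ∀ z ∈ G, ∀ σ, ∀ m : ℤ, m ≤ -(b : ℤ) → π m (z σ) = 0 := by
    have h1 : ∀ z ∈ G, ∃ b : ℕ, ∀ σ, ∀ m : ℤ, m ≤ -(b : ℤ) → π m (z σ) = 0 := by
      intro z hz
      choose f hf using fun σ => (hE σ _ (hG1 z hz σ)).2.2
      refine ⟨Finset.univ.sup f, fun σ m hm => hf σ m ?_⟩
      have h2 : f σ ≤ Finset.univ.sup f := Finset.le_sup (Finset.mem_univ σ)
      omega
    choose! f hf using h1
    refine ⟨G.sup f, fun z hz σ m hm => hf z hz σ m ?_⟩
    have h2 : f z ≤ G.sup f := Finset.le_sup hz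
    omega
  obtain ⟨b, hb⟩ := hb
  have hspan : ∀ u ∈ Submodule.span (Pol k n) (G : Set (Finset (Fin D.p) → Fr k n)), ∀ σ,
      u σ ∈ HS k n ∧ ∀ m : ℤ, m ≤ -(b : ℤ) → π m (u σ) = 0 := by
    intro u hu
    induction hu using Submodule.span_induction with
    | mem z hz => exact fun σ => ⟨(hE σ _ (hG1 z hz σ)).1, hb z hz σ⟩
    | zero =>
      intro σ
      exact ⟨Submodule.zero_mem _, fun m _ => by rw [Pi.zero_apply, map_zero]⟩
    | add x y _ _ hx hy =>
      intro σ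
      refine ⟨Submodule.add_mem _ (hx σ).1 (hy σ).1, fun m hm => ?_⟩
      rw [Pi.add_apply, map_add, (hx σ).2 m hm, (hy σ).2 m hm, add_zero]
    | smul a x _ hx =>
      intro σ
      have h1 : (a • x) σ = inc k n a * x σ := by
        rw [Pi.smul_apply, Algebra.smul_def]
      rw [h1]
      exact ⟨HS_mul a (hx σ).1, proj_mul hπ a (hx σ).1 (hx σ).2⟩
  refine ⟨b, fun t ht x hx0 hxE hxc hxz => ?_⟩
  have hxZ : IsZ D.g (IF D.I) j x :=
    ⟨⟨fun σ => (hloc σ _).1 (hxE σ).1, hxc⟩, hxz⟩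
  obtain ⟨y, hy0, hyl, -, hyG⟩ := hgen x hxZ
  refine ⟨fun σ => π (-(t : ℤ)) (y σ), ?_, fun σ => ?_, fun σ => ?_⟩
  · change π (-(t : ℤ)) (y ∅) = 0
    rw [hy0, map_zero]
  · exact (hE σ _ ((hloc σ _).2 (hyl σ))).2.1 _
  · have h1 := congrFun (cd_map (π (-(t : ℤ))).toAddMonoidHom y) σ
    have h2 : cd (fun σ => π (-(t : ℤ)) (y σ)) σ = π (-(t : ℤ)) (cd y σ) := h1
    rw [h2]
    have h3 := (hspan _ hyG σ).2 (-(t : ℤ)) (by omega)
    rw [Pi.sub_apply, map_sub, hπ _ _ _ (hxE σ).2, if_pos rfl, sub_eq_zero] at h3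
    exact h3.symm

end

end Pool.Agent.DBX.SRV
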