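import Pool.Agent.DBX.CMD.Stmts
import Pool.Agent.DBX.ALG.Stmts
import Pool.Agent.DBX.GEN.Stmts
import Pool.Agent.DBX.SRV.FLS
import Pool.Agent.DBX.SRV.LPS
import Pool.Agent.DBX.SRV.MXH
import Pool.Agent.DBX.SRV.TR2
import Pool.Agent.DBX.SRV.HAR
import Pool.Agent.DBX.SRV.TR1
import Pool.Agent.DBX.SRV.DMB
import Pool.Agent.DBX.SRV.DM1
import Pool.Agent.DBX.SRV.NND
import Pool.Agent.DBX.SRV.DM2
import Pool.Agent.DBX.SRV.COR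
import Pool.Agent.DBX.SRV.MNH
import Pool.Agent.DBX.SRV.IRR
import Pool.Agent.DBX.SRV.EQH
import Pool.Agent.DBX.SRV.ELC
import Pool.Agent.DBX.SRV.VNG
import Pool.Agent.DBX.SRV.EL2
import Pool.Agent.DBX.SRV.EL1
import Pool.Agent.DBX.SRV.BR1
import Pool.Agent.DBX.SRV.SBP
import Pool.Agent.DBX.SRV.EXS
import Pool.Agent.DBX.SRV.FCT
import Pool.Agent.DBX.SRV.BCG
import Pool.Agent.DBX.SRV.PLI
import Pool.Agent.DBX.SRV.SYZ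
import Pool.Agent.DBX.SRV.OPN
import Pool.Agent.DBX.SRV.DM4
import Pool.Agent.DBX.SRV.INV
import Pool.Agent.DBX.SRV.HMJ
import Pool.Agent.DBX.SRV.TOR
import Pool.Agent.DBX.SRV.PDD
import Pool.Agent.DBX.SRV.TRB
import Pool.Agent.DBX.SRV.GDX
import Pool.Agent.DBX.SRV.GDP
import Pool.Agent.DBX.SRV.GDL
import Pool.Agent.DBX.SRV.GLQ
import Pool.Agent.DBX.SRV.PDQ
import Pool.Agent.DBX.SRV.EXT
import Pool.Agent.DBX.SRV.LPC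
import Pool.Agent.DBX.SRV.BCL
import Pool.Agent.DBX.SRV.DM3
import Pool.Agent.DBX.SRV.HVS
import Pool.Agent.DBX.SRV.HVB
import Pool.Agent.DBX.SRV.FGF
import Pool.Agent.DBX.SRV.LPF
import Pool.Agent.DBX.SRV.FGV
import Pool.Agent.DBX.SRV.VAN
import Pool.Agent.DBX.SRV.SRM
import Pool.Agent.DBX.SRV.SPD
import Pool.Agent.DBX.SRV.BCH
import Pool.Agent.DBX.SRV.DS1
import Pool.Agent.DBX.SRV.DHM
import Pool.Agent.DBX.SRV.DS2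
import Pool.Agent.DBX.SRV.KSC
import Pool.Agent.DBX.SRV.DMS
import Pool.Agent.DBX.SRV.INP

set_option autoImplicit false

/-! # MP_2c751f_ag, squad DBX, area SRV: assembly of Stmt_VAN, Stmt_INP, Stmt_SPD -/

namespace Pool.Agent.DBX.SRV

universe u

namespace Asm

theorem ok_FLS (hFLT : Pool.Agent.DBX.GEN.Stmt_FLT.{u}) : Stmt_FLS.{u} :=
  fls_proof hFLT

theorem ok_LPS  : Stmt_LPS.{u} :=
  lps_proof 

theorem ok_MXH  : Stmt_MXH.{u} :=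
  mxh_proof 

theorem ok_TR2  : Stmt_TR2.{u} :=
  tr2_proof ok_MXH

theorem ok_HAR  : Stmt_HAR.{u} :=
  har_proof 

theorem ok_TR1  : Stmt_TR1.{u} :=
  tr1_proof 

theorem ok_DMB  : Stmt_DMB.{u} :=
  dmb_proof 

theorem ok_DM1  : Stmt_DM1.{u} :=
  dm1_proof ok_TR1 ok_TR2 ok_DMB

theorem ok_NND  : Stmt_NND.{u} :=
  nnd_proof ok_DM1

theorem ok_DM2  : Stmt_DM2.{u} :=
  dm2_proof ok_DM1 ok_NND

theorem ok_COR  : Stmt_COR.{u} :=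
  cor_proof 

theorem ok_MNH  : Stmt_MNH.{u} :=
  mnh_proof ok_COR

theorem ok_IRR  : Stmt_IRR.{u} :=
  irr_proof ok_MXH

theorem ok_EQH  : Stmt_EQH.{u} :=
  eqh_proof ok_HAR ok_DM2 ok_MNH ok_IRR

theorem ok_ELC  : Stmt_ELC.{u} :=
  elc_proof 

theorem ok_VNG (hEGR : Pool.Agent.DBX.ALG.Stmt_EGR.{u}) (hHFI : Pool.Agent.DBX.ALG.Stmt_HFI.{u}) : Stmt_VNG.{u} :=
  vng_proof ok_ELC hHFI hEGR

theorem ok_EL2  : Stmt_EL2.{u} :=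
  el2_proof 

theorem ok_EL1  : Stmt_EL1.{u} :=
  el1_proof 

theorem ok_BR1  : Stmt_BR1.{u} :=
  br1_proof 

theorem ok_SBP  : Stmt_SBP.{u} :=
  sbp_proof 

theorem ok_EXS  : Stmt_EXS.{u} :=
  exs_proof ok_SBP

theorem ok_FCT  : Stmt_FCT.{u} :=
  fct_proof 

theorem ok_BCG  : Stmt_BCG.{u} :=
  bcg_proof 

theorem ok_PLI  : Stmt_PLI.{u} :=
  pli_proof 

theorem ok_SYZ  : Stmt_SYZ.{u} :=
  syz_proof 

theorem ok_OPN  : Stmt_OPN.{u} :=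
  opn_proof ok_PLI ok_SYZ

theorem ok_DM4  : Stmt_DM4.{u} :=
  dm4_proof ok_DM2

theorem ok_INV  : Stmt_INV.{u} :=
  inv_proof ok_BCG

theorem ok_HMJ  : Stmt_HMJ.{u} :=
  hmj_proof 

theorem ok_TOR  : Stmt_TOR.{u} :=
  tor_proof ok_OPN ok_INV ok_COR ok_HMJ ok_PLI

theorem ok_PDD  : Stmt_PDD.{u} :=
  pdd_proof 

theorem ok_TRB  : Stmt_TRB.{u} :=
  trb_proof ok_TR1 ok_TR2

theorem ok_GDX  : Stmt_GDX.{u} :=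
  gdx_proof 

theorem ok_GDP  : Stmt_GDP.{u} :=
  gdp_proof ok_GDX

theorem ok_GDL  : Stmt_GDL.{u} :=
  gdl_proof ok_PLI

theorem ok_GLQ  : Stmt_GLQ.{u} :=
  glq_proof ok_TRB ok_GDP ok_GDL

theorem ok_PDQ  : Stmt_PDQ.{u} :=
  pdq_proof ok_BR1 ok_PDD ok_GLQ ok_PLI

theorem ok_EXT  : Stmt_EXT.{u} :=
  ext_proof 

theorem ok_LPC  : Stmt_LPC.{u} :=
  lpc_proof ok_FCT ok_EXT

theorem ok_BCL  : Stmt_BCL.{u} :=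
  bcl_proof ok_BCG

theorem ok_DM3  : Stmt_DM3.{u} :=
  dm3_proof ok_DM1

theorem ok_HVS (hRSQ : Pool.Agent.DBX.CMD.Stmt_RSQ.{u, u}) : Stmt_HVS.{u} :=
  hvs_proof hRSQ

theorem ok_HVB (hRSQ : Pool.Agent.DBX.CMD.Stmt_RSQ.{u, u}) : Stmt_HVB.{u} :=
  hvb_proof (ok_HVS hRSQ)

theorem ok_FGF (hRSQ : Pool.Agent.DBX.CMD.Stmt_RSQ.{u, u}) : Stmt_FGF.{u} :=
  fgf_proof (ok_HVB hRSQ)

theorem ok_LPF (hRSQ : Pool.Agent.DBX.CMD.Stmt_RSQ.{u, u}) : Stmt_LPF.{u} :=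
  lpf_proof ok_EL2 (ok_FGF hRSQ) ok_LPS

theorem ok_FGV (hRSQ : Pool.Agent.DBX.CMD.Stmt_RSQ.{u, u}) : Stmt_FGV.{u} :=
  fgv_proof ok_LPC (ok_LPF hRSQ) ok_EXS ok_SBP ok_SYZ ok_EL1 (ok_FGF hRSQ)

theorem ok_VAN (hEGR : Pool.Agent.DBX.ALG.Stmt_EGR.{u}) (hHFI : Pool.Agent.DBX.ALG.Stmt_HFI.{u}) (hHHT : Pool.Agent.DBX.ALG.Stmt_HHT.{u}) (hRSQ : Pool.Agent.DBX.CMD.Stmt_RSQ.{u, u}) : Pool.Agent.DBX.Stmt_VAN.{u} :=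
  van_proof ok_IRR ok_TOR ok_PLI ok_SYZ (ok_FGV hRSQ) (ok_VNG hEGR hHFI) hHHT

theorem ok_SRM  : Stmt_SRM.{u} :=
  srm_proof 

theorem ok_SPD  : Pool.Agent.DBX.Stmt_SPD.{u} :=
  spd_proof ok_SRM ok_EQH ok_DM3 ok_DM4 ok_PDQ

theorem ok_BCH  : Stmt_BCH.{u} :=
  bch_proof 

theorem ok_DS1  : Stmt_DS1.{u} :=
  ds1_proof 

theorem ok_DHM  : Stmt_DHM.{u} :=
  dhm_proof ok_DM3 ok_DM4 ok_MNH ok_IRR

theorem ok_DS2  : Stmt_DS2.{u} :=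
  ds2_proof ok_DHM ok_IRR

theorem ok_KSC  : Stmt_KSC.{u} :=
  ksc_proof 

theorem ok_DMS  : Stmt_DMS.{u} :=
  dms_proof ok_DS1 ok_DS2 ok_KSC

theorem ok_INP (hFLT : Pool.Agent.DBX.GEN.Stmt_FLT.{u}) : Pool.Agent.DBX.Stmt_INP.{u} :=
  inp_proof (ok_FLS hFLT) ok_BCL ok_BCH ok_DMS

end Asm

end Pool.Agent.DBX.SRV
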