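import Pool.Agent.DBX.SRV.Stmts

set_option autoImplicit false

namespace Pool.Agent.DBX.SRV

open MvPolynomial IsLocalRing RingTheory.Sequence CategoryTheory

universe u

theorem cor_proof : Stmt_COR.{u} := by
  intro k _ n q hq
  let _ : GradedAlgebra (homogeneousSubmodule (Fin n) k) := MvPolynomial.gradedAlgebra
  refine ⟨(q.homogeneousCore (homogeneousSubmodule (Fin n) k)).toIdeal,
    Ideal.IsPrime.homogeneousCore (𝒜 := homogeneousSubmodule (Fin n) k) hq, ?_, 
    Ideal.toIdeal_homogeneousCore_le _ q, ?_⟩
  · intro w hw d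
    have h := (q.homogeneousCore (homogeneousSubmodule (Fin n) k)).isHomogeneous d hw
    have h2 : ((DirectSum.decompose (homogeneousSubmodule (Fin n) k) w d : _) : Pol k n)
        = homogeneousComponent d w := by
      exact MvPolynomial.decomposition.decompose'_apply w d
    rw [← h2]
    exact h
  · intro w d hw hwq
    exact Ideal.mem_homogeneousCore_of_homogeneous_of_mem ⟨d, hw⟩ hwq

end Pool.Agent.DBX.SRV
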