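import Pool.Agent.DBX.SRV.Stmts

set_option autoImplicit false

/-! # MP_2c751f_ag, squad DBX, area SRV: module DS2 -/

namespace Pool.Agent.DBX.SRV

open MvPolynomial IsLocalRing RingTheory.Sequence CategoryTheory Pool.Agent.DBX

universe u

theorem ds2_proof (hDHM : Stmt_DHM.{u}) (hIRR : Stmt_IRR.{u}) : Stmt_DS2.{u} := by
  intro k _ n J hJ l hl
  by_cases hT : J = ⊤
  · have h1 : ringKrullDim (Pol k n ⧸ J) = ⊥ := by
      rw [hT]
      exact ringKrullDim_eq_bot_of_subsingleton
    rw [h1]
    exact bot_le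
  obtain ⟨hmax, hhom, _, hle⟩ := hIRR k n
  have hJm := hle J hJ hT
  -- the maximal ideal of the quotient
  have hsurj : Function.Surjective (Ideal.Quotient.mk J) := Ideal.Quotient.mk_surjective
  set P : Ideal (Pol k n ⧸ J) := (mm k n).map (Ideal.Quotient.mk J) with hP
  have hcomap : P.comap (Ideal.Quotient.mk J) = mm k n := by
    rw [hP, Ideal.comap_map_of_surjective _ hsurj]
    have h2 : Ideal.comap (Ideal.Quotient.mk J) ⊥ = J := by
      rw [← RingHom.ker_eq_comap_bot, Ideal.mk_ker]
    rw [h2, sup_eq_left]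
    exact hJm
  have : (mm k n).IsPrime := hmax.isPrime
  have hPp : P.IsPrime := by
    refine Ideal.map_isPrime_of_surjective hsurj ?_
    rw [Ideal.mk_ker]
    exact hJm
  obtain ⟨d, hd⟩ : ∃ d : ℕ, ringKrullDim (Pol k n ⧸ J) = (d : WithBot ℕ∞) := by
    have h3 : ringKrullDim (Pol k n ⧸ J) ≤ (n : WithBot ℕ∞) := by
      refine le_trans (ringKrullDim_quotient_le J) ?_
      rw [MvPolynomial.ringKrullDim_of_isNoetherianRing, ringKrullDim_eq_zero_of_field]
      simp
    have : Nontrivial (Pol k n ⧸ J) := Ideal.Quotient.nontrivial_iff.mpr hT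
    have h4 : (0 : WithBot ℕ∞) ≤ ringKrullDim (Pol k n ⧸ J) := ringKrullDim_nonneg_of_nontrivial
    generalize ringKrullDim (Pol k n ⧸ J) = x at h3 h4
    induction x using WithBot.recBotCoe with
    | bot => simp at h4
    | coe x =>
      induction x using ENat.recTopCoe with
      | top =>
        exfalso
        have h5 : ((⊤ : ℕ∞) : WithBot ℕ∞) ≤ ((n : ℕ∞) : WithBot ℕ∞) := h3
        rw [WithBot.coe_le_coe] at h5
        exact absurd h5 (by simp)
      | coe m => exact ⟨m, rfl⟩
  have hht := hDHM k n J d hJ hd P hcomap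
  have hlm : Ideal.Quotient.mk J l ∈ P := by
    refine Ideal.mem_map_of_mem _ ?_
    have h5 := hl
    rw [← MvPolynomial.mem_homogeneousSubmodule,
      MvPolynomial.homogeneousSubmodule_one_eq_span_X] at h5
    unfold mm
    clear hl
    induction h5 using Submodule.span_induction with
    | mem x hx => exact Ideal.subset_span hx
    | zero => exact Ideal.zero_mem _
    | add x y _ _ hx hy => exact Ideal.add_mem _ hx hy
    | smul c x _ hx =>
      rw [MvPolynomial.smul_eq_C_mul]
      exact Ideal.mul_mem_left _ _ hx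
  have hkey := Ideal.height_le_ringKrullDim_quotient_add_one hlm
  rw [hht] at hkey
  rw [hd]
  refine le_trans hkey ?_
  gcongr
  -- a surjection S/(J + l) → (S/J)/(l)
  have h7 : J ⊔ Ideal.span {l} ≤ RingHom.ker
      ((Ideal.Quotient.mk (Ideal.span {Ideal.Quotient.mk J l})).comp (Ideal.Quotient.mk J)) := by
    refine sup_le ?_ ?_
    · intro b hb
      rw [RingHom.mem_ker, RingHom.comp_apply, Ideal.Quotient.eq_zero_iff_mem.mpr hb, map_zero]
    · rw [Ideal.span_singleton_le_iff_mem, RingHom.mem_ker, RingHom.comp_apply,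
        Ideal.Quotient.eq_zero_iff_mem]
      exact Ideal.mem_span_singleton_self _
  have h6 : ∀ a ∈ J ⊔ Ideal.span {l},
      ((Ideal.Quotient.mk (Ideal.span {Ideal.Quotient.mk J l})).comp (Ideal.Quotient.mk J)) a =
        0 := by
    intro a ha
    exact h7 ha
  refine ringKrullDim_le_of_surjective (Ideal.Quotient.lift _ _ h6) ?_
  refine Ideal.Quotient.lift_surjective_of_surjective _ _ ?_
  exact Ideal.Quotient.mk_surjective.comp Ideal.Quotient.mk_surjective

end Pool.Agent.DBX.SRV
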