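import Pool.Agent.DBX.Alg

set_option autoImplicit false

/-! # MP_2c751f_ag, squad DBX, area SRV: definitions -/

namespace Pool.Agent.DBX.SRV

open MvPolynomial

noncomputable section

universe u

/-! ## Projective dimension -/

/-- `pd_A M ≤ e` -/
def PDLE (A : Type u) [CommRing A] (M : Type u) [AddCommGroup M] [Module A M] (e : ℕ) : Prop :=
  CategoryTheory.HasProjectiveDimensionLE (ModuleCat.of A M) e

/-- `pd_{A_q} M_q ≤ e` -/
def PL (A : Type u) [CommRing A] (M : Type u) [AddCommGroup M] [Module A M] (q : Ideal A)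
    [q.IsPrime] (e : ℕ) : Prop :=
  PDLE (Localization.AtPrime q) (LocalizedModule q.primeCompl M) e

/-- the global dimension of `A` is at most `r` -/
def GD (A : Type u) [CommRing A] (r : ℕ) : Prop :=
  ∀ (M : Type u) [AddCommGroup M] [Module A M], PDLE A M r

/-! ## Čech cohomology of submodules of a fixed module -/

section Cech

variable {A : Type*} [CommRing A] {W : Type*} [AddCommGroup W] [Module A W] {p : ℕ}

/-- The localisation `N_{g_σ}` inside `W` (the `g a` are supposed to act bijectively on `W`). -/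
def loc (g : Fin p → A) (N : Submodule A W) (σ : Finset (Fin p)) : Submodule A W where
  carrier := {x | ∃ e : ℕ, (∏ a ∈ σ, g a) ^ e • x ∈ N}
  zero_mem' := ⟨0, by rw [smul_zero]; exact N.zero_mem⟩
  add_mem' := by
    rintro x y ⟨e, he⟩ ⟨e', he'⟩
    refine ⟨e + e', ?_⟩
    rw [smul_add]
    refine N.add_mem ?_ ?_
    · rw [pow_add, mul_comm, mul_smul]; exact N.smul_mem _ he
    · rw [pow_add, mul_smul]; exact N.smul_mem _ he'
  smul_mem' := by
    rintro c x ⟨e, he⟩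
    refine ⟨e, ?_⟩
    rw [smul_comm]
    exact N.smul_mem _ he

/-- cochains of degree `j` -/
def Cc (g : Fin p → A) (N : Submodule A W) (j : ℕ) : Submodule A (Finset (Fin p) → W) where
  carrier := {x | (∀ σ, x σ ∈ loc g N σ) ∧ ∀ σ, σ.card ≠ j → x σ = 0}
  zero_mem' := ⟨fun σ => (loc g N σ).zero_mem, fun _ _ => rfl⟩
  add_mem' := by
    rintro x y ⟨h1, h2⟩ ⟨h3, h4⟩
    refine ⟨fun σ => (loc g N σ).add_mem (h1 σ) (h3 σ), fun σ hσ => ?_⟩
    rw [Pi.add_apply, h2 σ hσ, h4 σ hσ, add_zero]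
  smul_mem' := by
    rintro c x ⟨h1, h2⟩
    refine ⟨fun σ => (loc g N σ).smul_mem c (h1 σ), fun σ hσ => ?_⟩
    rw [Pi.smul_apply, h2 σ hσ, smul_zero]

/-- cocycles of degree `j` -/
def IsZ (g : Fin p → A) (N : Submodule A W) (j : ℕ) (x : Finset (Fin p) → W) : Prop :=
  x ∈ Cc g N j ∧ ∀ σ, cd x σ = 0

/-- Vanishing of `H^j` of the augmented Čech complex of `M / N` (`j = card σ`), `N ≤ M ≤ W`. -/
def HV (g : Fin p → A) (M N : Submodule A W) (j : ℕ) : Prop :=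
  ∀ x ∈ Cc g M j, (∀ σ, cd x σ ∈ loc g N σ) →
    ∃ y : Finset (Fin p) → W, (∀ σ, y σ ∈ loc g M σ) ∧ (∀ σ, σ.card + 1 ≠ j → y σ = 0) ∧
      ∀ σ, x σ - cd y σ ∈ loc g N σ

/-- The `A`-module `H^j` of the non-augmented Čech complex of `N` is finitely generated. -/
def FGH (g : Fin p → A) (N : Submodule A W) (j : ℕ) : Prop :=
  ∃ G : Finset (Finset (Fin p) → W), (∀ z ∈ G, IsZ g N j z) ∧
    ∀ x, IsZ g N j x → ∃ y : Finset (Fin p) → W, y ∅ = 0 ∧ (∀ σ, y σ ∈ loc g N σ) ∧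
      (∀ σ, σ.card + 1 ≠ j → y σ = 0) ∧ x - cd y ∈ Submodule.span A (G : Set (Finset (Fin p) → W))

/-- `0 → Z₁ → Z₂ → Z₃ → 0` is exact on the open set given by `σ`. -/
structure Ex {W₁ W₂ W₃ : Type*} [AddCommGroup W₁] [AddCommGroup W₂] [AddCommGroup W₃]
    [Module A W₁] [Module A W₂] [Module A W₃] (g : Fin p → A) (φ : W₁ →ₗ[A] W₂)
    (ψ : W₂ →ₗ[A] W₃) (Z₁ : Submodule A W₁) (Z₂ : Submodule A W₂) (Z₃ : Submodule A W₃)
    (σ : Finset (Fin p)) : Prop where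
  inj : ∀ w ∈ loc g Z₁ σ, φ w = 0 → w = 0
  comp : ∀ w ∈ loc g Z₁ σ, ψ (φ w) = 0
  map₁ : ∀ w ∈ loc g Z₁ σ, φ w ∈ loc g Z₂ σ
  map₂ : ∀ w ∈ loc g Z₂ σ, ψ w ∈ loc g Z₃ σ
  surj : ∀ w ∈ loc g Z₃ σ, ∃ w' ∈ loc g Z₂ σ, ψ w' = w
  ex : ∀ w ∈ loc g Z₂ σ, ψ w = 0 → ∃ w' ∈ loc g Z₁ σ, φ w' = w

end Cech

/-! ## Submodules of vector spaces over the fraction field -/

section Fr

variable {k : Type u} [Field k] {n : ℕ}

/-- an ideal of `k[x]` as a submodule of `k(x)` -/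
def IF (I : Ideal (Pol k n)) : Submodule (Pol k n) (Fr k n) :=
  Submodule.map (Algebra.linearMap (Pol k n) (Fr k n)) I

/-- `k[x]^ι` as a submodule of `k(x)^ι` -/
def SB (k : Type u) [Field k] (n : ℕ) (ι : Type) : Submodule (Pol k n) (ι → Fr k n) where
  carrier := {w | ∀ i, w i ∈ IF (⊤ : Ideal (Pol k n))}
  zero_mem' := fun _ => Submodule.zero_mem _
  add_mem' := fun h h' i => Submodule.add_mem _ (h i) (h' i)
  smul_mem' := fun c _ h i => Submodule.smul_mem _ c (h i)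

/-- The family `g` is a system of nonzero linear forms spanning all linear forms. -/
structure Lin {p : ℕ} (g : Fin p → Pol k n) : Prop where
  hom : ∀ a, (g a).IsHomogeneous 1
  ne : ∀ a, g a ≠ 0
  span : ∀ i, (X i : Pol k n) ∈ Submodule.span k (Set.range g)

/-- `Z` is locally (on the open sets `g a ≠ 0`) a direct summand of a free module: there are
`π : k[x]^ι → Z` onto and `s a : Z → k[x]^ι` with `π ∘ s a = g a ^ N`. -/
def LP {p : ℕ} (g : Fin p → Pol k n) {W : Type u} [AddCommGroup W] [Module (Pol k n) W]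
    [Module (Fr k n) W] (Z : Submodule (Pol k n) W) : Prop :=
  ∃ (N : ℕ) (ι : Type) (_ : Fintype ι) (π : (ι → Fr k n) →ₗ[Fr k n] W)
    (s : Fin p → W →ₗ[Fr k n] (ι → Fr k n)),
    (∀ w, w ∈ Z ↔ ∃ x ∈ SB k n ι, π x = w) ∧ (∀ a, ∀ z ∈ Z, s a z ∈ SB k n ι) ∧
    ∀ a, ∀ z ∈ Z, π (s a z) = g a ^ N • z

/-- the irrelevant ideal -/
def mm (k : Type u) [Field k] (n : ℕ) : Ideal (Pol k n) := Ideal.span (Set.range X)

end Fr

end

end Pool.Agent.DBX.SRV
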