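import Pool.Agent.DBX.SRV.Stmts

set_option autoImplicit false

namespace Pool.Agent.DBX.SRV

open MvPolynomial IsLocalRing RingTheory.Sequence CategoryTheory

universe u

theorem lpc_proof (hFCT : Stmt_FCT.{u}) (hEXT : Stmt_EXT.{u}) : Stmt_LPC.{u} := by
  intro k _ n p g _ W _ _ _ _ Z hfg hPL
  have hfin : Module.Finite (Pol k n) Z := Module.Finite.iff_fg.2 hfg
  obtain ⟨b, π0, hπ0⟩ := Module.Finite.exists_fin' (Pol k n) Z
  have h1 : ∀ a, ∃ (N : ℕ) (τ : Z →ₗ[Pol k n] (Fin b → Pol k n)),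
      ∀ z, π0 (τ z) = (g a) ^ N • z := fun a =>
    hFCT (Pol k n) Z (g a) (fun q hq hgq => hPL a q hgq) b π0 hπ0
  choose N τ hτ using h1
  let M : ℕ := Finset.univ.sup N
  have hM : ∀ a, N a ≤ M := fun a => Finset.le_sup (Finset.mem_univ a)
  let incL : (Fin b → Pol k n) →ₗ[Pol k n] (Fin b → Fr k n) :=
    (Algebra.linearMap (Pol k n) (Fr k n)).compLeft (Fin b)
  have hincL : ∀ c i, incL c i = algebraMap (Pol k n) (Fr k n) (c i) := fun c i => rfl
  have h2 : ∀ a, ∃ s' : W →ₗ[Fr k n] (Fin b → Fr k n), ∀ z : Z,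
      s' (z : W) = (incL.comp ((g a) ^ (M - N a) • τ a)) z := fun a =>
    hEXT k n W (Fin b → Fr k n) Z (incL.comp ((g a) ^ (M - N a) • τ a))
  choose s hs using h2
  let π : (Fin b → Fr k n) →ₗ[Fr k n] W :=
    Fintype.linearCombination (Fr k n) (fun i => ((π0 (Pi.single i 1) : Z) : W))
  have hπ : ∀ c : Fin b → Pol k n, π (incL c) = ((π0 c : Z) : W) := by
    intro c
    have e1 : π (incL c) = ∑ i, (incL c) i • ((π0 (Pi.single i 1) : Z) : W) :=
      Fintype.linearCombination_apply _ _ _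
    have e2 : c = ∑ i, c i • (Pi.single i (1 : Pol k n) : Fin b → Pol k n) := by
      funext j
      rw [Finset.sum_apply, Finset.sum_eq_single j]
      · simp
      · intro i _ hij
        simp [Pi.single_eq_of_ne (Ne.symm hij)]
      · intro h; exact absurd (Finset.mem_univ j) h
    have e3 : π0 c = ∑ i, c i • π0 (Pi.single i 1) := by
      conv_lhs => rw [e2]
      rw [map_sum]
      exact Finset.sum_congr rfl (fun i _ => map_smul _ _ _)
    rw [e1, e3, Submodule.coe_sum]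
    refine Finset.sum_congr rfl (fun i _ => ?_)
    rw [hincL, Submodule.coe_smul]
    exact algebraMap_smul (Fr k n) (c i) _
  have hSB : ∀ c : Fin b → Pol k n, incL c ∈ SB k n (Fin b) := fun c i =>
    ⟨c i, trivial, rfl⟩
  refine ⟨M, Fin b, inferInstance, π, s, ?_, ?_, ?_⟩
  · intro w
    constructor
    · intro hw
      obtain ⟨c, hc⟩ := hπ0 ⟨w, hw⟩
      refine ⟨incL c, hSB c, ?_⟩
      rw [hπ, hc]
    · rintro ⟨x, hx, rfl⟩
      have h3 : ∀ i, ∃ c : Pol k n, algebraMap (Pol k n) (Fr k n) c = x i := by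
        intro i
        obtain ⟨c, _, hc⟩ := hx i
        exact ⟨c, hc⟩
      choose c hc using h3
      have h4 : incL c = x := funext hc
      rw [← h4, hπ]
      exact (π0 c).2
  · intro a z hz
    have h5 := hs a ⟨z, hz⟩
    have h6 : s a z = incL (((g a) ^ (M - N a) • τ a) ⟨z, hz⟩) := h5
    rw [h6]
    exact hSB _
  · intro a z hz
    have h6 : s a z = incL (((g a) ^ (M - N a) • τ a) ⟨z, hz⟩) := hs a ⟨z, hz⟩
    rw [h6, hπ, LinearMap.smul_apply, map_smul, hτ, smul_smul, ← pow_add,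
      Nat.sub_add_cancel (hM a)]
    rfl

end Pool.Agent.DBX.SRV
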