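import Pool.Agent.DBX.SRV.Stmts

set_option autoImplicit false

namespace Pool.Agent.DBX.SRV

open MvPolynomial IsLocalRing RingTheory.Sequence CategoryTheory

universe u

namespace SYZ_

theorem ses {B : Type u} [CommRing B] {K P M : Type u} [AddCommGroup K] [Module B K]
    [AddCommGroup P] [Module B P] [AddCommGroup M] [Module B M] [Module.Projective B P]
    (i : K →ₗ[B] P) (f : P →ₗ[B] M) (hi : Function.Injective i) (hf : Function.Surjective f)
    (hex : Function.Exact i f) (e : ℕ) : PDLE B M (e + 1) ↔ PDLE B K e := by
  let T : ShortComplex (ModuleCat.{u} B) := ShortComplex.mk (ModuleCat.ofHom i) (ModuleCat.ofHom f)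
    (by ext x; exact (hex (i x)).2 ⟨x, rfl⟩)
  have hT : T.ShortExact :=
    { exact := (ShortComplex.ShortExact.moduleCat_exact_iff_function_exact T).2 hex
      mono_f := (ModuleCat.mono_iff_injective _).2 hi
      epi_g := (ModuleCat.epi_iff_surjective _).2 hf }
  have hP : Projective T.X₂ := (IsProjective.iff_projective P).1 inferInstance
  exact hT.hasProjectiveDimensionLT_X₃_iff e hP

end SYZ_

theorem syz_proof : Stmt_SYZ.{u} := by
  intro A _ K P M _ _ _ _ _ _ _ i f hi hf hex q _ e
  have hex' : Function.Exact i f := LinearMap.exact_iff.2 hex.symm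
  exact SYZ_.ses (LocalizedModule.map q.primeCompl i) (LocalizedModule.map q.primeCompl f)
    (LocalizedModule.map_injective q.primeCompl i hi)
    (LocalizedModule.map_surjective q.primeCompl f hf)
    (LocalizedModule.map_exact q.primeCompl i f hex') e

end Pool.Agent.DBX.SRV
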