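import Pool.Agent.DBX.SRV.Defs

set_option autoImplicit false

/-! # MP_2c751f_ag, squad DBX, area SRV: statements of the modules -/

namespace Pool.Agent.DBX.SRV

open MvPolynomial IsLocalRing RingTheory.Sequence

noncomputable section

universe u

/-! ## 1. Homological algebra -/

/-- Hilbert's syzygy theorem, one variable. -/
def Stmt_GDX : Prop :=
  ∀ (A : Type u) [CommRing A] (r : ℕ), GD A r → GD (Polynomial A) (r + 1)

def Stmt_GDP : Prop :=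
  ∀ (K : Type u) [Field K] (r : ℕ), GD (MvPolynomial (Fin r) K) r

def Stmt_GDL : Prop :=
  ∀ (A B : Type u) [CommRing A] [CommRing B] [Algebra A B] (M : Submonoid A) [IsLocalization M B]
    (r : ℕ), GD A r → GD B r

def Stmt_GLQ : Prop :=
  ∀ (k : Type u) [Field k] (n : ℕ) (q : Ideal (Pol k n)) [q.IsPrime] (h : ℕ),
    q.height ≤ (h : ℕ∞) → GD (Localization.AtPrime q) h

/-- From depth to projective dimension. -/
def Stmt_PDD : Prop :=
  ∀ (A : Type u) [CommRing A] [IsLocalRing A] [IsNoetherianRing A] (M : Type u) [AddCommGroup M]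
    [Module A M] [Module.Finite A M] [Nontrivial M] (rs : List A) (h : ℕ), GD A h →
    (∀ r ∈ rs, r ∈ maximalIdeal A) → IsWeaklyRegular M rs →
    rs.length ≤ h ∧ PDLE A M (h - rs.length)

/-- Flat base change. -/
def Stmt_BCG : Prop :=
  ∀ (A B : Type u) [CommRing A] [CommRing B] [Algebra A B] [Module.Flat A B] (M N : Type u)
    [AddCommGroup M] [Module A M] [AddCommGroup N] [Module A N] [Module B N] [IsScalarTower A B N]
    (f : M →ₗ[A] N), IsBaseChange B f → ∀ e : ℕ, PDLE A M e → PDLE B N e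

/-- Invariance under isomorphisms, monotonicity. -/
def Stmt_PLI : Prop :=
  (∀ (A : Type u) [CommRing A] (M N : Type u) [AddCommGroup M] [Module A M] [AddCommGroup N]
    [Module A N] (_ : M ≃ₗ[A] N) (e e' : ℕ), e ≤ e' → PDLE A M e → PDLE A N e') ∧
  ∀ (A : Type u) [CommRing A] (M N : Type u) [AddCommGroup M] [Module A M] [AddCommGroup N]
    [Module A N] (_ : M ≃ₗ[A] N) (q : Ideal A) [q.IsPrime] (e e' : ℕ), e ≤ e' →
    PL A M q e → PL A N q e'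

/-- Openness. -/
def Stmt_OPN : Prop :=
  ∀ (A : Type u) [CommRing A] [IsNoetherianRing A] (M : Type u) [AddCommGroup M] [Module A M]
    [Module.Finite A M] (e : ℕ) (q : Ideal A) [q.IsPrime], PL A M q e →
    ∃ s : A, s ∉ q ∧ ∀ (q' : Ideal A) [q'.IsPrime], s ∉ q' → PL A M q' e

def Stmt_INV : Prop :=
  ∀ (A : Type u) [CommRing A] (φ : A ≃+* A) (I q : Ideal A) [q.IsPrime] (e : ℕ),
    I.comap (φ : A →+* A) = I → PL A (A ⧸ I) q e → PL A (A ⧸ I) (q.comap (φ : A →+* A)) e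

/-- Syzygies. -/
def Stmt_SYZ : Prop :=
  ∀ (A : Type u) [CommRing A] (K P M : Type u) [AddCommGroup K] [Module A K] [AddCommGroup P]
    [Module A P] [AddCommGroup M] [Module A M] [Module.Projective A P] (i : K →ₗ[A] P)
    (f : P →ₗ[A] M), Function.Injective i → Function.Surjective f →
    LinearMap.range i = LinearMap.ker f → ∀ (q : Ideal A) [q.IsPrime] (e : ℕ),
    PL A M q (e + 1) ↔ PL A K q e

/-- Locally projective modules. -/
def Stmt_FCT : Prop :=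
  ∀ (A : Type u) [CommRing A] [IsNoetherianRing A] (Z : Type u) [AddCommGroup Z] [Module A Z]
    [Module.Finite A Z] (s : A), (∀ (q : Ideal A) [q.IsPrime], s ∉ q → PL A Z q 0) →
    ∀ (b : ℕ) (π : (Fin b → A) →ₗ[A] Z), Function.Surjective π →
    ∃ (N : ℕ) (τ : Z →ₗ[A] (Fin b → A)), ∀ z, π (τ z) = s ^ N • z

/-! ## 2. Dimension theory of polynomial rings -/

def Stmt_MXH : Prop :=
  ∀ (K : Type u) [Field K] (n : ℕ) (Q : Ideal (MvPolynomial (Fin n) K)), Q.IsMaximal →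
    Q.height = (n : ℕ∞)

def Stmt_TR1 : Prop :=
  ∀ (k : Type u) [Field k] (n : ℕ) (q : Ideal (Pol k n)) [q.IsPrime],
    ∃ (a b : ℕ) (e : Fin a ⊕ Fin b ≃ Fin n),
      IsTranscendenceBasis k (fun j : Fin a => Ideal.Quotient.mk q (X (e (Sum.inl j)) : Pol k n))

def Stmt_TR2 : Prop :=
  ∀ (k : Type u) [Field k] (a b : ℕ) (q : Ideal (MvPolynomial (Fin a ⊕ Fin b) k)) [q.IsPrime],
    IsTranscendenceBasis k (fun j : Fin a =>
      Ideal.Quotient.mk q (X (Sum.inl j) : MvPolynomial (Fin a ⊕ Fin b) k)) →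
    q.height = (b : ℕ∞) ∧ ∃ (K : Type u) (_ : Field K) (Q : Ideal (MvPolynomial (Fin b) K))
      (_ : Q.IsMaximal), Nonempty (Localization.AtPrime q ≃+* Localization.AtPrime Q)

/-- The local rings of `k[x]` are local rings of polynomial rings at maximal ideals. -/
def Stmt_TRB : Prop :=
  ∀ (k : Type u) [Field k] (n : ℕ) (q : Ideal (Pol k n)) [q.IsPrime],
    ∃ (h : ℕ) (K : Type u) (_ : Field K) (Q : Ideal (MvPolynomial (Fin h) K)) (_ : Q.IsMaximal),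
      q.height = (h : ℕ∞) ∧ Nonempty (Localization.AtPrime q ≃+* Localization.AtPrime Q)

/-- Dimension = transcendence degree. -/
def Stmt_DMB : Prop :=
  ∀ (k : Type u) [Field k] (B : Type u) [CommRing B] [IsDomain B] [Algebra k B]
    [Algebra.FiniteType k B] (a : ℕ) (x : Fin a → B), IsTranscendenceBasis k x →
    ringKrullDim B = (a : WithBot ℕ∞)

def Stmt_DM1 : Prop :=
  ∀ (k : Type u) [Field k] (n : ℕ) (q : Ideal (Pol k n)) [q.IsPrime],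
    (q.height : WithBot ℕ∞) + ringKrullDim (Pol k n ⧸ q) = (n : WithBot ℕ∞)

/-- Dimension formula for affine domains. -/
def Stmt_NND : Prop :=
  ∀ (k : Type u) [Field k] (B : Type u) [CommRing B] [IsDomain B] [Algebra k B]
    [Algebra.FiniteType k B] (Q : Ideal B) [Q.IsPrime],
    (Q.height : WithBot ℕ∞) + ringKrullDim (B ⧸ Q) = ringKrullDim B

def Stmt_DM2 : Prop :=
  ∀ (k : Type u) [Field k] (n : ℕ) (p q : Ideal (Pol k n)) [p.IsPrime] [q.IsPrime], p ≤ q →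
    (q.map (Ideal.Quotient.mk p)).height + p.height = q.height

def Stmt_DM3 : Prop :=
  ∀ (k : Type u) [Field k] (n : ℕ) (I : Ideal (Pol k n)) (d : ℕ),
    ringKrullDim (Pol k n ⧸ I) = (d : WithBot ℕ∞) →
    (∀ p ∈ I.minimalPrimes, (n : ℕ∞) ≤ d + p.height) ∧
      ∃ p ∈ I.minimalPrimes, (n : ℕ∞) = d + p.height

def Stmt_DM4 : Prop :=
  ∀ (k : Type u) [Field k] (n : ℕ) (I : Ideal (Pol k n)) (P : Ideal (Pol k n ⧸ I)) [P.IsPrime],
    (∀ c : ℕ∞, (∀ p ∈ I.minimalPrimes, p ≤ P.comap (Ideal.Quotient.mk I) → c ≤ p.height) →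
      P.height + c ≤ (P.comap (Ideal.Quotient.mk I)).height) ∧
    ∀ p ∈ I.minimalPrimes, p ≤ P.comap (Ideal.Quotient.mk I) →
      (P.comap (Ideal.Quotient.mk I)).height ≤ P.height + p.height

/-! ## 3. Homogeneous ideals -/

def Stmt_COR : Prop :=
  ∀ (k : Type u) [Field k] (n : ℕ) (q : Ideal (Pol k n)) [q.IsPrime],
    ∃ q' : Ideal (Pol k n), q'.IsPrime ∧ HomIdeal q' ∧ q' ≤ q ∧
      ∀ (w : Pol k n) (d : ℕ), w.IsHomogeneous d → w ∈ q → w ∈ q'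

def Stmt_HMJ : Prop :=
  ∀ (k : Type u) [Field k] [CharZero k] (n : ℕ) (J : Ideal (Pol k n)),
    (∀ c : k, c ≠ 0 → ∀ w ∈ J, MvPolynomial.aeval (fun i => (C c * X i : Pol k n)) w ∈ J) →
    HomIdeal J

def Stmt_MNH : Prop :=
  ∀ (k : Type u) [Field k] (n : ℕ) (I : Ideal (Pol k n)), HomIdeal I →
    ∀ p ∈ I.minimalPrimes, HomIdeal p

def Stmt_IRR : Prop :=
  ∀ (k : Type u) [Field k] (n : ℕ), (mm k n).IsMaximal ∧ HomIdeal (mm k n) ∧
    (mm k n).height = (n : ℕ∞) ∧ ∀ J : Ideal (Pol k n), HomIdeal J → J ≠ ⊤ → J ≤ mm k n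

/-- Projective dimension at non-homogeneous primes. -/
def Stmt_TOR : Prop :=
  ∀ (k : Type u) [Field k] [CharZero k] (n : ℕ) (I : Ideal (Pol k n)), HomIdeal I →
    ∀ (s : Pol k n) (d e : ℕ), s.IsHomogeneous d →
    (∀ (q : Ideal (Pol k n)) [q.IsPrime], HomIdeal q → I ≤ q → s ∉ q →
      PL (Pol k n) (Pol k n ⧸ I) q e) →
    ∀ (q : Ideal (Pol k n)) [q.IsPrime], s ∉ q → PL (Pol k n) (Pol k n ⧸ I) q e

def Stmt_DHM : Prop :=
  ∀ (k : Type u) [Field k] (n : ℕ) (I : Ideal (Pol k n)) (d : ℕ), HomIdeal I →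
    ringKrullDim (Pol k n ⧸ I) = (d : WithBot ℕ∞) →
    ∀ (P : Ideal (Pol k n ⧸ I)) [P.IsPrime], P.comap (Ideal.Quotient.mk I) = mm k n →
      P.height = (d : ℕ∞)

/-! ## 4. Serre's condition -/

def Stmt_BR1 : Prop :=
  ∀ (A : Type u) [CommRing A] (I : Ideal A) (P : Ideal (A ⧸ I)) [P.IsPrime]
    (rs : List (Localization.AtPrime P)),
    (∀ x ∈ rs, x ∈ maximalIdeal (Localization.AtPrime P)) →
    IsRegular (Localization.AtPrime P) rs →
    ∃ rs' : List (Localization.AtPrime (P.comap (Ideal.Quotient.mk I))),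
      rs'.length = rs.length ∧
      (∀ x ∈ rs', x ∈ maximalIdeal (Localization.AtPrime (P.comap (Ideal.Quotient.mk I)))) ∧
      IsRegular (LocalizedModule (P.comap (Ideal.Quotient.mk I)).primeCompl (A ⧸ I)) rs'

/-- Hartshorne's connectedness lemma. -/
def Stmt_HAR : Prop :=
  ∀ (A : Type u) [CommRing A] [IsLocalRing A] [IsNoetherianRing A] (a b : Ideal A) (x y : A),
    x ∈ maximalIdeal A → y ∈ maximalIdeal A → IsWeaklyRegular A [x, y] →
    a ⊓ b ≤ nilradical A → maximalIdeal A ≤ (a ⊔ b).radical →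
    (∀ z ∈ a, z ∉ nonZeroDivisors A) → (∀ z ∈ b, z ∉ nonZeroDivisors A) → False

def Stmt_SRM : Prop :=
  ∀ (R : Type u) [CommRing R] (r s : ℕ), s ≤ r → SerreCond R r → SerreCond R s

def Stmt_EQH : Prop :=
  ∀ (k : Type u) [Field k] (n : ℕ) (I : Ideal (Pol k n)), HomIdeal I → I ≠ ⊤ →
    SerreCond (Pol k n ⧸ I) 2 → ∀ p ∈ I.minimalPrimes, ∀ p' ∈ I.minimalPrimes,
    p.height = p'.height

def Stmt_PDQ : Prop :=
  ∀ (k : Type u) [Field k] (n : ℕ) (I : Ideal (Pol k n)) (r c : ℕ), SerreCond (Pol k n ⧸ I) r →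
    (∀ (P : Ideal (Pol k n ⧸ I)) [P.IsPrime],
      (P.comap (Ideal.Quotient.mk I)).height = P.height + (c : ℕ∞)) →
    ∀ (q : Ideal (Pol k n)) [q.IsPrime], I ≤ q → ∀ e : ℕ, q.height ≤ (e : ℕ∞) →
      PL (Pol k n) (Pol k n ⧸ I) q (max (e - r) c)

/-! ## 5. Čech cohomology -/

def Stmt_HVS : Prop :=
  ∀ (k : Type u) [Field k] (n p : ℕ) (g : Fin p → Pol k n), Lin g → ∀ j, j < n →
    HV g (IF (⊤ : Ideal (Pol k n))) ⊥ j

def Stmt_HVB : Prop :=
  ∀ (k : Type u) [Field k] (n p : ℕ) (g : Fin p → Pol k n), Lin g → ∀ j, j < n →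
    ∀ (ι : Type) [Fintype ι], HV g (SB k n ι) ⊥ j

/-- Finite generation of `H^j(Z₃)`. -/
def Stmt_EL1 : Prop :=
  ∀ (A : Type u) [CommRing A] [IsNoetherianRing A] (W₁ W₂ W₃ : Type u) [AddCommGroup W₁]
    [AddCommGroup W₂] [AddCommGroup W₃] [Module A W₁] [Module A W₂] [Module A W₃] (p : ℕ)
    (g : Fin p → A) (φ : W₁ →ₗ[A] W₂) (ψ : W₂ →ₗ[A] W₃) (Z₁ : Submodule A W₁)
    (Z₂ : Submodule A W₂) (Z₃ : Submodule A W₃), (∀ σ, σ.Nonempty → Ex g φ ψ Z₁ Z₂ Z₃ σ) →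
    ∀ j, 1 ≤ j → FGH g Z₂ j → FGH g Z₁ (j + 1) → FGH g Z₃ j

/-- Finite generation of `H^j(Z₁)`. -/
def Stmt_EL2 : Prop :=
  ∀ (A : Type u) [CommRing A] [IsNoetherianRing A] (W₁ W₂ W₃ : Type u) [AddCommGroup W₁]
    [AddCommGroup W₂] [AddCommGroup W₃] [Module A W₁] [Module A W₂] [Module A W₃] (p : ℕ)
    (g : Fin p → A) (φ : W₁ →ₗ[A] W₂) (ψ : W₂ →ₗ[A] W₃) (Z₁ : Submodule A W₁)
    (Z₂ : Submodule A W₂) (Z₃ : Submodule A W₃), (∀ σ, σ.Nonempty → Ex g φ ψ Z₁ Z₂ Z₃ σ) →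
    ∀ j, 1 ≤ j → (2 ≤ j → FGH g Z₃ (j - 1)) → FGH g Z₂ j → FGH g Z₁ j

/-- Extension of `k[x]`-linear maps to `k(x)`-linear maps. -/
def Stmt_EXT : Prop :=
  ∀ (k : Type u) [Field k] (n : ℕ) (W W' : Type u) [AddCommGroup W] [Module (Pol k n) W]
    [Module (Fr k n) W] [IsScalarTower (Pol k n) (Fr k n) W] [AddCommGroup W']
    [Module (Pol k n) W'] [Module (Fr k n) W'] [IsScalarTower (Pol k n) (Fr k n) W']
    (Z : Submodule (Pol k n) W) (s : Z →ₗ[Pol k n] W'),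
    ∃ s' : W →ₗ[Fr k n] W', ∀ z : Z, s' (z : W) = s z

/-- `k[x]^ι` is free. -/
def Stmt_SBP : Prop :=
  ∀ (k : Type u) [Field k] (n : ℕ) (ι : Type) [Fintype ι],
    Module.Free (Pol k n) (SB k n ι) ∧ Module.Finite (Pol k n) (SB k n ι)

/-- Free covers. -/
def Stmt_EXS : Prop :=
  ∀ (k : Type u) [Field k] (n p : ℕ) (g : Fin p → Pol k n), (∀ a, g a ≠ 0) →
    ∀ (W : Type u) [AddCommGroup W] [Module (Pol k n) W] [Module (Fr k n) W]
    [IsScalarTower (Pol k n) (Fr k n) W] (Z : Submodule (Pol k n) W), Z.FG →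
    ∃ (ι : Type) (_ : Fintype ι) (ψ : (ι → Fr k n) →ₗ[Fr k n] W)
      (Z₁ : Submodule (Pol k n) (ι → Fr k n)), Z₁.FG ∧
      (∀ w, w ∈ Z ↔ ∃ x ∈ SB k n ι, ψ x = w) ∧ (∀ x, x ∈ Z₁ ↔ x ∈ SB k n ι ∧ ψ x = 0) ∧
      ∀ σ, Ex g (LinearMap.id : (ι → Fr k n) →ₗ[Pol k n] (ι → Fr k n))
        (ψ.restrictScalars (Pol k n)) Z₁ (SB k n ι) Z σ

def Stmt_FGF : Prop :=
  ∀ (k : Type u) [Field k] (n p : ℕ) (g : Fin p → Pol k n), Lin g →
    ∀ (ι : Type) [Fintype ι] (j : ℕ), 1 ≤ j → j < n → FGH g (SB k n ι) j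

/-- One step for locally projective modules. -/
def Stmt_LPS : Prop :=
  ∀ (k : Type u) [Field k] (n p : ℕ) (g : Fin p → Pol k n), Lin g →
    ∀ (W : Type u) [AddCommGroup W] [Module (Pol k n) W] [Module (Fr k n) W]
    [IsScalarTower (Pol k n) (Fr k n) W] (Z : Submodule (Pol k n) W), LP g Z →
    ∃ (κ : Type) (_ : Fintype κ) (W₃ : Type u) (_ : AddCommGroup W₃) (_ : Module (Pol k n) W₃)
      (_ : Module (Fr k n) W₃) (_ : IsScalarTower (Pol k n) (Fr k n) W₃)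
      (φ : W →ₗ[Pol k n] (κ → Fr k n)) (ψ : (κ → Fr k n) →ₗ[Pol k n] W₃)
      (Z₃ : Submodule (Pol k n) W₃), LP g Z₃ ∧
      ∀ σ, σ.Nonempty → Ex g φ ψ Z (SB k n κ) Z₃ σ

def Stmt_LPF : Prop :=
  ∀ (k : Type u) [Field k] (n p : ℕ) (g : Fin p → Pol k n), Lin g → ∀ j, 1 ≤ j → j < n →
    ∀ (W : Type u) [AddCommGroup W] [Module (Pol k n) W] [Module (Fr k n) W]
    [IsScalarTower (Pol k n) (Fr k n) W] (Z : Submodule (Pol k n) W), LP g Z → FGH g Z j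

def Stmt_LPC : Prop :=
  ∀ (k : Type u) [Field k] (n p : ℕ) (g : Fin p → Pol k n), (∀ a, g a ≠ 0) →
    ∀ (W : Type u) [AddCommGroup W] [Module (Pol k n) W] [Module (Fr k n) W]
    [IsScalarTower (Pol k n) (Fr k n) W] (Z : Submodule (Pol k n) W), Z.FG →
    (∀ a, ∀ (q : Ideal (Pol k n)) [q.IsPrime], g a ∉ q → PL (Pol k n) Z q 0) → LP g Z

def Stmt_FGV : Prop :=
  ∀ (k : Type u) [Field k] (n p : ℕ) (g : Fin p → Pol k n), Lin g →
    ∀ e j : ℕ, 1 ≤ j → j + e < n →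
    ∀ (W : Type u) [AddCommGroup W] [Module (Pol k n) W] [Module (Fr k n) W]
    [IsScalarTower (Pol k n) (Fr k n) W] (Z : Submodule (Pol k n) W), Z.FG →
    (∀ a, ∀ (q : Ideal (Pol k n)) [q.IsPrime], g a ∉ q → PL (Pol k n) Z q e) → FGH g Z j

/-! ## 6. Gradings -/

def Stmt_ELC : Prop :=
  ∀ (k : Type u) [Field k] (n : ℕ) (D : Dat k n), (∀ a, D.g a ≠ 0) → ∀ σ z,
    z ∈ D.E σ ∅ ↔ z ∈ loc D.g (IF D.I) σ

def Stmt_VNG : Prop :=
  ∀ (k : Type u) [Field k] (n : ℕ) (D : Dat k n), D.Good → ∀ j, 1 ≤ j →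
    FGH D.g (IF D.I) j → ∃ t0 : ℕ, ∀ t : ℕ, t0 ≤ t → D.AZ (-(t : ℤ)) j

/-! ## 8. Generic hyperplane sections -/

/-- the composite `k[x_0..x_n] → k'[x_0..x_{n-1}]` -/
def th (k : Type u) [Field k] (n : ℕ) : Pol k (n + 1) →+* Pol (Kx k n) n :=
  (secP k n : Pol (Kx k n) (n + 1) →+* Pol (Kx k n) n).comp (bcP k n)

def Stmt_FLS : Prop :=
  ∀ (k : Type u) [Field k] (n : ℕ) (q' : Ideal (Pol (Kx k n) n)) [q'.IsPrime],
    (∃ b : Fin n, (X b : Pol (Kx k n) n) ∉ q') →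
    ((algebraMap (Pol (Kx k n) n) (Localization.AtPrime q')).comp (th k n)).Flat

def Stmt_BCL : Prop :=
  ∀ (A B : Type u) [CommRing A] [CommRing B] (θ : A →+* B) (q' : Ideal B) [q'.IsPrime],
    ((algebraMap B (Localization.AtPrime q')).comp θ).Flat → ∀ (I : Ideal A) (e : ℕ),
    PL A (A ⧸ I) (q'.comap θ) e → PL B (B ⧸ I.map θ) q' e

def Stmt_BCH : Prop :=
  ∀ (A B : Type u) [CommRing A] [CommRing B] [IsNoetherianRing A] [IsNoetherianRing B]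
    (θ : A →+* B) (q' : Ideal B) [q'.IsPrime],
    ((algebraMap B (Localization.AtPrime q')).comp θ).Flat → (q'.comap θ).height ≤ q'.height

def Stmt_DS1 : Prop :=
  ∀ (k : Type u) [Field k] (n : ℕ) (I : Ideal (Pol k (n + 1))),
    ringKrullDim (Pol k (n + 1) ⧸ I) ≤ ringKrullDim (Pol (Kx k n) (n + 1) ⧸ I.map (bcP k n))

def Stmt_DS2 : Prop :=
  ∀ (k : Type u) [Field k] (n : ℕ) (J : Ideal (Pol k n)), HomIdeal J → ∀ l : Pol k n,
    l.IsHomogeneous 1 →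
    ringKrullDim (Pol k n ⧸ J) ≤ ringKrullDim (Pol k n ⧸ (J ⊔ Ideal.span {l})) + 1

/-- the kernel of the section map -/
def Stmt_KSC : Prop :=
  ∀ (k : Type u) [Field k] (n : ℕ), Function.Surjective (secP k n) ∧
    RingHom.ker (secP k n : Pol (Kx k n) (n + 1) →+* Pol (Kx k n) n) = Ideal.span {lgen k n}

def Stmt_DMS : Prop :=
  ∀ (k : Type u) [Field k] [CharZero k] (n : ℕ) (D : Dat k (n + 1)) (c : ℕ), D.Good →
    D.DM c → D.sec.DM c

end

end Pool.Agent.DBX.SRV
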